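import Mathlib
import Pool.Agent.N907.EG.MV
import Pool.Agent.TH915.UC.BT
import Pool.Agent.Erdos456.Mertens

set_option autoImplicit false

/-! Preparations: primes `p` with `f ∣ p - 1`, mean values of multiplicative functions. -/

namespace Pool.Agent.U376.AK

open Finset

/-- the primes up to `y` -/
def PY (y : ℕ) : Finset ℕ := (Icc 1 y).filter Nat.Prime

lemma mem_PY {y p : ℕ} : p ∈ PY y ↔ p.Prime ∧ p ≤ y := by
  unfold PY
  rw [mem_filter, mem_Icc]
  exact ⟨fun h => ⟨h.2, h.1.2⟩, fun h => ⟨⟨h.1.one_le, h.2⟩, h.1⟩⟩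

/-- Brun–Titchmarsh for the residue class `1` -/
lemma bt_one (f y : ℕ) (hf : 1 ≤ f) (hfy : f ^ 3 ≤ y ^ 2) (hy : 2 ≤ y) :
    (((PY y).filter (fun p : ℕ => f ∣ p - 1)).card : ℝ) ≤
      132 * (y / Real.log y) * (((f : ℝ) / f.totient) / f) := by
  have hf0 : (0 : ℝ) < f := by exact_mod_cast hf
  have hy2 : (2 : ℝ) ≤ y := by exact_mod_cast hy
  have hfley : f ≤ y := by
    by_contra h
    push Not at h
    have h1 : y ^ 2 * y < f ^ 2 * f := Nat.mul_lt_mul_of_le_of_lt (Nat.pow_le_pow_left h.le 2) h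
      (by positivity)
    have h2 : y ^ 2 ≤ y ^ 2 * y := Nat.le_mul_of_pos_right _ (by omega)
    have h3 : f ^ 2 * f = f ^ 3 := by ring
    omega
  obtain ⟨N, hN⟩ : ∃ N, N = y / f + 1 := ⟨_, rfl⟩
  have hN1 : 1 ≤ y / f := (Nat.le_div_iff_mul_le (by omega)).2 (by omega)
  have hN2 : 2 ≤ N := by omega
  have hkey : ((PY y).filter (fun p : ℕ => f ∣ p - 1)).card ≤
      ((range N).filter (fun k => (1 + k * f).Prime)).card := by
    apply Finset.card_le_card_of_injOn (fun p => (p - 1) / f)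
    · intro p hp
      rw [mem_coe, mem_filter, mem_PY] at hp
      obtain ⟨⟨hpp, hpy⟩, hd⟩ := hp
      rw [mem_coe, mem_filter, mem_range]
      refine ⟨?_, ?_⟩
      · rw [hN]; exact Nat.lt_succ_of_le (Nat.div_le_div_right (by omega))
      · rw [Nat.div_mul_cancel hd]
        have : 1 + (p - 1) = p := by have := hpp.one_le; omega
        rw [this]; exact hpp
    · intro p hp q hq h
      rw [mem_coe, mem_filter, mem_PY] at hp hq
      have e1 : (p - 1) / f * f = (q - 1) / f * f := by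
        have : (p - 1) / f = (q - 1) / f := h
        rw [this]
      rw [Nat.div_mul_cancel hp.2, Nat.div_mul_cancel hq.2] at e1
      have := hp.1.1.one_le
      have := hq.1.1.one_le
      omega
  have h1 := Pool.Agent.TH915.UC.bt_gen 1 f N (by omega) hN2
  have hNr : (N : ℝ) ≤ 2 * (y / f) := by
    rw [hN]
    push_cast
    have e1 : ((y / f : ℕ) : ℝ) ≤ (y : ℝ) / f := Nat.cast_div_le
    have e2 : (1 : ℝ) ≤ ((y / f : ℕ) : ℝ) := by exact_mod_cast hN1
    linarith
  have hNl : (y : ℝ) / f ≤ N := by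
    rw [hN]
    rw [div_le_iff₀ hf0]
    have := Nat.lt_div_mul_add (a := y) (b := f) (by omega)
    have h2 : y ≤ (y / f + 1) * f := by
      rw [add_mul, one_mul]; omega
    exact_mod_cast h2
  have hlogy : 0 < Real.log y := Real.log_pos (by linarith)
  have hyf : (1 : ℝ) ≤ (y : ℝ) / f := by
    rw [le_div_iff₀ hf0, one_mul]
    exact_mod_cast hfley
  have hlog : Real.log y / 3 ≤ Real.log N := by
    have e1 : (y : ℝ) ≤ ((y : ℝ) / f) ^ 3 := by
      rw [div_pow, le_div_iff₀ (by positivity)]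
      have e3 : (f : ℝ) ^ 3 ≤ (y : ℝ) ^ 2 := by exact_mod_cast hfy
      calc (y : ℝ) * (f : ℝ) ^ 3 ≤ y * (y : ℝ) ^ 2 := by gcongr
        _ = (y : ℝ) ^ 3 := by ring
    have e2 := Real.log_le_log (by linarith) e1
    rw [Real.log_pow] at e2
    have e3 := Real.log_le_log (by linarith) hNl
    push_cast at e2
    linarith
  have hφ : (0 : ℝ) < f.totient := by exact_mod_cast Nat.totient_pos.2 hf
  have hlogN : 0 < Real.log N := by linarith
  calc (((PY y).filter (fun p : ℕ => f ∣ p - 1)).card : ℝ)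
      ≤ (((range N).filter (fun k => (1 + k * f).Prime)).card : ℝ) := by exact_mod_cast hkey
    _ ≤ 22 * ((f : ℝ) / f.totient) * N / Real.log N := h1
    _ ≤ 22 * ((f : ℝ) / f.totient) * (2 * (y / f)) / (Real.log y / 3) := by
        gcongr
    _ = 132 * (y / Real.log y) * (((f : ℝ) / f.totient) / f) := by
        field_simp
        ring

/-- the weights -/
noncomputable def hq (t : ℝ) (z q : ℕ) : ℝ := ((q : ℝ) / ((q : ℝ) - 1)) * (if z < q then t else 1)

/-- the multiplicative function -/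
noncomputable def hf (t : ℝ) (z n : ℕ) : ℝ := ∏ q ∈ n.primeFactors, hq t z q

lemma ratio_bd (q : ℕ) : 0 ≤ (q : ℝ) / ((q : ℝ) - 1) ∧ (q : ℝ) / ((q : ℝ) - 1) ≤ 2 := by
  rcases Nat.lt_or_ge q 2 with h | h
  · interval_cases q <;> norm_num
  · have hq : (2 : ℝ) ≤ q := by exact_mod_cast h
    refine ⟨div_nonneg (by linarith) (by linarith), ?_⟩
    rw [div_le_iff₀ (by linarith)]
    linarith

lemma hq_nonneg {t : ℝ} (ht : 0 ≤ t) (z q : ℕ) : 0 ≤ hq t z q := by
  unfold hq
  refine mul_nonneg (ratio_bd q).1 ?_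
  split_ifs <;> linarith

lemma hq_le {t : ℝ} (ht : 0 ≤ t) (ht1 : t ≤ 1) (z q : ℕ) : hq t z q ≤ 2 := by
  unfold hq
  calc _ ≤ 2 * (1 : ℝ) := by
        refine mul_le_mul (ratio_bd q).2 ?_ ?_ (by norm_num)
        · split_ifs <;> linarith
        · split_ifs <;> linarith
    _ = 2 := by norm_num

lemma hf_nonneg {t : ℝ} (ht : 0 ≤ t) (z n : ℕ) : 0 ≤ hf t z n :=
  prod_nonneg fun q _ => hq_nonneg ht z q

/-- number of prime factors exceeding `z` -/
def om (z n : ℕ) : ℕ := (n.primeFactors.filter (fun q => z < q)).card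

lemma hf_eq (t : ℝ) (z n : ℕ) (hn : n ≠ 0) :
    hf t z n = ((n : ℝ) / n.totient) * t ^ (om z n) := by
  unfold hf hq om
  rw [prod_mul_distrib]
  congr 1
  · have h := Nat.totient_eq_mul_prod_factors n
    have h1 : (n.totient : ℝ) = n * ∏ p ∈ n.primeFactors, (1 - (p : ℝ)⁻¹) := by
      have := congrArg (fun x : ℚ => (x : ℝ)) h
      push_cast at this
      exact this
    have hn0 : (n : ℝ) ≠ 0 := by exact_mod_cast hn
    rw [h1, ← div_div, div_self hn0, one_div, ← prod_inv_distrib]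
    refine prod_congr rfl fun q hq => ?_
    have hq2 : (2 : ℝ) ≤ q := by exact_mod_cast (Nat.prime_of_mem_primeFactors hq).two_le
    have : (q : ℝ) ≠ 0 := by linarith
    rw [inv_eq_one_div, div_eq_div_iff (by linarith) (by
      rw [sub_ne_zero]
      intro h
      have : (q : ℝ)⁻¹ ≤ 1 / 2 := by
        rw [inv_eq_one_div]
        exact one_div_le_one_div_of_le (by norm_num) hq2
      linarith)]
    field_simp
  · rw [prod_ite, prod_const_one, mul_one, prod_const]

lemma tele (Y : ℕ) : ∑ q ∈ (Icc 1 Y).filter Nat.Prime, 1 / ((q : ℝ) * ((q : ℝ) - 1)) ≤ 1 := by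
  have h1 : ∀ n : ℕ, ∑ q ∈ Ico 2 (n + 2), 1 / ((q : ℝ) * ((q : ℝ) - 1)) = 1 - 1 / ((n : ℝ) + 1) := by
    intro n
    induction n with
    | zero => simp
    | succ n ih =>
      rw [show n + 1 + 2 = (n + 2) + 1 from rfl, sum_Ico_succ_top (by omega), ih]
      push_cast
      have : (n : ℝ) + 1 ≠ 0 := by positivity
      have : (n : ℝ) + 2 ≠ 0 := by positivity
      have : (n : ℝ) + 1 + 1 ≠ 0 := by positivity
      have : (n : ℝ) + 2 - 1 ≠ 0 := by
        have : (0 : ℝ) < (n : ℝ) + 2 - 1 := by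
          have : (0 : ℝ) ≤ n := Nat.cast_nonneg n
          linarith
        exact this.ne'
      field_simp
      ring
  have h2 : (Icc 1 Y).filter Nat.Prime ⊆ Ico 2 (Y + 2) := by
    intro q hq
    rw [mem_filter, mem_Icc] at hq
    rw [mem_Ico]
    exact ⟨hq.2.two_le, by omega⟩
  calc _ ≤ ∑ q ∈ Ico 2 (Y + 2), 1 / ((q : ℝ) * ((q : ℝ) - 1)) := by
        refine sum_le_sum_of_subset_of_nonneg h2 fun q hq _ => ?_
        rw [mem_Ico] at hq
        have : (2 : ℝ) ≤ q := by exact_mod_cast hq.1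
        have : (0 : ℝ) ≤ (q : ℝ) * ((q : ℝ) - 1) := mul_nonneg (by linarith) (by linarith)
        positivity
    _ = 1 - 1 / ((Y : ℝ) + 1) := h1 Y
    _ ≤ 1 := by
        have : 0 ≤ 1 / ((Y : ℝ) + 1) := by positivity
        linarith

/-- mean value, trivial weights -/
lemma mean_one : ∃ C : ℝ, 0 < C ∧ ∀ Y : ℕ, 1 ≤ Y →
    ∑ m ∈ Icc 1 Y, ((m : ℝ) / m.totient) ≤ C * Y := by
  obtain ⟨C, hC, h⟩ := Pool.Agent.N907.EG.s_mv 2 (by norm_num)
  refine ⟨C * Real.exp 1, by positivity, fun Y hY => ?_⟩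
  have h1 := h (hq 1 0) (hq_nonneg zero_le_one 0) (hq_le zero_le_one le_rfl 0) Y hY
  have h2 : ∑ m ∈ Icc 1 Y, ((m : ℝ) / m.totient) = ∑ m ∈ Icc 1 Y, ∏ q ∈ m.primeFactors, hq 1 0 q := by
    refine sum_congr rfl fun m hm => ?_
    rw [mem_Icc] at hm
    have := hf_eq 1 0 m (by omega)
    rw [one_pow, mul_one] at this
    rw [← this]
    rfl
  rw [h2]
  refine h1.trans ?_
  have h3 : ∑ q ∈ (Icc 1 Y).filter Nat.Prime, (hq 1 0 q - 1) / q ≤ 1 := by
    refine le_trans (le_of_eq ?_) (tele Y)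
    refine sum_congr rfl fun q hq' => ?_
    have hp := (mem_filter.1 hq').2
    have hq2 : (2 : ℝ) ≤ q := by exact_mod_cast hp.two_le
    unfold hq
    have : (q : ℝ) - 1 ≠ 0 := by linarith
    have : (q : ℝ) ≠ 0 := by linarith
    rw [ite_self, mul_one]
    field_simp
    ring
  calc C * Y * Real.exp (∑ q ∈ (Icc 1 Y).filter Nat.Prime, (hq 1 0 q - 1) / q)
      ≤ C * Y * Real.exp 1 := by gcongr
    _ = C * Real.exp 1 * Y := by ring

/-- mean value with the weight `t` on the prime factors exceeding `z` -/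
lemma mean_t : ∃ C : ℝ, 0 < C ∧ ∀ (t : ℝ) (z Y : ℕ), 0 ≤ t → t ≤ 1 → 3 ≤ z → z ≤ Y →
    ∑ m ∈ Icc 1 Y, hf t z m ≤
      C * Y * Real.exp (-(1 - t) * (Real.log (Real.log Y) - Real.log (Real.log z))) := by
  obtain ⟨C, hC, h⟩ := Pool.Agent.N907.EG.s_mv 2 (by norm_num)
  obtain ⟨C₁, hC₁⟩ := Pool.Agent.Erdos456.Mert.mertens_inv
  have hC₁0 : 0 ≤ C₁ := (abs_nonneg _).trans (hC₁ 3 le_rfl)
  refine ⟨C * Real.exp (1 + 2 * C₁), by positivity, fun t z Y ht ht1 hz hzY => ?_⟩
  have h1 := h (hq t z) (hq_nonneg ht z) (hq_le ht ht1 z) Y (by omega)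
  refine (show ∑ m ∈ Icc 1 Y, hf t z m ≤ _ from h1).trans ?_
  have h3 : ∑ q ∈ (Icc 1 Y).filter Nat.Prime, (hq t z q - 1) / q ≤
      1 - (1 - t) * (Real.log (Real.log Y) - Real.log (Real.log z)) + 2 * C₁ := by
    have e1 : ∀ q ∈ (Icc 1 Y).filter Nat.Prime, (hq t z q - 1) / q ≤
        1 / ((q : ℝ) * ((q : ℝ) - 1)) - (1 - t) * (if z < q then (1 : ℝ) / q else 0) := by
      intro q hq'
      have hp := (mem_filter.1 hq').2
      have hq2 : (2 : ℝ) ≤ q := by exact_mod_cast hp.two_le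
      have h0 : (0 : ℝ) < (q : ℝ) - 1 := by linarith
      have h0' : (0 : ℝ) < (q : ℝ) := by linarith
      unfold hq
      split_ifs
      · have e2 : ((q : ℝ) / ((q : ℝ) - 1) * t - 1) / q =
            t * (1 / ((q : ℝ) * ((q : ℝ) - 1))) - (1 - t) * (1 / q) := by
          field_simp
          ring
        rw [e2]
        have e3 : 0 ≤ 1 / ((q : ℝ) * ((q : ℝ) - 1)) := by positivity
        nlinarith
      · have e2 : ((q : ℝ) / ((q : ℝ) - 1) * 1 - 1) / q = 1 / ((q : ℝ) * ((q : ℝ) - 1)) := by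
          field_simp
          ring
        rw [e2]
        simp
    refine (sum_le_sum e1).trans ?_
    rw [sum_sub_distrib, ← mul_sum]
    have e4 := tele Y
    have e5 : Real.log (Real.log Y) - Real.log (Real.log z) - 2 * C₁ ≤
        ∑ q ∈ (Icc 1 Y).filter Nat.Prime, (if z < q then (1 : ℝ) / q else 0) := by
      have f1 := (abs_le.1 (hC₁ Y (by omega))).1
      have f2 := (abs_le.1 (hC₁ z hz)).2
      have f3 : ∑ q ∈ (Icc 1 Y).filter Nat.Prime, (1 : ℝ) / q =
          ∑ q ∈ (Icc 1 Y).filter Nat.Prime, (if z < q then (1 : ℝ) / q else 0) +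
          ∑ q ∈ (Icc 1 Y).filter Nat.Prime, (if z < q then 0 else (1 : ℝ) / q) := by
        rw [← sum_add_distrib]
        refine sum_congr rfl fun q _ => ?_
        split_ifs <;> simp
      have f4 : ∑ q ∈ (Icc 1 Y).filter Nat.Prime, (if z < q then 0 else (1 : ℝ) / q) =
          ∑ q ∈ (Icc 1 z).filter Nat.Prime, (1 : ℝ) / q := by
        have g1 : ∀ q : ℕ, (if z < q then (0 : ℝ) else 1 / (q : ℝ)) =
            if ¬ z < q then 1 / (q : ℝ) else 0 := by
          intro q; rw [ite_not]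
        rw [sum_congr rfl fun q _ => g1 q, ← sum_filter, filter_filter]
        apply sum_congr _ fun _ _ => rfl
        ext q
        simp only [mem_filter, mem_Icc]
        constructor
        · rintro ⟨⟨h1, h2⟩, h3, h4⟩
          exact ⟨⟨h1, by omega⟩, h3⟩
        · rintro ⟨⟨h1, h2⟩, h3⟩
          exact ⟨⟨h1, by omega⟩, h3, by omega⟩
      rw [f4] at f3
      linarith
    have e6 : 0 ≤ 1 - t := by linarith
    have e7 : (1 - t) * (Real.log (Real.log Y) - Real.log (Real.log z) - 2 * C₁) ≤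
        (1 - t) * ∑ q ∈ (Icc 1 Y).filter Nat.Prime, (if z < q then (1 : ℝ) / q else 0) :=
      mul_le_mul_of_nonneg_left e5 e6
    have e8 : (1 - t) * (2 * C₁) ≤ 2 * C₁ := by nlinarith
    nlinarith
  calc C * Y * Real.exp (∑ q ∈ (Icc 1 Y).filter Nat.Prime, (hq t z q - 1) / q)
      ≤ C * Y * Real.exp (1 - (1 - t) * (Real.log (Real.log Y) - Real.log (Real.log z)) + 2 * C₁) := by
        gcongr
    _ = C * Real.exp (1 + 2 * C₁) * Y *
        Real.exp (-(1 - t) * (Real.log (Real.log Y) - Real.log (Real.log z))) := by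
        have e1 : 1 - (1 - t) * (Real.log (Real.log Y) - Real.log (Real.log z)) + 2 * C₁ =
          (1 + 2 * C₁) + (-(1 - t) * (Real.log (Real.log Y) - Real.log (Real.log z))) := by ring
        rw [e1, Real.exp_add]
        ring

/-- dyadic summation -/
lemma dyadic (h : ℕ → ℝ) (h0 : ∀ n, 0 ≤ h n) (A : ℕ) (hA : 1 ≤ A) (M : ℝ) (n : ℕ)
    (hM : ∀ Y, A ≤ Y → Y ≤ 2 ^ n * A → ∑ m ∈ Icc 1 Y, h m ≤ M * Y) :
    ∑ f ∈ Ico A (2 ^ n * A), h f / f ≤ n * (2 * M) := by
  induction n with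
  | zero => simp
  | succ n ih =>
    have e1 : 2 ^ n * A ≤ 2 ^ (n + 1) * A := by
      apply Nat.mul_le_mul_right
      exact Nat.pow_le_pow_right (by norm_num) (by omega)
    have e2 : A ≤ 2 ^ n * A := Nat.le_mul_of_pos_left _ (by positivity)
    rw [← sum_Ico_consecutive _ e2 e1]
    have e3 := ih (fun Y h1 h2 => hM Y h1 (h2.trans e1))
    have hpos : (0 : ℝ) < ((2 ^ n * A : ℕ) : ℝ) := by
      have : 0 < 2 ^ n * A := by positivity
      exact_mod_cast this
    have e4 : ∑ f ∈ Ico (2 ^ n * A) (2 ^ (n + 1) * A), h f / f ≤ 2 * M := by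
      calc ∑ f ∈ Ico (2 ^ n * A) (2 ^ (n + 1) * A), h f / f
          ≤ ∑ f ∈ Ico (2 ^ n * A) (2 ^ (n + 1) * A), h f / ((2 ^ n * A : ℕ) : ℝ) := by
            refine sum_le_sum fun f hf => ?_
            rw [mem_Ico] at hf
            apply div_le_div_of_nonneg_left (h0 f) hpos
            exact_mod_cast hf.1
        _ = (∑ f ∈ Ico (2 ^ n * A) (2 ^ (n + 1) * A), h f) / ((2 ^ n * A : ℕ) : ℝ) := by
            rw [sum_div]
        _ ≤ (∑ f ∈ Icc 1 (2 ^ (n + 1) * A), h f) / ((2 ^ n * A : ℕ) : ℝ) := by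
            apply div_le_div_of_nonneg_right _ hpos.le
            refine sum_le_sum_of_subset_of_nonneg ?_ fun f _ _ => h0 f
            intro f hf
            rw [mem_Ico] at hf
            rw [mem_Icc]
            omega
        _ ≤ (M * ((2 ^ (n + 1) * A : ℕ) : ℝ)) / ((2 ^ n * A : ℕ) : ℝ) := by
            apply div_le_div_of_nonneg_right _ hpos.le
            exact hM _ (e2.trans e1) le_rfl
        _ = 2 * M := by
            rw [div_eq_iff hpos.ne']
            push_cast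
            ring
    push_cast
    linarith

/-- divisors come in pairs -/
lemma tau_le (n : ℕ) (hn : 1 ≤ n) :
    n.divisors.card ≤ 2 * (n.divisors.filter (fun f => f * f ≤ n)).card := by
  have h1 := card_filter_add_card_filter_not (s := n.divisors) (fun f => f * f ≤ n)
  have h2 : (n.divisors.filter (fun f => ¬ f * f ≤ n)).card ≤
      (n.divisors.filter (fun f => f * f ≤ n)).card := by
    apply card_le_card_of_injOn (fun f => n / f)
    · intro f hf
      rw [mem_coe, mem_filter, Nat.mem_divisors] at hf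
      rw [mem_coe, mem_filter, Nat.mem_divisors]
      obtain ⟨⟨⟨g, hg⟩, hn0⟩, hlt⟩ := hf
      have hf0 : 0 < f := Nat.pos_of_ne_zero (by rintro rfl; simp at hg; omega)
      have e1 : n / f = g := by rw [hg]; exact Nat.mul_div_cancel_left g hf0
      show (n / f ∣ n ∧ n ≠ 0) ∧ n / f * (n / f) ≤ n
      rw [e1]
      refine ⟨⟨⟨f, by rw [hg]; ring⟩, hn0⟩, ?_⟩
      have h3 : g < f := by
        by_contra hcon
        push Not at hcon
        have : f * f ≤ f * g := Nat.mul_le_mul_left f hcon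
        omega
      calc g * g ≤ f * g := Nat.mul_le_mul_right g h3.le
        _ = n := hg.symm
    · intro f hf g hg h
      rw [mem_coe, mem_filter, Nat.mem_divisors] at hf hg
      have h3 : n / f = n / g := h
      have e1 := Nat.div_mul_cancel hf.1.1
      have e2 := Nat.div_mul_cancel hg.1.1
      rw [h3] at e1
      have h4 : 0 < n / g := Nat.div_pos (Nat.le_of_dvd (by omega) hg.1.1)
        (Nat.pos_of_dvd_of_pos hg.1.1 (by omega))
      exact Nat.eq_of_mul_eq_mul_left h4 (e1.trans e2.symm)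
  omega

end Pool.Agent.U376.AK
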