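import Mathlib
import Pool.Agent.U376.AK.EM1

set_option autoImplicit false

/-! Few primes `p ≤ y` such that `p - 1` has a divisor close to `√y` (Erdős). -/

namespace Pool.Agent.U376.AK

open Finset Filter Topology

lemma two_pow_om_le (z n : ℕ) (hn : n ≠ 0) : 2 ^ om z n ≤ n.divisors.card := by
  rw [Nat.card_divisors hn]
  calc 2 ^ om z n ≤ 2 ^ n.primeFactors.card :=
        Nat.pow_le_pow_right (by norm_num) (card_filter_le _ _)
    _ = ∏ _q ∈ n.primeFactors, 2 := by rw [prod_const]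
    _ ≤ ∏ q ∈ n.primeFactors, (n.factorization q + 1) := by
        refine prod_le_prod' fun q hq => ?_
        have h1 := (Nat.prime_of_mem_primeFactors hq).dvd_iff_one_le_factorization hn |>.1
          (Nat.dvd_of_mem_primeFactors hq)
        omega

lemma tau_sum : ∃ C : ℝ, 0 < C ∧ ∀ y : ℕ, 2 ≤ y →
    ∑ p ∈ PY y, ((p - 1).divisors.card : ℝ) ≤ C * y := by
  obtain ⟨C, hC, hm⟩ := mean_one
  refine ⟨2 * (132 * (4 * C / Real.log 2)), by positivity, fun y hy => ?_⟩
  have hl2 : 0 < Real.log 2 := Real.log_pos (by norm_num)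
  have hy2 : (2 : ℝ) ≤ y := by exact_mod_cast hy
  have hly : Real.log 2 ≤ Real.log y := Real.log_le_log (by norm_num) hy2
  have hly0 : 0 < Real.log y := by linarith
  obtain ⟨s, hs⟩ : ∃ s, s = Nat.sqrt y := ⟨_, rfl⟩
  have h1 : ∑ p ∈ PY y, ((p - 1).divisors.card : ℝ) ≤
      ∑ p ∈ PY y, 2 * ∑ f ∈ Icc 1 s, (if f ∣ p - 1 then (1 : ℝ) else 0) := by
    refine sum_le_sum fun p hp => ?_
    rw [mem_PY] at hp
    have hp2 := hp.1.two_le
    have h2 := tau_le (p - 1) (by omega)
    have h3 : ((p - 1).divisors.filter (fun f => f * f ≤ p - 1)).card ≤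
        ((Icc 1 s).filter (fun f => f ∣ p - 1)).card := by
      apply card_le_card
      intro f hf
      rw [mem_filter, Nat.mem_divisors] at hf
      rw [mem_filter, mem_Icc]
      refine ⟨⟨Nat.pos_of_dvd_of_pos hf.1.1 (by omega), ?_⟩, hf.1.1⟩
      rw [hs, Nat.le_sqrt]
      omega
    rw [← sum_filter, sum_const, nsmul_eq_mul, mul_one]
    exact_mod_cast h2.trans (Nat.mul_le_mul_left 2 h3)
  have h2 : ∑ p ∈ PY y, 2 * ∑ f ∈ Icc 1 s, (if f ∣ p - 1 then (1 : ℝ) else 0) =
      2 * ∑ f ∈ Icc 1 s, (((PY y).filter (fun p : ℕ => f ∣ p - 1)).card : ℝ) := by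
    rw [← mul_sum, sum_comm]
    congr 1
    refine sum_congr rfl fun f _ => ?_
    rw [← sum_filter, sum_const, nsmul_eq_mul, mul_one]
  have h3 : ∑ f ∈ Icc 1 s, (((PY y).filter (fun p : ℕ => f ∣ p - 1)).card : ℝ) ≤
      132 * (y / Real.log y) * ∑ f ∈ Icc 1 s, (((f : ℝ) / f.totient) / f) := by
    rw [mul_sum]
    refine sum_le_sum fun f hf => ?_
    rw [mem_Icc] at hf
    refine bt_one f y hf.1 ?_ hy
    have e1 : f * f ≤ y := by
      rw [← Nat.le_sqrt, ← hs]; exact hf.2
    have e2 : f ≤ y := by nlinarith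
    calc f ^ 3 = f * f * f := by ring
      _ ≤ y * y := Nat.mul_le_mul e1 e2
      _ = y ^ 2 := by ring
  obtain ⟨n, hn⟩ : ∃ n, n = Nat.log 2 s + 1 := ⟨_, rfl⟩
  have h4 : ∑ f ∈ Icc 1 s, (((f : ℝ) / f.totient) / f) ≤ n * (2 * C) := by
    have h5 := dyadic (fun f => (f : ℝ) / f.totient) (fun f => by positivity) 1 le_rfl C n
      (fun Y hY _ => hm Y hY)
    refine le_trans ?_ h5
    refine sum_le_sum_of_subset_of_nonneg ?_ fun f _ _ => by positivity
    intro f hf
    rw [mem_Icc] at hf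
    rw [mem_Ico, mul_one]
    refine ⟨hf.1, ?_⟩
    have := Nat.lt_pow_succ_log_self (b := 2) (by norm_num) s
    rw [hn]
    exact lt_of_le_of_lt hf.2 this
  have h5 : (n : ℝ) * Real.log 2 ≤ 2 * Real.log y := by
    have e1 : s ≤ y := by rw [hs]; exact Nat.sqrt_le_self y
    have e2 : 2 ^ (Nat.log 2 s) ≤ y := by
      have : s ≠ 0 := by
        rw [hs]
        have : 0 < Nat.sqrt y := Nat.sqrt_pos.2 (by omega)
        omega
      exact (Nat.pow_log_le_self 2 this).trans e1
    have e3 : Real.log ((2 : ℝ) ^ (Nat.log 2 s)) ≤ Real.log y :=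
      Real.log_le_log (by positivity) (by exact_mod_cast e2)
    rw [Real.log_pow] at e3
    rw [hn]
    push_cast
    nlinarith
  have h6 : (n : ℝ) ≤ 2 * Real.log y / Real.log 2 := by
    rw [le_div_iff₀ hl2]; exact h5
  calc ∑ p ∈ PY y, ((p - 1).divisors.card : ℝ)
      ≤ 2 * (132 * (y / Real.log y) * (n * (2 * C))) := by
        refine h1.trans (h2.le.trans ?_)
        have : 0 ≤ 132 * ((y : ℝ) / Real.log y) := by positivity
        have := mul_le_mul_of_nonneg_left h4 this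
        linarith
    _ ≤ 2 * (132 * (y / Real.log y) * ((2 * Real.log y / Real.log 2) * (2 * C))) := by
        gcongr
    _ = 2 * (132 * (4 * C / Real.log 2)) * y := by
        field_simp
        ring

/-- many prime factors -/
lemma S2_bd : ∃ C : ℝ, 0 < C ∧ ∀ (z y : ℕ), 3 ≤ y →
    (((PY y).filter (fun p : ℕ => 3 / 2 * Real.log (Real.log y) < om z (p - 1))).card : ℝ) ≤
      C * (y / Real.log y) * Real.exp (-(3 / 100) * Real.log (Real.log y)) := by
  obtain ⟨C, hC, h⟩ := tau_sum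
  refine ⟨C, hC, fun z y hy => ?_⟩
  have hy3 : (3 : ℝ) ≤ y := by exact_mod_cast hy
  have hly : 1 < Real.log y := by
    rw [Real.lt_log_iff_exp_lt (by linarith)]
    have := Real.exp_one_lt_d9
    linarith
  obtain ⟨L, hL⟩ : ∃ L, L = Real.log (Real.log y) := ⟨_, rfl⟩
  have hL0 : 0 < L := by rw [hL]; exact Real.log_pos hly
  have hexpL : Real.exp L = Real.log y := by rw [hL, Real.exp_log (by linarith)]
  rw [← hL]
  have h1 : (((PY y).filter (fun p : ℕ => 3 / 2 * L < om z (p - 1))).card : ℝ) *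
      Real.exp (103 / 100 * L) ≤ C * y := by
    refine le_trans ?_ (h y (by omega))
    rw [← nsmul_eq_mul, ← sum_const]
    refine le_trans (sum_le_sum fun p hp => ?_) (sum_le_sum_of_subset_of_nonneg
      (filter_subset (fun p : ℕ => 3 / 2 * L < om z (p - 1)) (PY y)) fun p _ _ => Nat.cast_nonneg _)
    rw [mem_filter, mem_PY] at hp
    have hp2 := hp.1.1.two_le
    have h2 := two_pow_om_le z (p - 1) (by omega)
    have h3 : ((2 : ℝ) ^ (om z (p - 1))) ≤ ((p - 1).divisors.card : ℝ) := by exact_mod_cast h2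
    refine le_trans ?_ h3
    rw [← Real.rpow_natCast, Real.rpow_def_of_pos (by norm_num)]
    apply Real.exp_le_exp.2
    have h4 := Real.log_two_gt_d9
    have h5 : 3 / 2 * L ≤ om z (p - 1) := hp.2.le
    have h6 : Real.log 2 * (3 / 2 * L) ≤ Real.log 2 * om z (p - 1) :=
      mul_le_mul_of_nonneg_left h5 (by linarith)
    nlinarith
  have h2 : Real.exp (103 / 100 * L) = Real.log y * Real.exp (3 / 100 * L) := by
    rw [← hexpL, ← Real.exp_add]
    congr 1
    ring
  rw [h2] at h1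
  have h3 : Real.exp (-(3 / 100) * L) * Real.exp (3 / 100 * L) = 1 := by
    rw [← Real.exp_add]
    have : -(3 / 100) * L + 3 / 100 * L = 0 := by ring
    rw [this, Real.exp_zero]
  have h4 := Real.exp_pos (-(3 / 100) * L)
  have hlogpos : 0 < Real.log y := by linarith
  have h5 := mul_le_mul_of_nonneg_right h1 h4.le
  have h6 : (((PY y).filter (fun p : ℕ => 3 / 2 * L < om z (p - 1))).card : ℝ) * Real.log y ≤
      C * y * Real.exp (-(3 / 100) * L) := by
    calc _ = (((PY y).filter (fun p : ℕ => 3 / 2 * L < om z (p - 1))).card : ℝ) * Real.log y *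
          (Real.exp (-(3 / 100) * L) * Real.exp (3 / 100 * L)) := by rw [h3, mul_one]
      _ = _ := by ring
      _ ≤ _ := h5
  rw [← le_div_iff₀ hlogpos] at h6
  refine h6.trans (le_of_eq ?_)
  ring

open Classical in
/-- square factors -/
lemma S3_bd (z y : ℕ) (hz : 1 ≤ z) :
    (((PY y).filter (fun p : ℕ => ∃ q, z < q ∧ q * q ∣ p - 1)).card : ℝ) ≤ y / z := by
  have h1 : ((PY y).filter (fun p : ℕ => ∃ q, z < q ∧ q * q ∣ p - 1)).card ≤
      ∑ q ∈ Ioc z y, y / (q * q) := by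
    calc _ ≤ ((Ioc z y).biUnion (fun q => (Ioc 0 y).filter (fun m => q * q ∣ m))).card := by
          apply card_le_card_of_injOn (fun p => p - 1)
          · intro p hp
            rw [mem_coe, mem_filter, mem_PY] at hp
            obtain ⟨⟨hpp, hpy⟩, q, hzq, hq⟩ := hp
            have hp2 := hpp.two_le
            rw [mem_coe, mem_biUnion]
            beta_reduce
            refine ⟨q, ?_, ?_⟩
            · rw [mem_Ioc]
              refine ⟨hzq, ?_⟩
              have := Nat.le_of_dvd (by omega) hq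
              have := Nat.le_mul_self q
              omega
            · rw [mem_filter, mem_Ioc]
              exact ⟨⟨by omega, by omega⟩, hq⟩
          · intro p hp q hq h
            rw [mem_coe, mem_filter, mem_PY] at hp hq
            have := hp.1.1.two_le
            have := hq.1.1.two_le
            have h' : p - 1 = q - 1 := h
            omega
      _ ≤ ∑ q ∈ Ioc z y, ((Ioc 0 y).filter (fun m => q * q ∣ m)).card := card_biUnion_le
      _ = _ := by
          refine sum_congr rfl fun q _ => ?_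
          rw [Nat.Ioc_filter_dvd_card_eq_div]
  have h2 : ((∑ q ∈ Ioc z y, y / (q * q) : ℕ) : ℝ) ≤ y * ∑ q ∈ Ioc z y, ((q : ℝ) ^ 2)⁻¹ := by
    push_cast
    rw [mul_sum]
    refine sum_le_sum fun q _ => ?_
    refine (Nat.cast_div_le).trans (le_of_eq ?_)
    push_cast
    rw [div_eq_mul_inv, sq]
  have hz0 : (0 : ℝ) < z := by exact_mod_cast hz
  have h3 : ∑ q ∈ Ioc z y, ((q : ℝ) ^ 2)⁻¹ ≤ (z : ℝ)⁻¹ := by
    rcases Nat.lt_or_ge y z with h | h
    · rw [Ioc_eq_empty (by omega), sum_empty]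
      positivity
    · have := sum_Ioc_inv_sq_le_sub (α := ℝ) (k := z) (n := y) (by omega) h
      have h4 : (0 : ℝ) ≤ (y : ℝ)⁻¹ := by positivity
      linarith
  calc (((PY y).filter (fun p : ℕ => ∃ q, z < q ∧ q * q ∣ p - 1)).card : ℝ)
      ≤ ((∑ q ∈ Ioc z y, y / (q * q) : ℕ) : ℝ) := by exact_mod_cast h1
    _ ≤ y * (z : ℝ)⁻¹ := h2.trans (mul_le_mul_of_nonneg_left h3 (Nat.cast_nonneg y))
    _ = y / z := by rw [div_eq_mul_inv]

/-- a divisor with few prime factors in a short logarithmic interval -/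
lemma S4_bd : ∃ C : ℝ, 0 < C ∧ ∀ (z y A n : ℕ), 3 ≤ y → 3 ≤ z → z ≤ A → y ≤ A ^ 4 →
    (2 ^ n * A) ^ 3 ≤ y ^ 2 →
    (((PY y).filter (fun p : ℕ => ∃ f ∈ Ico A (2 ^ n * A), f ∣ p - 1 ∧
      (om z f : ℝ) ≤ 3 / 4 * Real.log (Real.log y))).card : ℝ) ≤
      C * (y / Real.log y) * n *
        Real.exp (-(1 / 32) * Real.log (Real.log y) + Real.log (Real.log z)) := by
  obtain ⟨C, hC, hm⟩ := mean_t
  refine ⟨132 * (2 * (C * Real.exp (Real.log 4))), by positivity, fun z y A n hy hz hzA hA hn => ?_⟩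
  have hy3 : (3 : ℝ) ≤ y := by exact_mod_cast hy
  have hly : 1 < Real.log y := by
    rw [Real.lt_log_iff_exp_lt (by linarith)]
    have := Real.exp_one_lt_d9
    linarith
  have hlz : 1 < Real.log z := by
    have hz3 : (3 : ℝ) ≤ z := by exact_mod_cast hz
    rw [Real.lt_log_iff_exp_lt (by linarith)]
    have := Real.exp_one_lt_d9
    linarith
  obtain ⟨L, hL⟩ : ∃ L, L = Real.log (Real.log y) := ⟨_, rfl⟩
  obtain ⟨l, hl⟩ : ∃ l, l = Real.log (Real.log z) := ⟨_, rfl⟩
  have hL0 : 0 < L := by rw [hL]; exact Real.log_pos hly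
  have hl0 : 0 < l := by rw [hl]; exact Real.log_pos hlz
  rw [← hL, ← hl]
  obtain ⟨t, ht⟩ : ∃ t : ℝ, t = 3 / 4 := ⟨_, rfl⟩
  have ht0 : 0 < t := by rw [ht]; norm_num
  have ht1 : t ≤ 1 := by rw [ht]; norm_num
  -- the mean value bound
  obtain ⟨M, hM⟩ : ∃ M : ℝ, M = C * Real.exp (Real.log 4) * Real.exp (-(1 / 4) * L + l) := ⟨_, rfl⟩
  have hmean : ∀ Y, A ≤ Y → Y ≤ 2 ^ n * A → ∑ m ∈ Icc 1 Y, hf t z m ≤ M * Y := by
    intro Y hY _
    refine (hm t z Y ht0.le ht1 hz (hzA.trans hY)).trans ?_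
    have hY0 : 3 ≤ Y := hz.trans (hzA.trans hY)
    have hYr : (3 : ℝ) ≤ Y := by exact_mod_cast hY0
    have e1 : Real.log y / 4 ≤ Real.log Y := by
      have f1 : (y : ℝ) ≤ (Y : ℝ) ^ 4 := by
        exact_mod_cast hA.trans (Nat.pow_le_pow_left hY 4)
      have f2 := Real.log_le_log (by linarith) f1
      rw [Real.log_pow] at f2
      push_cast at f2
      linarith
    have e2 : L - Real.log 4 ≤ Real.log (Real.log Y) := by
      rw [hL, ← Real.log_div (by linarith) (by norm_num)]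
      exact Real.log_le_log (by linarith) e1
    have hl4 : 0 < Real.log 4 := Real.log_pos (by norm_num)
    have e3 : -(1 - t) * (Real.log (Real.log Y) - Real.log (Real.log z)) ≤
        Real.log 4 + (-(1 / 4) * L + l) := by
      rw [← hl, ht]
      linarith
    calc C * Y * Real.exp (-(1 - t) * (Real.log (Real.log Y) - Real.log (Real.log z)))
        ≤ C * Y * Real.exp (Real.log 4 + (-(1 / 4) * L + l)) := by gcongr
      _ = M * Y := by rw [Real.exp_add, hM]; ring
  have hA1 : 1 ≤ A := by omega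
  have hdy := dyadic (hf t z) (hf_nonneg ht0.le z) A hA1 M n hmean
  -- the union bound
  obtain ⟨J, hJ⟩ : ∃ J : Finset ℕ, J = (Ico A (2 ^ n * A)).filter (fun f => (om z f : ℝ) ≤ 3 / 4 * L) :=
    ⟨_, rfl⟩
  have h1 : ((PY y).filter (fun p : ℕ => ∃ f ∈ Ico A (2 ^ n * A), f ∣ p - 1 ∧
      (om z f : ℝ) ≤ 3 / 4 * L)).card ≤ ∑ f ∈ J, ((PY y).filter (fun p : ℕ => f ∣ p - 1)).card := by
    refine (card_le_card ?_).trans card_biUnion_le
    intro p hp
    rw [mem_filter] at hp
    obtain ⟨hp1, f, hf1, hf2, hf3⟩ := hp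
    rw [mem_biUnion]
    refine ⟨f, ?_, ?_⟩
    · rw [hJ, mem_filter]; exact ⟨hf1, hf3⟩
    · rw [mem_filter]; exact ⟨hp1, hf2⟩
  have hlog43 : -Real.log t ≤ 7 / 24 := by
    rw [ht, ← Real.log_inv]
    rw [Real.log_le_iff_le_exp (by norm_num)]
    have := Real.quadratic_le_exp_of_nonneg (x := (7 : ℝ) / 24) (by norm_num)
    refine le_trans ?_ this
    norm_num
  have h2 : ∀ f ∈ J, (((PY y).filter (fun p : ℕ => f ∣ p - 1)).card : ℝ) ≤
      132 * (y / Real.log y) * Real.exp (7 / 32 * L) * (hf t z f / f) := by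
    intro f hfJ
    rw [hJ, mem_filter, mem_Ico] at hfJ
    obtain ⟨⟨hf1, hf2⟩, hf3⟩ := hfJ
    have hf0 : 1 ≤ f := by omega
    have e1 := bt_one f y hf0 ((Nat.pow_le_pow_left hf2.le 3).trans hn) (by omega)
    refine e1.trans ?_
    rw [hf_eq t z f (by omega)]
    have e2 : 1 ≤ Real.exp (7 / 32 * L) * t ^ (om z f) := by
      have e3 : t ^ (om z f) = Real.exp (Real.log t * om z f) := by
        rw [← Real.rpow_natCast, Real.rpow_def_of_pos ht0]
      rw [e3, ← Real.exp_add]
      apply Real.one_le_exp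
      have e4 : -Real.log t * om z f ≤ 7 / 24 * (3 / 4 * L) := by
        have e5 : 0 ≤ -Real.log t := by
          rw [neg_nonneg]
          exact Real.log_nonpos ht0.le ht1
        exact mul_le_mul hlog43 hf3 (Nat.cast_nonneg _) (by norm_num)
      nlinarith
    have e6 : 0 ≤ 132 * ((y : ℝ) / Real.log y) * (((f : ℝ) / f.totient) / f) := by positivity
    calc 132 * ((y : ℝ) / Real.log y) * (((f : ℝ) / f.totient) / f)
        ≤ 132 * ((y : ℝ) / Real.log y) * (((f : ℝ) / f.totient) / f) *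
          (Real.exp (7 / 32 * L) * t ^ (om z f)) := le_mul_of_one_le_right e6 e2
      _ = _ := by ring
  have h3 : (((PY y).filter (fun p : ℕ => ∃ f ∈ Ico A (2 ^ n * A), f ∣ p - 1 ∧
      (om z f : ℝ) ≤ 3 / 4 * L)).card : ℝ) ≤
      132 * (y / Real.log y) * Real.exp (7 / 32 * L) * (n * (2 * M)) := by
    calc _ ≤ ((∑ f ∈ J, ((PY y).filter (fun p : ℕ => f ∣ p - 1)).card : ℕ) : ℝ) := by
          exact_mod_cast h1
      _ = ∑ f ∈ J, (((PY y).filter (fun p : ℕ => f ∣ p - 1)).card : ℝ) := by push_cast; rfl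
      _ ≤ ∑ f ∈ J, 132 * (y / Real.log y) * Real.exp (7 / 32 * L) * (hf t z f / f) := sum_le_sum h2
      _ = 132 * (y / Real.log y) * Real.exp (7 / 32 * L) * ∑ f ∈ J, (hf t z f / f) := by
          rw [mul_sum]
      _ ≤ 132 * (y / Real.log y) * Real.exp (7 / 32 * L) * ∑ f ∈ Ico A (2 ^ n * A), (hf t z f / f) := by
          apply mul_le_mul_of_nonneg_left _ (by positivity)
          apply sum_le_sum_of_subset_of_nonneg
          · rw [hJ]; exact filter_subset _ _
          · intro f _ _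
            exact div_nonneg (hf_nonneg ht0.le z f) (Nat.cast_nonneg f)
      _ ≤ _ := mul_le_mul_of_nonneg_left hdy (by positivity)
  refine h3.trans (le_of_eq ?_)
  rw [hM]
  have e7 : Real.exp (-(1 / 32) * L + l) = Real.exp (7 / 32 * L) * Real.exp (-(1 / 4) * L + l) := by
    rw [← Real.exp_add]
    congr 1
    ring
  rw [e7]
  ring

end Pool.Agent.U376.AK
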