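import Mathlib
import Pool.Agent.U376.AK.EM2

set_option autoImplicit false

/-! Few primes `p ≤ y` such that `p - 1` has a divisor close to `√y` (Erdős): assembly. -/

namespace Pool.Agent.U376.AK

open Finset Filter Topology

lemma om_mul (z d e : ℕ) (hd : d ≠ 0) (he : e ≠ 0) (h : ¬ ∃ q, z < q ∧ q * q ∣ d * e) :
    om z d + om z e ≤ om z (d * e) := by
  classical
  unfold om
  have hdisj : Disjoint (d.primeFactors.filter (fun q => z < q))
      (e.primeFactors.filter (fun q => z < q)) := by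
    rw [disjoint_left]
    intro q h1 h2
    rw [mem_filter] at h1 h2
    exact h ⟨q, h1.2, mul_dvd_mul (Nat.dvd_of_mem_primeFactors h1.1)
      (Nat.dvd_of_mem_primeFactors h2.1)⟩
  rw [← card_union_of_disjoint hdisj, ← filter_union, ← Nat.primeFactors_mul hd he]

lemma ev_log (c : ℝ) (k : ℕ) : ∀ᶠ y : ℕ in atTop, c * (Real.log y) ^ k ≤ √(y : ℝ) := by
  have h1 : (fun x : ℝ => Real.log x ^ k) =o[atTop] fun x : ℝ => x ^ (1 / 2 : ℝ) := by
    have := isLittleO_log_rpow_rpow_atTop (k : ℝ) (by norm_num : (0 : ℝ) < 1 / 2)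
    refine this.congr' ?_ EventuallyEq.rfl
    filter_upwards with x
    rw [Real.rpow_natCast]
  have h2 := h1.bound (show 0 < 1 / (|c| + 1) by positivity)
  have h3 := tendsto_natCast_atTop_atTop.eventually h2
  filter_upwards [h3, eventually_ge_atTop 1] with y hy hy1
  have hy1' : (1 : ℝ) ≤ y := by exact_mod_cast hy1
  rw [Real.norm_of_nonneg (pow_nonneg (Real.log_nonneg hy1') k), Real.norm_of_nonneg (by positivity),
    ← Real.sqrt_eq_rpow, one_div, inv_mul_eq_div, le_div_iff₀ (by positivity)] at hy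
  have h4 : 0 ≤ Real.log y ^ k := pow_nonneg (Real.log_nonneg hy1') k
  have h5 := le_abs_self c
  nlinarith

lemma L_tendsto : Tendsto (fun y : ℕ => Real.log (Real.log (y : ℝ))) atTop atTop :=
  Real.tendsto_log_atTop.comp (Real.tendsto_log_atTop.comp tendsto_natCast_atTop_atTop)

lemma phi_lim (C₂ C₄ W : ℝ) : Tendsto (fun L : ℝ => 2 * Real.exp (-L) + C₂ * Real.exp (-(3 / 100) * L) +
    C₄ * (4 * W * L + 2) * (3 * L) * Real.exp (-(1 / 32) * L)) atTop (𝓝 0) := by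
  have g : ∀ a : ℝ, 0 < a → ∀ n : ℕ, Tendsto (fun L : ℝ => L ^ n * Real.exp (-a * L)) atTop (𝓝 0) := by
    intro a ha n
    have h1 := Real.tendsto_pow_mul_exp_neg_atTop_nhds_zero n
    have h2 : Tendsto (fun L : ℝ => a * L) atTop atTop := tendsto_id.const_mul_atTop ha
    have h3 := (h1.comp h2).const_mul ((a ^ n)⁻¹)
    rw [mul_zero] at h3
    refine h3.congr fun L => ?_
    simp only [Function.comp]
    rw [mul_pow]
    have : a ^ n ≠ 0 := by positivity
    field_simp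
  have e1 := (g 1 one_pos 0).const_mul 2
  have e2 := (g (3 / 100) (by norm_num) 0).const_mul C₂
  have e3 := (g (1 / 32) (by norm_num) 2).const_mul (12 * C₄ * W)
  have e4 := (g (1 / 32) (by norm_num) 1).const_mul (6 * C₄)
  have e5 := ((e1.add e2).add e3).add e4
  simp only [mul_zero, add_zero] at e5
  refine e5.congr fun L => ?_
  ring_nf

open Classical in
theorem em (C : ℕ) (ε : ℝ) (hε : 0 < ε) : ∃ Y : ℕ, ∀ y : ℕ, Y ≤ y →
    (((PY y).filter (fun p : ℕ => ∃ d : ℕ, d ∣ p - 1 ∧ √(y : ℝ) ≤ d * (Real.log y) ^ C ∧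
      (d : ℝ) ≤ √(y : ℝ) * (Real.log y) ^ C)).card : ℝ) ≤ ε * (y / Real.log y) := by
  obtain ⟨C₂, hC₂, h2⟩ := S2_bd
  obtain ⟨C₄, hC₄, h4⟩ := S4_bd
  obtain ⟨W, hW⟩ : ∃ W, W = C + 3 := ⟨_, rfl⟩
  have evΦ := (phi_lim C₂ C₄ W).eventually (ge_mem_nhds hε)
  have ev := (L_tendsto.eventually evΦ).and ((L_tendsto.eventually_ge_atTop 2).and
    ((ev_log 512 (3 * W)).and ((ev_log 1 (4 * W)).and ((ev_log 2 (W + 2)).and
      (eventually_ge_atTop 16)))))
  obtain ⟨Y, hY⟩ := eventually_atTop.1 ev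
  refine ⟨Y, fun y hy => ?_⟩
  obtain ⟨hΦ, hL2, h512, hlog4, hlog2, hy16⟩ := hY y hy
  obtain ⟨L, hL⟩ : ∃ L, L = Real.log (Real.log y) := ⟨_, rfl⟩
  obtain ⟨l, hl⟩ : ∃ l, l = Real.log y := ⟨_, rfl⟩
  rw [← hL] at hΦ hL2
  rw [← hl] at h512 hlog4 hlog2 ⊢
  have hyr : (16 : ℝ) ≤ y := by exact_mod_cast hy16
  have hy0 : (0 : ℝ) < y := by linarith
  have hl0 : 0 < l := by rw [hl]; exact Real.log_pos (by linarith)
  have hlL : Real.exp L = l := by rw [hL, ← hl, Real.exp_log hl0]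
  have hl4 : 4 ≤ l := by
    rw [← hlL]
    have h1 : Real.exp 2 ≤ Real.exp L := Real.exp_le_exp.2 hL2
    have h2 := Real.quadratic_le_exp_of_nonneg (x := (2 : ℝ)) (by norm_num)
    linarith
  have hsq : √(y : ℝ) * √(y : ℝ) = y := Real.mul_self_sqrt hy0.le
  obtain ⟨s, hs⟩ : ∃ s, s = √(y : ℝ) := ⟨_, rfl⟩
  have hs0 : 0 < s := by rw [hs]; exact Real.sqrt_pos.2 hy0
  rw [← hs] at hsq h512 hlog4 hlog2 ⊢
  have hs1 : 1 ≤ s := by nlinarith
  have hlW : 0 < l ^ W := by positivity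
  -- the parameters
  obtain ⟨z, hz⟩ : ∃ z, z = ⌈l ^ 2⌉₊ := ⟨_, rfl⟩
  have hz1 : l ^ 2 ≤ z := by rw [hz]; exact Nat.le_ceil _
  have hz2 : (z : ℝ) < l ^ 2 + 1 := by rw [hz]; exact Nat.ceil_lt_add_one (by positivity)
  have hz3 : 3 ≤ z := by
    have : (3 : ℝ) ≤ z := by nlinarith
    exact_mod_cast this
  obtain ⟨A, hA⟩ : ∃ A, A = ⌈s / l ^ W⌉₊ := ⟨_, rfl⟩
  have hA1 : s / l ^ W ≤ A := by rw [hA]; exact Nat.le_ceil _
  have hA2 : (A : ℝ) < s / l ^ W + 1 := by rw [hA]; exact Nat.ceil_lt_add_one (by positivity)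
  have hbig : 2 * l ^ 2 ≤ s / l ^ W := by
    rw [le_div_iff₀ hlW]
    calc 2 * l ^ 2 * l ^ W = 2 * l ^ (W + 2) := by ring
      _ ≤ s := hlog2
  have hzA : z ≤ A := by
    have : (z : ℝ) ≤ A := by nlinarith
    exact_mod_cast this
  have hA4 : y ≤ A ^ 4 := by
    have h1 : (y : ℝ) ≤ (A : ℝ) ^ 4 := by
      calc (y : ℝ) = s ^ 2 := by rw [sq, hsq]
        _ ≤ (s / l ^ W) ^ 4 := by
            rw [div_pow, le_div_iff₀ (by positivity)]
            have e1 : (l ^ W) ^ 4 = l ^ (4 * W) := by rw [← pow_mul]; congr 1; ring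
            rw [e1]
            have e2 : l ^ (4 * W) ≤ s := by linarith
            calc s ^ 2 * l ^ (4 * W) ≤ s ^ 2 * s := by gcongr
              _ ≤ s ^ 2 * s * s := le_mul_of_one_le_right (by positivity) hs1
              _ = s ^ 4 := by ring
        _ ≤ (A : ℝ) ^ 4 := by gcongr
    exact_mod_cast h1
  have hl2 : 0 < Real.log 2 := Real.log_pos (by norm_num)
  obtain ⟨n, hn⟩ : ∃ n, n = ⌈2 * W * L / Real.log 2⌉₊ + 1 := ⟨_, rfl⟩
  have hn1 : 2 * W * L / Real.log 2 + 1 ≤ n := by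
    rw [hn]; push_cast
    have := Nat.le_ceil (2 * W * L / Real.log 2)
    linarith
  have hn2 : (n : ℝ) ≤ 2 * W * L / Real.log 2 + 2 := by
    rw [hn]; push_cast
    have := Nat.ceil_lt_add_one (show 0 ≤ 2 * W * L / Real.log 2 by positivity)
    linarith
  have hpow : ∀ x : ℝ, Real.exp (Real.log 2 * x) = (2 : ℝ) ^ x := fun x => by
    rw [Real.rpow_def_of_pos (by norm_num)]
  have hexp2W : Real.exp (2 * W * L) = l ^ (2 * W) := by
    rw [← hlL, ← Real.exp_nat_mul]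
    congr 1
    push_cast
    ring
  have h2n : (2 : ℝ) ^ n = Real.exp (Real.log 2 * n) := by rw [hpow, Real.rpow_natCast]
  have hn3 : 2 * l ^ (2 * W) ≤ (2 : ℝ) ^ n := by
    rw [h2n, ← hexp2W]
    have e1 : (2 : ℝ) = Real.exp (Real.log 2) := (Real.exp_log (by norm_num)).symm
    have e2 : 2 * Real.exp (2 * W * L) = Real.exp (Real.log 2 + 2 * W * L) := by
      rw [Real.exp_add, ← e1]
    rw [e2]
    apply Real.exp_le_exp.2
    have e3 := mul_le_mul_of_nonneg_left hn1 hl2.le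
    have e4 : Real.log 2 * (2 * W * L / Real.log 2 + 1) = 2 * W * L + Real.log 2 := by
      field_simp
    linarith
  have hn4 : (2 : ℝ) ^ n ≤ 4 * l ^ (2 * W) := by
    rw [h2n, ← hexp2W]
    have e1 : (4 : ℝ) = Real.exp (2 * Real.log 2) := by
      rw [two_mul, Real.exp_add, Real.exp_log (by norm_num)]; norm_num
    have e2 : 4 * Real.exp (2 * W * L) = Real.exp (2 * Real.log 2 + 2 * W * L) := by
      rw [Real.exp_add, ← e1]
    rw [e2]
    apply Real.exp_le_exp.2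
    have e3 := mul_le_mul_of_nonneg_left hn2 hl2.le
    have e4 : Real.log 2 * (2 * W * L / Real.log 2 + 2) = 2 * W * L + 2 * Real.log 2 := by
      field_simp
    linarith
  have hnA1 : 2 * (s * l ^ W) ≤ ((2 ^ n * A : ℕ) : ℝ) := by
    push_cast
    calc 2 * (s * l ^ W) = (2 * l ^ (2 * W)) * (s / l ^ W) := by
          rw [two_mul W, pow_add]; field_simp
      _ ≤ (2 : ℝ) ^ n * A := by gcongr
  have hnA2 : ((2 ^ n * A : ℕ) : ℝ) ≤ 8 * (s * l ^ W) := by
    push_cast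
    have e1 : (A : ℝ) ≤ 2 * (s / l ^ W) := by nlinarith
    calc (2 : ℝ) ^ n * A ≤ (4 * l ^ (2 * W)) * (2 * (s / l ^ W)) := by gcongr
      _ = 8 * (s * l ^ W) := by
          rw [two_mul W, pow_add]; field_simp; ring
  have hcube : (2 ^ n * A) ^ 3 ≤ y ^ 2 := by
    have h1 : (((2 ^ n * A : ℕ) : ℝ)) ^ 3 ≤ (y : ℝ) ^ 2 := by
      calc (((2 ^ n * A : ℕ) : ℝ)) ^ 3 ≤ (8 * (s * l ^ W)) ^ 3 := by gcongr
        _ = s ^ 3 * (512 * l ^ (3 * W)) := by
            rw [show 3 * W = W * 3 by ring, pow_mul]; ring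
        _ ≤ s ^ 3 * s := by gcongr
        _ = (s * s) ^ 2 := by ring
        _ = (y : ℝ) ^ 2 := by rw [hsq]
    exact_mod_cast h1
  -- the four sets
  have b2 := h2 z y (by omega)
  have b3 := S3_bd z y (by omega)
  have b4 := h4 z y A n (by omega) hz3 hzA hA4 hcube
  rw [← hL, ← hl] at b2 b4
  have hsub : (PY y).filter (fun p : ℕ => ∃ d : ℕ, d ∣ p - 1 ∧ s ≤ d * l ^ C ∧ (d : ℝ) ≤ s * l ^ C) ⊆
      (((PY y).filter (fun p : ℕ => (p : ℝ) ≤ y / l ^ 2)) ∪
      ((PY y).filter (fun p : ℕ => 3 / 2 * L < om z (p - 1)))) ∪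
      (((PY y).filter (fun p : ℕ => ∃ q, z < q ∧ q * q ∣ p - 1)) ∪
      ((PY y).filter (fun p : ℕ => ∃ f ∈ Ico A (2 ^ n * A), f ∣ p - 1 ∧
      (om z f : ℝ) ≤ 3 / 4 * L))) := by
    intro p hp
    rw [mem_filter] at hp
    obtain ⟨hpP, d, ⟨e, hde⟩, hd1, hd2⟩ := hp
    have hpP' := mem_PY.1 hpP
    have hp2 := hpP'.1.two_le
    rw [mem_union, mem_union, mem_union, mem_filter, mem_filter, mem_filter, mem_filter]
    by_cases c1 : (p : ℝ) ≤ y / l ^ 2
    · exact Or.inl (Or.inl ⟨hpP, c1⟩)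
    by_cases c2 : 3 / 2 * L < om z (p - 1)
    · exact Or.inl (Or.inr ⟨hpP, c2⟩)
    by_cases c3 : ∃ q, z < q ∧ q * q ∣ p - 1
    · exact Or.inr (Or.inl ⟨hpP, c3⟩)
    refine Or.inr (Or.inr ⟨hpP, ?_⟩)
    push Not at c1 c2
    have hd0 : d ≠ 0 := by rintro rfl; omega
    have he0 : e ≠ 0 := by rintro rfl; omega
    rw [hde] at c2 c3
    have hom := om_mul z d e hd0 he0 c3
    have hom' : (om z d : ℝ) + om z e ≤ 3 / 2 * L := by
      have : ((om z d + om z e : ℕ) : ℝ) ≤ om z (d * e) := by exact_mod_cast hom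
      push_cast at this
      linarith
    have hlC : l ^ C ≤ l ^ W := pow_le_pow_right₀ (by linarith) (by omega)
    have hlC0 : 0 < l ^ C := by positivity
    have hdr : (0 : ℝ) < d := by exact_mod_cast Nat.pos_of_ne_zero hd0
    have her : (0 : ℝ) < e := by exact_mod_cast Nat.pos_of_ne_zero he0
    have hder : (d : ℝ) * e = (p : ℝ) - 1 := by
      have : ((p - 1 : ℕ) : ℝ) = (p : ℝ) - 1 := by rw [Nat.cast_sub (by omega)]; simp
      rw [← this, hde]; push_cast; ring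
    have hpy : (p : ℝ) ≤ y := by exact_mod_cast hpP'.2
    have mem1 : ∀ f : ℕ, s ≤ f * l ^ W → (f : ℝ) ≤ s * l ^ C → f ∈ Ico A (2 ^ n * A) := by
      intro f hf1 hf2
      rw [mem_Ico]
      constructor
      · rw [hA, Nat.ceil_le, div_le_iff₀ hlW]
        exact hf1
      · have : (f : ℝ) < ((2 ^ n * A : ℕ) : ℝ) := by
          have e1 : s * l ^ C ≤ s * l ^ W := by gcongr
          have e2 : 0 < s * l ^ W := by positivity
          linarith
        exact_mod_cast this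
    have md : d ∈ Ico A (2 ^ n * A) := by
      refine mem1 d (hd1.trans ?_) hd2
      gcongr
    have me : e ∈ Ico A (2 ^ n * A) := by
      refine mem1 e ?_ ?_
      · have p2 : (2 : ℝ) ≤ p := by exact_mod_cast hp2
        have c1' : (y : ℝ) < p * l ^ 2 := by rwa [div_lt_iff₀ (by positivity)] at c1
        have e1 : s * s ≤ (2 * (d * e)) * l ^ 2 := by
          rw [hsq, hder]
          refine c1'.le.trans (mul_le_mul_of_nonneg_right (by linarith) (sq_nonneg l))
        have e2 : s * s ≤ s * (e * l ^ W) := by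
          calc s * s ≤ (2 * (d * e)) * l ^ 2 := e1
            _ ≤ (2 * ((s * l ^ C) * e)) * l ^ 2 := by gcongr
            _ = s * (e * (2 * l ^ (C + 2))) := by ring
            _ ≤ s * (e * l ^ W) := by
                have : 2 * l ^ (C + 2) ≤ l ^ W := by
                  rw [hW, show C + 3 = (C + 2) + 1 by ring, pow_succ l (C + 2), mul_comm]
                  gcongr
                  linarith
                gcongr
        exact le_of_mul_le_mul_left e2 hs0
      · have e1 : s * e ≤ (d * l ^ C) * e := by gcongr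
        have e2 : (d : ℝ) * e ≤ y := by rw [hder]; linarith
        have e3 : s * e ≤ s * (s * l ^ C) := by
          calc s * e ≤ (d * l ^ C) * e := e1
            _ = (d * e) * l ^ C := by ring
            _ ≤ y * l ^ C := by gcongr
            _ = s * (s * l ^ C) := by rw [← hsq]; ring
        exact le_of_mul_le_mul_left e3 hs0
    by_cases c4 : (om z d : ℝ) ≤ 3 / 4 * L
    · exact ⟨d, md, ⟨e, hde⟩, c4⟩
    · push Not at c4
      exact ⟨e, me, ⟨d, by rw [hde]; ring⟩, by linarith⟩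
  have b1 : (((PY y).filter (fun p : ℕ => (p : ℝ) ≤ y / l ^ 2)).card : ℝ) ≤ y / l ^ 2 := by
    have h1 : ((PY y).filter (fun p : ℕ => (p : ℝ) ≤ y / l ^ 2)).card ≤ ⌊(y : ℝ) / l ^ 2⌋₊ := by
      rw [← Nat.card_Icc 1 ⌊(y : ℝ) / l ^ 2⌋₊ |>.trans (Nat.add_sub_cancel _ 1)]
      apply card_le_card
      intro p hp
      rw [mem_filter, mem_PY] at hp
      rw [mem_Icc]
      exact ⟨hp.1.1.one_le, Nat.le_floor hp.2⟩
    calc (((PY y).filter (fun p : ℕ => (p : ℝ) ≤ y / l ^ 2)).card : ℝ)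
        ≤ (⌊(y : ℝ) / l ^ 2⌋₊ : ℝ) := by exact_mod_cast h1
      _ ≤ _ := Nat.floor_le (by positivity)
  have hcard : (((PY y).filter (fun p : ℕ => ∃ d : ℕ, d ∣ p - 1 ∧ s ≤ d * l ^ C ∧
      (d : ℝ) ≤ s * l ^ C)).card : ℝ) ≤ y / l ^ 2 + C₂ * (y / l) * Real.exp (-(3 / 100) * L) +
      (y / z + C₄ * (y / l) * n * Real.exp (-(1 / 32) * L + Real.log (Real.log z))) := by
    have h1 := (card_le_card hsub).trans ((card_union_le _ _).trans
      (add_le_add (card_union_le _ _) (card_union_le _ _)))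
    have h1' : (((PY y).filter (fun p : ℕ => ∃ d : ℕ, d ∣ p - 1 ∧ s ≤ d * l ^ C ∧
      (d : ℝ) ≤ s * l ^ C)).card : ℝ) ≤ (((((PY y).filter (fun p : ℕ => (p : ℝ) ≤ y / l ^ 2)).card +
      ((PY y).filter (fun p : ℕ => 3 / 2 * L < om z (p - 1))).card) +
      (((PY y).filter (fun p : ℕ => ∃ q, z < q ∧ q * q ∣ p - 1)).card +
      ((PY y).filter (fun p : ℕ => ∃ f ∈ Ico A (2 ^ n * A), f ∣ p - 1 ∧
      (om z f : ℝ) ≤ 3 / 4 * L)).card) : ℕ) : ℝ) := by exact_mod_cast h1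
    refine h1'.trans ?_
    push_cast
    refine add_le_add (add_le_add b1 b2) (add_le_add b3 ?_)
    convert b4 using 3
  refine hcard.trans ?_
  -- final estimate
  have hexpL : Real.exp (-L) = 1 / l := by rw [Real.exp_neg, hlL, one_div]
  have f1 : (y : ℝ) / l ^ 2 = (y / l) * Real.exp (-L) := by
    rw [hexpL]; field_simp
  have f2 : (y : ℝ) / z ≤ (y / l) * Real.exp (-L) := by
    rw [← f1]
    gcongr
  have hlz : 1 < Real.log z := by
    have hz3' : (3 : ℝ) ≤ z := by exact_mod_cast hz3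
    rw [Real.lt_log_iff_exp_lt (by linarith)]
    have := Real.exp_one_lt_d9
    linarith
  have f3 : Real.log z ≤ 3 * L := by
    have e1 : (z : ℝ) ≤ l ^ 3 := by nlinarith
    have hz0 : (0 : ℝ) < z := by exact_mod_cast (by omega : 0 < z)
    have e2 := Real.log_le_log hz0 e1
    rw [Real.log_pow, hl] at e2
    push_cast at e2
    rw [hL]
    exact e2
  have f4 : Real.exp (-(1 / 32) * L + Real.log (Real.log z)) ≤ Real.exp (-(1 / 32) * L) * (3 * L) := by
    rw [Real.exp_add, Real.exp_log (by linarith)]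
    gcongr
  have f5 : (n : ℝ) ≤ 4 * W * L + 2 := by
    refine hn2.trans ?_
    have e1 : 2 * W * L / Real.log 2 ≤ 4 * W * L := by
      rw [div_le_iff₀ hl2]
      have e2 := Real.log_two_gt_d9
      have e3 : 0 ≤ (W : ℝ) * L := by positivity
      nlinarith
    linarith
  have hyl : 0 < (y : ℝ) / l := by positivity
  calc y / l ^ 2 + C₂ * (y / l) * Real.exp (-(3 / 100) * L) +
      (y / z + C₄ * (y / l) * n * Real.exp (-(1 / 32) * L + Real.log (Real.log z)))
      ≤ (y / l) * Real.exp (-L) + C₂ * (y / l) * Real.exp (-(3 / 100) * L) +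
      ((y / l) * Real.exp (-L) + C₄ * (y / l) * (4 * W * L + 2) * (Real.exp (-(1 / 32) * L) * (3 * L))) := by
        rw [f1]
        gcongr
    _ = (2 * Real.exp (-L) + C₂ * Real.exp (-(3 / 100) * L) +
        C₄ * (4 * W * L + 2) * (3 * L) * Real.exp (-(1 / 32) * L)) * (y / l) := by ring
    _ ≤ ε * (y / l) := mul_le_mul_of_nonneg_right hΦ hyl.le

end Pool.Agent.U376.AK
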