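import Mathlib
import Pool.Agent.U376.AK.EM3

set_option autoImplicit false

/-! Almost all primes are good: the order of `a` modulo `p` exceeds `√p` by any power of a logarithm. -/

namespace Pool.Agent.U376.AK

open Finset Filter Topology

/-- few primes have a small order of `a` -/
lemma ord_small (a T y : ℕ) (ha : 2 ≤ a) :
    ((PY y).filter (fun p : ℕ => ¬ p ∣ a ∧ orderOf (a : ZMod p) ≤ T)).card ≤ a * T ^ 2 := by
  classical
  have h1 : (PY y).filter (fun p : ℕ => ¬ p ∣ a ∧ orderOf (a : ZMod p) ≤ T) ⊆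
      (Icc 1 T).biUnion (fun t => (a ^ t - 1).primeFactors) := by
    intro p hp
    rw [mem_filter, mem_PY] at hp
    obtain ⟨⟨hpp, _⟩, hpa, ho⟩ := hp
    have : Fact p.Prime := ⟨hpp⟩
    have hu : IsUnit (a : ZMod p) := by
      rw [isUnit_iff_ne_zero, Ne, ZMod.natCast_eq_zero_iff]
      exact hpa
    obtain ⟨α, hα⟩ := hu
    have ho1 : 0 < orderOf (a : ZMod p) := by
      rw [← hα, orderOf_units]; exact orderOf_pos α
    rw [mem_biUnion]
    refine ⟨orderOf (a : ZMod p), mem_Icc.2 ⟨ho1, ho⟩, ?_⟩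
    have h2 : 1 < a ^ orderOf (a : ZMod p) := Nat.one_lt_pow ho1.ne' (by omega)
    rw [Nat.mem_primeFactors]
    refine ⟨hpp, ?_, by omega⟩
    rw [← ZMod.natCast_eq_zero_iff, Nat.cast_sub h2.le, Nat.cast_pow, pow_orderOf_eq_one]
    simp
  have h2 : ∀ t ∈ Icc 1 T, (a ^ t - 1).primeFactors.card ≤ a * T := by
    intro t ht
    rw [mem_Icc] at ht
    have h3 : 1 < a ^ t := Nat.one_lt_pow (by omega) (by omega)
    have h4 : 2 ^ (a ^ t - 1).primeFactors.card ≤ a ^ t - 1 := by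
      calc 2 ^ (a ^ t - 1).primeFactors.card = ∏ _q ∈ (a ^ t - 1).primeFactors, 2 := by
            rw [prod_const]
        _ ≤ ∏ q ∈ (a ^ t - 1).primeFactors, q :=
            prod_le_prod' fun q hq => (Nat.prime_of_mem_primeFactors hq).two_le
        _ ≤ a ^ t - 1 := Nat.le_of_dvd (by omega) (Nat.prod_primeFactors_dvd _)
    have h5 : a ^ t ≤ 2 ^ (a * t) := by
      rw [pow_mul]
      exact Nat.pow_le_pow_left (Nat.lt_two_pow_self).le t
    have h6 : 2 ^ (a ^ t - 1).primeFactors.card < 2 ^ (a * t) := by omega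
    have h7 := (Nat.pow_lt_pow_iff_right (by norm_num : 1 < 2)).1 h6
    exact h7.le.trans (Nat.mul_le_mul_left a ht.2)
  calc _ ≤ ((Icc 1 T).biUnion (fun t => (a ^ t - 1).primeFactors)).card := card_le_card h1
    _ ≤ ∑ t ∈ Icc 1 T, (a ^ t - 1).primeFactors.card := card_biUnion_le
    _ ≤ ∑ _t ∈ Icc 1 T, a * T := sum_le_sum h2
    _ = a * T ^ 2 := by rw [sum_const, Nat.card_Icc, smul_eq_mul]; simp; ring

open Classical in
/-- the good primes up to `y` -/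
noncomputable def GoodP (a : ℕ) (c : ℤ) (C y : ℕ) : Finset ℕ :=
  (PY y).filter (fun p : ℕ => ¬ p ∣ a ∧ ¬ (p : ℤ) ∣ c ∧ ((p - 1).divisors.card : ℝ) ≤ Real.log y ^ 3 ∧
    √(y : ℝ) * Real.log y ^ C ≤ orderOf (a : ZMod p))

theorem good_density (a : ℕ) (c : ℤ) (C : ℕ) (ha : 2 ≤ a) (hc : c ≠ 0) (hC : 1 ≤ C) (ε : ℝ) (hε : 0 < ε) :
    ∃ Y : ℕ, ∀ y : ℕ, Y ≤ y → ((PY y \ GoodP a c C y).card : ℝ) ≤ ε * (y / Real.log y) := by
  classical
  obtain ⟨Y₁, h1⟩ := em C (ε / 5) (by positivity)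
  obtain ⟨C₂, hC₂, h2⟩ := tau_sum
  have hlogt : Tendsto (fun y : ℕ => Real.log (y : ℝ)) atTop atTop :=
    Real.tendsto_log_atTop.comp tendsto_natCast_atTop_atTop
  obtain ⟨Y₂, hY₂⟩ := eventually_atTop.1 ((ev_log (5 * (a + c.natAbs) / ε) 1).and
    ((hlogt.eventually_ge_atTop (5 * C₂ / ε)).and ((hlogt.eventually_ge_atTop (5 * a / ε)).and
      (hlogt.eventually_ge_atTop 1))))
  refine ⟨max (max Y₁ Y₂) 3, fun y hy => ?_⟩
  have hy1 : Y₁ ≤ y := (le_max_left _ _).trans ((le_max_left _ _).trans hy)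
  have hy2 : Y₂ ≤ y := (le_max_right _ _).trans ((le_max_left _ _).trans hy)
  have hy3 : 3 ≤ y := (le_max_right _ _).trans hy
  obtain ⟨e1, e2, e3, e4⟩ := hY₂ y hy2
  have b1 := h1 y hy1
  have b2 := h2 y (by omega)
  obtain ⟨l, hl⟩ : ∃ l, l = Real.log (y : ℝ) := ⟨_, rfl⟩
  rw [← hl] at e1 e2 e3 e4 b1 ⊢
  have hyr : (3 : ℝ) ≤ y := by exact_mod_cast hy3
  have hl0 : 0 < l := by linarith
  obtain ⟨s, hs⟩ : ∃ s, s = √(y : ℝ) := ⟨_, rfl⟩
  have hss : s * s = y := by rw [hs]; exact Real.mul_self_sqrt (by linarith)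
  have hs0 : 0 < s := by rw [hs]; exact Real.sqrt_pos.2 (by linarith)
  rw [← hs] at e1 b1
  obtain ⟨T, hT⟩ : ∃ T : ℕ, T = ⌊s / l⌋₊ := ⟨_, rfl⟩
  have b3 := ord_small a T y ha
  have hsub : PY y \ GoodP a c C y ⊆
      ((Icc 1 a ∪ Icc 1 c.natAbs) ∪ ((PY y).filter (fun p : ℕ => l ^ 3 < ((p - 1).divisors.card : ℝ)))) ∪
      (((PY y).filter (fun p : ℕ => ¬ p ∣ a ∧ orderOf (a : ZMod p) ≤ T)) ∪
      ((PY y).filter (fun p : ℕ => ∃ d : ℕ, d ∣ p - 1 ∧ s ≤ d * l ^ C ∧ (d : ℝ) ≤ s * l ^ C))) := by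
    intro p hp
    rw [Finset.mem_sdiff] at hp
    obtain ⟨hpP, hpG⟩ := hp
    have hpP' := mem_PY.1 hpP
    have hpp := hpP'.1
    unfold GoodP at hpG
    rw [mem_filter, ← hl, ← hs] at hpG
    rw [mem_union, mem_union, mem_union, mem_union, mem_filter, mem_filter, mem_filter, mem_Icc, mem_Icc]
    by_cases c1 : p ∣ a
    · exact Or.inl (Or.inl (Or.inl ⟨hpp.one_le, Nat.le_of_dvd (by omega) c1⟩))
    by_cases c2 : (p : ℤ) ∣ c
    · refine Or.inl (Or.inl (Or.inr ⟨hpp.one_le, Nat.le_of_dvd (Int.natAbs_pos.2 hc) ?_⟩))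
      exact Int.natCast_dvd.1 c2
    by_cases c3 : l ^ 3 < ((p - 1).divisors.card : ℝ)
    · exact Or.inl (Or.inr ⟨hpP, c3⟩)
    by_cases c4 : orderOf (a : ZMod p) ≤ T
    · exact Or.inr (Or.inl ⟨hpP, c1, c4⟩)
    refine Or.inr (Or.inr ⟨hpP, orderOf (a : ZMod p), ?_, ?_, ?_⟩)
    · have : Fact p.Prime := ⟨hpp⟩
      have hu : (a : ZMod p) ≠ 0 := by
        rw [Ne, ZMod.natCast_eq_zero_iff]
        exact c1
      exact ZMod.orderOf_dvd_card_sub_one hu
    · push Not at c4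
      rw [hT] at c4
      have f1 := Nat.lt_of_floor_lt c4
      rw [div_lt_iff₀ hl0] at f1
      have f2 : l ≤ l ^ C := le_self_pow₀ e4 (by omega)
      have f3 : (0 : ℝ) ≤ (orderOf (a : ZMod p) : ℝ) := Nat.cast_nonneg _
      calc s ≤ orderOf (a : ZMod p) * l := f1.le
        _ ≤ _ := mul_le_mul_of_nonneg_left f2 f3
    · by_contra hcon
      push Not at hcon c3
      exact hpG ⟨hpP, c1, c2, c3, hcon.le⟩
  have hc1 := (card_le_card hsub).trans ((card_union_le _ _).trans (add_le_add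
    ((card_union_le _ _).trans (add_le_add_left (card_union_le _ _) _)) (card_union_le _ _)))
  rw [Nat.card_Icc, Nat.card_Icc] at hc1
  have hc2 : ((PY y \ GoodP a c C y).card : ℝ) ≤ ((a : ℝ) + c.natAbs +
      (((PY y).filter (fun p : ℕ => l ^ 3 < ((p - 1).divisors.card : ℝ))).card : ℝ)) +
      ((a * T ^ 2 : ℕ) +
      (((PY y).filter (fun p : ℕ => ∃ d : ℕ, d ∣ p - 1 ∧ s ≤ d * l ^ C ∧ (d : ℝ) ≤ s * l ^ C)).card : ℝ)) := by
    have : (PY y \ GoodP a c C y).card ≤ (a + c.natAbs +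
      ((PY y).filter (fun p : ℕ => l ^ 3 < ((p - 1).divisors.card : ℝ))).card) +
      ((a * T ^ 2) +
      ((PY y).filter (fun p : ℕ => ∃ d : ℕ, d ∣ p - 1 ∧ s ≤ d * l ^ C ∧ (d : ℝ) ≤ s * l ^ C)).card) := by
      refine hc1.trans ?_
      rw [Nat.add_sub_cancel, Nat.add_sub_cancel]
      gcongr
    exact_mod_cast this
  have b4 : (((PY y).filter (fun p : ℕ => l ^ 3 < ((p - 1).divisors.card : ℝ))).card : ℝ) * l ^ 3 ≤
      C₂ * y := by
    refine le_trans ?_ b2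
    rw [← nsmul_eq_mul, ← sum_const]
    refine le_trans (sum_le_sum fun p hp => ?_) (sum_le_sum_of_subset_of_nonneg
      (filter_subset (fun p : ℕ => l ^ 3 < ((p - 1).divisors.card : ℝ)) (PY y)) fun p _ _ => Nat.cast_nonneg _)
    exact (mem_filter.1 hp).2.le
  have hyl : 0 < (y : ℝ) / l := by positivity
  have g1 : (a : ℝ) + c.natAbs ≤ ε / 5 * (y / l) := by
    rw [pow_one, div_mul_eq_mul_div, div_le_iff₀ hε] at e1
    have e5 : 5 * ((a : ℝ) + c.natAbs) * l ≤ y * ε := by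
      have : s ≤ y := by nlinarith
      nlinarith
    rw [← mul_div_assoc, le_div_iff₀ hl0]
    linarith
  have g2 : (((PY y).filter (fun p : ℕ => l ^ 3 < ((p - 1).divisors.card : ℝ))).card : ℝ) ≤
      ε / 5 * (y / l) := by
    have e5 : C₂ * 5 ≤ l * ε := by rwa [mul_comm C₂ 5, ← div_le_iff₀ hε]
    rw [← le_div_iff₀ (by positivity)] at b4
    refine b4.trans ?_
    rw [div_le_iff₀ (by positivity)]
    have e6 : ε / 5 * ((y : ℝ) / l) * l ^ 3 = (ε * l / 5) * l * y := by field_simp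
    rw [e6]
    have e7 : C₂ ≤ (ε * l / 5) * l := by nlinarith
    gcongr
  have g3 : ((a * T ^ 2 : ℕ) : ℝ) ≤ ε / 5 * (y / l) := by
    have e5 : 5 * (a : ℝ) ≤ l * ε := by rwa [← div_le_iff₀ hε]
    have e6 : (T : ℝ) ≤ s / l := by rw [hT]; exact Nat.floor_le (by positivity)
    push_cast
    calc (a : ℝ) * (T : ℝ) ^ 2 ≤ a * (s / l) ^ 2 := by gcongr
      _ = (a / l) * (y / l) := by rw [div_pow, sq s, hss]; field_simp
      _ ≤ ε / 5 * (y / l) := by
          apply mul_le_mul_of_nonneg_right _ hyl.le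
          rw [div_le_iff₀ hl0]
          linarith
  have g4 : ε / 5 * ((y : ℝ) / l) * 5 = ε * (y / l) := by ring
  linarith

end Pool.Agent.U376.AK
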