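import Mathlib
import Pool.Agent.H730R2.AA.Expand

set_option autoImplicit false

/-! Character sums along the sequence `a ^ k + c` over complete periods: Jacobi sums. -/

namespace Pool.Agent.U376.AK

open Finset
open Pool.Agent.H730R2.AA.Exp

section
variable {p : ℕ} [Fact p.Prime]

lemma norm_jacobi (χ φ : DirichletCharacter ℂ p) (hχ : χ ≠ 1) :
    ‖jacobiSum φ χ‖ ≤ √(p : ℝ) := by
  have hp := Fact.out (p := p.Prime)
  have h1p : (1 : ℝ) ≤ p := by exact_mod_cast hp.one_le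
  have hs : 1 ≤ √(p : ℝ) := by rw [Real.one_le_sqrt]; exact h1p
  by_cases h1 : φ = 1
  · rw [h1, jacobiSum_one_nontrivial hχ]
    simpa using hs
  by_cases h2 : φ * χ = 1
  · have h3 : χ = φ⁻¹ := (eq_inv_of_mul_eq_one_right h2)
    rw [h3, jacobiSum_nontrivial_inv h1, norm_neg]
    exact (DirichletCharacter.norm_le_one φ _).trans hs
  have hring : ringChar ℂ ≠ ringChar (ZMod p) := by
    rw [ringChar.eq_zero, ZMod.ringChar_zmod_n]
    exact hp.ne_zero.symm
  have h4 := jacobiSum_mul_jacobiSum_inv hring h1 hχ h2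
  have h5 : jacobiSum φ⁻¹ χ⁻¹ = starRingEnd ℂ (jacobiSum φ χ) := by
    unfold jacobiSum
    rw [map_sum]
    refine sum_congr rfl fun x _ => ?_
    rw [map_mul, ← MulChar.star_apply', ← MulChar.star_apply']
    rfl
  rw [h5, Complex.mul_conj, ZMod.card] at h4
  have h6 : Complex.normSq (jacobiSum φ χ) = (p : ℝ) := by exact_mod_cast h4
  rw [Complex.normSq_eq_norm_sq] at h6
  rw [← h6, Real.sqrt_sq (norm_nonneg _)]

/-- the shifted character on the units -/
noncomputable def shf (c : ZMod p) (χ : DirichletCharacter ℂ p) (u : (ZMod p)ˣ) : ℂ :=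
  χ ((u : ZMod p) + c)

lemma sum_units (f : ZMod p → ℂ) (h0 : f 0 = 0) :
    ∑ u : (ZMod p)ˣ, f (u : ZMod p) = ∑ x : ZMod p, f x := by
  classical
  have h4 : ∑ a : ZMod p, f a = ∑ a ∈ univ.filter (fun a : ZMod p => IsUnit a), f a := by
    rw [Finset.sum_filter]
    refine Finset.sum_congr rfl fun a _ => ?_
    split_ifs with h
    · rfl
    · rw [isUnit_iff_ne_zero, not_not] at h
      rw [h, h0]
  rw [h4]
  refine Finset.sum_bij (fun (u : (ZMod p)ˣ) _ => (u : ZMod p)) ?_ ?_ ?_ ?_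
  · intro u _
    exact mem_filter.2 ⟨mem_univ _, u.isUnit⟩
  · intro u _ w _ h
    exact Units.ext h
  · intro a ha
    obtain ⟨u, hu⟩ := (mem_filter.1 ha).2
    exact ⟨u, mem_univ _, hu⟩
  · intro u _
    rfl

/-- the Fourier coefficients of a shifted character -/
lemma norm_fc_shf (c : ZMod p) (hc : c ≠ 0) (χ ψ : DirichletCharacter ℂ p) (hχ : χ ≠ 1) :
    ‖fc (shf c χ) ψ‖ ≤ √(p : ℝ) / ((p : ℝ) - 1) := by
  have hp := Fact.out (p := p.Prime)
  have hN : (0 : ℝ) < ((p - 1 : ℕ) : ℝ) := by exact_mod_cast N_pos (p := p)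
  have hcast : ((p - 1 : ℕ) : ℝ) = (p : ℝ) - 1 := by
    rw [Nat.cast_sub hp.one_le]; simp
  unfold fc
  rw [norm_mul, norm_inv, Complex.norm_natCast, hcast, div_eq_inv_mul]
  rw [hcast] at hN
  refine mul_le_mul_of_nonneg_left ?_ (inv_nonneg.2 hN.le)
  have h1 : ∑ u : (ZMod p)ˣ, shf c χ u * ψ ((u⁻¹ : (ZMod p)ˣ) : ZMod p) =
      ∑ u : (ZMod p)ˣ, (fun x : ZMod p => χ (x + c) * ψ⁻¹ x) (u : ZMod p) := by
    refine sum_congr rfl fun u _ => ?_
    simp only [shf]
    rw [MulChar.inv_apply', Units.val_inv_eq_inv_val]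
  rw [h1, sum_units (fun x : ZMod p => χ (x + c) * ψ⁻¹ x) (by
    show χ (0 + c) * ψ⁻¹ 0 = 0
    rw [MulChar.map_zero, mul_zero])]
  have h2 : ∑ x : ZMod p, χ (x + c) * ψ⁻¹ x = ∑ y : ZMod p, χ (-c * y + c) * ψ⁻¹ (-c * y) := by
    have hu : (-c) ≠ 0 := neg_ne_zero.2 hc
    exact (Equiv.sum_comp (Equiv.mulLeft₀ (-c) hu) (fun x => χ (x + c) * ψ⁻¹ x)).symm
  have h3 : ∑ y : ZMod p, χ (-c * y + c) * ψ⁻¹ (-c * y) = χ c * ψ⁻¹ (-c) * jacobiSum ψ⁻¹ χ := by
    unfold jacobiSum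
    rw [mul_sum]
    refine sum_congr rfl fun y _ => ?_
    have e1 : -c * y + c = c * (1 - y) := by ring
    rw [e1, map_mul, map_mul]
    ring
  rw [h2, h3, norm_mul, norm_mul]
  calc ‖χ c‖ * ‖ψ⁻¹ (-c)‖ * ‖jacobiSum ψ⁻¹ χ‖ ≤ 1 * 1 * √(p : ℝ) := by
        refine mul_le_mul (mul_le_mul (DirichletCharacter.norm_le_one χ _)
          (DirichletCharacter.norm_le_one ψ⁻¹ _) (norm_nonneg _) zero_le_one) (norm_jacobi χ ψ⁻¹ hχ)
          (norm_nonneg _) (by norm_num)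
    _ = √(p : ℝ) := by ring

/-- orthogonality over the characters -/
lemma sum_char_unit (u : (ZMod p)ˣ) :
    ∑ ψ : DirichletCharacter ℂ p, ψ (u : ZMod p) = if u = 1 then (((p - 1 : ℕ)) : ℂ) else 0 := by
  classical
  have h := DirichletCharacter.sum_char_inv_mul_char_eq ℂ (n := p) (a := (1 : ZMod p)) isUnit_one
    (u : ZMod p)
  rw [Nat.totient_prime Fact.out] at h
  simp only [inv_one, map_one, one_mul] at h
  rw [h]
  by_cases hu : u = 1
  · simp [hu]
  · rw [if_neg hu, if_neg (fun h => hu (Units.ext (by simpa using h.symm)))]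

end

section
variable {p q : ℕ} [Fact p.Prime] [Fact q.Prime]

/-- geometric sums of roots of unity -/
lemma geom_root (z : ℂ) (T n : ℕ) (hz : z ^ T = 1) :
    ∑ k ∈ range (n * T), z ^ k = if z = 1 then ((n * T : ℕ) : ℂ) else 0 := by
  split_ifs with h
  · simp [h]
  · rw [geom_sum_eq h, mul_comm n T, pow_mul, hz, one_pow, sub_self, zero_div]

lemma count_pairs (α : (ZMod p)ˣ) (β : (ZMod q)ˣ) (T : ℕ) (hT : T = Nat.lcm (orderOf α) (orderOf β)) :
    ∑ ψ : DirichletCharacter ℂ p, ∑ φ : DirichletCharacter ℂ q,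
      (if ψ (α : ZMod p) * φ (β : ZMod q) = 1 then (T : ℝ) else 0) =
        ((p - 1 : ℕ) : ℝ) * ((q - 1 : ℕ) : ℝ) := by
  classical
  have ho1 : 0 < orderOf α := orderOf_pos α
  have ho2 : 0 < orderOf β := orderOf_pos β
  have hT0 : 0 < T := by rw [hT]; exact Nat.lcm_pos ho1 ho2
  have hz : ∀ (ψ : DirichletCharacter ℂ p) (φ : DirichletCharacter ℂ q),
      (ψ (α : ZMod p) * φ (β : ZMod q)) ^ T = 1 := by
    intro ψ φ
    have e1 : α ^ T = 1 := orderOf_dvd_iff_pow_eq_one.1 (by rw [hT]; exact Nat.dvd_lcm_left _ _)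
    have e2 : β ^ T = 1 := orderOf_dvd_iff_pow_eq_one.1 (by rw [hT]; exact Nat.dvd_lcm_right _ _)
    rw [mul_pow, ← map_pow, ← map_pow, ← Units.val_pow_eq_pow_val, ← Units.val_pow_eq_pow_val, e1, e2]
    simp
  have h1 : ∑ k ∈ range T, (∑ ψ : DirichletCharacter ℂ p, ψ ((α ^ k : (ZMod p)ˣ) : ZMod p)) *
      (∑ φ : DirichletCharacter ℂ q, φ ((β ^ k : (ZMod q)ˣ) : ZMod q)) =
        ((p - 1 : ℕ) : ℂ) * ((q - 1 : ℕ) : ℂ) := by
    rw [sum_eq_single_of_mem 0 (mem_range.2 hT0)]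
    · rw [sum_char_unit, sum_char_unit]
      simp
    · intro k hk hk0
      rw [sum_char_unit, sum_char_unit]
      rw [mem_range] at hk
      by_cases e1 : α ^ k = 1
      · by_cases e2 : β ^ k = 1
        · exfalso
          have d1 := orderOf_dvd_iff_pow_eq_one.2 e1
          have d2 := orderOf_dvd_iff_pow_eq_one.2 e2
          have d3 : T ∣ k := by rw [hT]; exact Nat.lcm_dvd d1 d2
          have := Nat.le_of_dvd (Nat.pos_of_ne_zero hk0) d3
          omega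
        · simp [e2]
      · simp [e1]
  have h2 : ∑ k ∈ range T, (∑ ψ : DirichletCharacter ℂ p, ψ ((α ^ k : (ZMod p)ˣ) : ZMod p)) *
      (∑ φ : DirichletCharacter ℂ q, φ ((β ^ k : (ZMod q)ˣ) : ZMod q)) =
      ∑ ψ : DirichletCharacter ℂ p, ∑ φ : DirichletCharacter ℂ q,
        ∑ k ∈ range T, (ψ (α : ZMod p) * φ (β : ZMod q)) ^ k := by
    have e1 : ∀ k ∈ range T, (∑ ψ : DirichletCharacter ℂ p, ψ ((α ^ k : (ZMod p)ˣ) : ZMod p)) *
      (∑ φ : DirichletCharacter ℂ q, φ ((β ^ k : (ZMod q)ˣ) : ZMod q)) =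
        ∑ ψ : DirichletCharacter ℂ p, ∑ φ : DirichletCharacter ℂ q,
          (ψ (α : ZMod p) * φ (β : ZMod q)) ^ k := by
      intro k _
      rw [sum_mul_sum]
      refine sum_congr rfl fun ψ _ => sum_congr rfl fun φ _ => ?_
      rw [Units.val_pow_eq_pow_val, Units.val_pow_eq_pow_val, map_pow, map_pow, mul_pow]
    rw [sum_congr rfl e1, sum_comm]
    refine sum_congr rfl fun ψ _ => ?_
    rw [sum_comm]
  have h3 : ((∑ ψ : DirichletCharacter ℂ p, ∑ φ : DirichletCharacter ℂ q,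
      (if ψ (α : ZMod p) * φ (β : ZMod q) = 1 then (T : ℝ) else 0) : ℝ) : ℂ) =
        ((p - 1 : ℕ) : ℂ) * ((q - 1 : ℕ) : ℂ) := by
    rw [← h1, h2]
    push_cast
    refine sum_congr rfl fun ψ _ => sum_congr rfl fun φ _ => ?_
    have := geom_root _ T 1 (hz ψ φ)
    rw [one_mul] at this
    rw [this]
    split_ifs <;> simp
  exact_mod_cast h3

/-- the sum over complete periods -/
lemma complete (α : (ZMod p)ˣ) (β : (ZMod q)ˣ) (T n : ℕ) (hT : T = Nat.lcm (orderOf α) (orderOf β))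
    (c : ZMod p) (d : ZMod q) (hc : c ≠ 0) (hd : d ≠ 0)
    (χ : DirichletCharacter ℂ p) (φ : DirichletCharacter ℂ q) (hχ : χ ≠ 1) (hφ : φ ≠ 1) :
    ‖∑ k ∈ range (n * T), χ ((α : ZMod p) ^ k + c) * φ ((β : ZMod q) ^ k + d)‖ ≤
      n * (√(p : ℝ) * √(q : ℝ)) := by
  classical
  have hz : ∀ (ψ : DirichletCharacter ℂ p) (θ : DirichletCharacter ℂ q),
      (ψ (α : ZMod p) * θ (β : ZMod q)) ^ T = 1 := by
    intro ψ φ
    have e1 : α ^ T = 1 := orderOf_dvd_iff_pow_eq_one.1 (by rw [hT]; exact Nat.dvd_lcm_left _ _)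
    have e2 : β ^ T = 1 := orderOf_dvd_iff_pow_eq_one.1 (by rw [hT]; exact Nat.dvd_lcm_right _ _)
    rw [mul_pow, ← map_pow, ← map_pow, ← Units.val_pow_eq_pow_val, ← Units.val_pow_eq_pow_val, e1, e2]
    simp
  have h1 : ∑ k ∈ range (n * T), χ ((α : ZMod p) ^ k + c) * φ ((β : ZMod q) ^ k + d) =
      ∑ ψ : DirichletCharacter ℂ p, ∑ θ : DirichletCharacter ℂ q,
        fc (shf c χ) ψ * fc (shf d φ) θ *
          (if ψ (α : ZMod p) * θ (β : ZMod q) = 1 then ((n * T : ℕ) : ℂ) else 0) := by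
    have e1 : ∀ k ∈ range (n * T), χ ((α : ZMod p) ^ k + c) * φ ((β : ZMod q) ^ k + d) =
        ∑ ψ : DirichletCharacter ℂ p, ∑ θ : DirichletCharacter ℂ q,
          fc (shf c χ) ψ * fc (shf d φ) θ * (ψ (α : ZMod p) * θ (β : ZMod q)) ^ k := by
      intro k _
      have f1 := fc_inv (p := p) (shf c χ) (α ^ k)
      have f2 := fc_inv (p := q) (shf d φ) (β ^ k)
      have g1 : shf c χ (α ^ k) = χ ((α : ZMod p) ^ k + c) := by simp [shf]
      have g2 : shf d φ (β ^ k) = φ ((β : ZMod q) ^ k + d) := by simp [shf]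
      rw [← g1, ← g2, ← f1, ← f2, sum_mul_sum]
      refine sum_congr rfl fun ψ _ => sum_congr rfl fun θ _ => ?_
      rw [Units.val_pow_eq_pow_val, Units.val_pow_eq_pow_val, map_pow, map_pow, mul_pow]
      ring
    rw [sum_congr rfl e1, sum_comm]
    refine sum_congr rfl fun ψ _ => ?_
    rw [sum_comm]
    refine sum_congr rfl fun θ _ => ?_
    rw [← mul_sum, geom_root _ T n (hz ψ θ)]
  have hp := Fact.out (p := p.Prime)
  have hq := Fact.out (p := q.Prime)
  have hp1 : (0 : ℝ) < (p : ℝ) - 1 := by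
    have : (1 : ℝ) < p := by exact_mod_cast hp.one_lt
    linarith
  have hq1 : (0 : ℝ) < (q : ℝ) - 1 := by
    have : (1 : ℝ) < q := by exact_mod_cast hq.one_lt
    linarith
  rw [h1]
  calc ‖∑ ψ : DirichletCharacter ℂ p, ∑ θ : DirichletCharacter ℂ q,
        fc (shf c χ) ψ * fc (shf d φ) θ *
          (if ψ (α : ZMod p) * θ (β : ZMod q) = 1 then ((n * T : ℕ) : ℂ) else 0)‖
      ≤ ∑ ψ : DirichletCharacter ℂ p, ∑ θ : DirichletCharacter ℂ q,
        (√(p : ℝ) / ((p : ℝ) - 1)) * (√(q : ℝ) / ((q : ℝ) - 1)) * n *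
          (if ψ (α : ZMod p) * θ (β : ZMod q) = 1 then (T : ℝ) else 0) := by
        refine (norm_sum_le _ _).trans (sum_le_sum fun ψ _ => ?_)
        refine (norm_sum_le _ _).trans (sum_le_sum fun θ _ => ?_)
        rw [norm_mul, norm_mul]
        have e1 := norm_fc_shf c hc χ ψ hχ
        have e2 := norm_fc_shf d hd φ θ hφ
        have e3 : ‖(if ψ (α : ZMod p) * θ (β : ZMod q) = 1 then ((n * T : ℕ) : ℂ) else 0)‖ =
            n * (if ψ (α : ZMod p) * θ (β : ZMod q) = 1 then (T : ℝ) else 0) := by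
          split_ifs
          · rw [Complex.norm_natCast]; push_cast; ring
          · simp
        rw [e3, ← mul_assoc]
        have e4 : (0 : ℝ) ≤ (if ψ (α : ZMod p) * θ (β : ZMod q) = 1 then (T : ℝ) else 0) := by
          split_ifs <;> positivity
        gcongr
    _ = (√(p : ℝ) / ((p : ℝ) - 1)) * (√(q : ℝ) / ((q : ℝ) - 1)) * n *
        (((p - 1 : ℕ) : ℝ) * ((q - 1 : ℕ) : ℝ)) := by
        rw [← count_pairs α β T hT, mul_sum]
        refine sum_congr rfl fun ψ _ => ?_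
        rw [mul_sum]
    _ = n * (√(p : ℝ) * √(q : ℝ)) := by
        rw [Nat.cast_sub hp.one_le, Nat.cast_sub hq.one_le, Nat.cast_one]
        field_simp

/-- the sum over an initial segment -/
theorem pair_sum (α : (ZMod p)ˣ) (β : (ZMod q)ˣ) (T K : ℕ) (hT : T = Nat.lcm (orderOf α) (orderOf β))
    (c : ZMod p) (d : ZMod q) (hc : c ≠ 0) (hd : d ≠ 0)
    (χ : DirichletCharacter ℂ p) (φ : DirichletCharacter ℂ q) (hχ : χ ≠ 1) (hφ : φ ≠ 1) :
    ‖∑ k ∈ range K, χ ((α : ZMod p) ^ k + c) * φ ((β : ZMod q) ^ k + d)‖ ≤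
      K / T * (√(p : ℝ) * √(q : ℝ)) + T := by
  have ho1 : 0 < orderOf α := orderOf_pos α
  have ho2 : 0 < orderOf β := orderOf_pos β
  have hT0 : 0 < T := by rw [hT]; exact Nat.lcm_pos ho1 ho2
  have hTR : (0 : ℝ) < T := by exact_mod_cast hT0
  have h1 : K = K / T * T + K % T := (Nat.div_add_mod' K T).symm
  have h2 := complete α β T (K / T) hT c d hc hd χ φ hχ hφ
  have h3 : ∑ k ∈ range K, χ ((α : ZMod p) ^ k + c) * φ ((β : ZMod q) ^ k + d) =
      ∑ k ∈ range (K / T * T), χ ((α : ZMod p) ^ k + c) * φ ((β : ZMod q) ^ k + d) +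
      ∑ i ∈ range (K % T), χ ((α : ZMod p) ^ (K / T * T + i) + c) * φ ((β : ZMod q) ^ (K / T * T + i) + d) := by
    conv_lhs => rw [h1]
    rw [sum_range_add]
  rw [h3]
  refine (norm_add_le _ _).trans (add_le_add (h2.trans ?_) ?_)
  · refine mul_le_mul_of_nonneg_right ?_ (by positivity)
    exact Nat.cast_div_le
  · calc _ ≤ ∑ _i ∈ range (K % T), (1 : ℝ) := by
          refine (norm_sum_le _ _).trans (sum_le_sum fun i _ => ?_)
          rw [norm_mul]
          calc _ ≤ (1 : ℝ) * 1 := mul_le_mul (DirichletCharacter.norm_le_one χ _)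
                (DirichletCharacter.norm_le_one φ _) (norm_nonneg _) zero_le_one
            _ = 1 := one_mul 1
      _ ≤ T := by
          rw [sum_const, card_range, nsmul_eq_mul, mul_one]
          exact_mod_cast (Nat.mod_lt K hT0).le

end

end Pool.Agent.U376.AK
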