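import Mathlib
import Pool.Agent.H343R2.PV
import Pool.Agent.U376.AK.Jac

set_option autoImplicit false

/-! Character sums along the sequence `a ^ k + c` over incomplete periods. -/

namespace Pool.Agent.U376.AK

open Finset
open Pool.Agent.H730R2.AA.Exp

/-- the root of unity -/
noncomputable def zt (T : ℕ) : ℂ := Complex.exp (2 * Real.pi * Complex.I / T)

lemma zt_prim (T : ℕ) (hT : T ≠ 0) : IsPrimitiveRoot (zt T) T := Complex.isPrimitiveRoot_exp T hT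

lemma geom_bound (T K j : ℕ) (hj : 1 ≤ j) (hjT : j < T) :
    ‖∑ k ∈ range K, (zt T ^ j) ^ k‖ ≤ (T : ℝ) / 2 * (1 / j + 1 / ((T - j : ℕ) : ℝ)) := by
  have h1 := H343.PVaux.geom_le K T j hj hjT
  have h2 : ∀ k : ℕ, H343.ex (k * ((j : ℝ) / T)) = (zt T ^ j) ^ k := by
    intro k
    unfold H343.ex zt
    rw [← pow_mul, ← Complex.exp_nat_mul]
    congr 1
    push_cast
    ring
  have h3 : ∑ n ∈ Icc 1 K, H343.ex (n * ((j : ℝ) / T)) =
      (zt T ^ j) * ∑ k ∈ range K, (zt T ^ j) ^ k := by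
    rw [mul_sum, range_eq_Ico, sum_Ico_eq_sum_range]
    have : Icc 1 K = Ico 1 (K + 1) := by ext n; simp
    rw [this, sum_Ico_eq_sum_range]
    simp only [Nat.add_sub_cancel, Nat.sub_zero]
    refine sum_congr rfl fun k _ => ?_
    rw [h2, zero_add, ← pow_succ', add_comm 1 k]
  rw [h3, norm_mul] at h1
  have h4 : ‖zt T ^ j‖ = 1 := by
    rw [norm_pow]
    have : ‖zt T‖ = 1 := (zt_prim T (by omega)).norm'_eq_one (by omega)
    rw [this, one_pow]
  rwa [h4, one_mul] at h1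

lemma geom_l1 (T K : ℕ) (hT : 1 ≤ T) :
    ∑ j ∈ range T, ‖∑ k ∈ range K, (zt T ^ j) ^ k‖ ≤ K + T * (1 + Real.log T) := by
  rw [range_eq_Ico, sum_eq_sum_Ico_succ_bot (by omega)]
  refine add_le_add ?_ ?_
  · simp
  · have h1 : ∀ j ∈ Ico 1 T, ‖∑ k ∈ range K, (zt T ^ j) ^ k‖ ≤
        (T : ℝ) / 2 * (1 / j + 1 / ((T - j : ℕ) : ℝ)) := by
      intro j hj
      rw [mem_Ico] at hj
      exact geom_bound T K j hj.1 hj.2
    have h5 : ∑ j ∈ Ico (0 + 1) T, ‖∑ k ∈ range K, (zt T ^ j) ^ k‖ ≤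
        ∑ j ∈ Ico (0 + 1) T, (T : ℝ) / 2 * (1 / (j : ℝ) + 1 / ((T - j : ℕ) : ℝ)) :=
      sum_le_sum fun j hj => h1 j (by rwa [zero_add] at hj)
    refine h5.trans ?_
    rw [← mul_sum, sum_add_distrib]
    have h2 := H343.PVaux.harmonic_le T hT
    have h3 := H343.PVaux.sum_reflect T hT
    have h4 : (∑ j ∈ Ico (0 + 1) T, 1 / (j : ℝ)) + ∑ j ∈ Ico (0 + 1) T, 1 / ((T - j : ℕ) : ℝ) ≤
        2 * (1 + Real.log T) := by
      rw [zero_add, h3]; linarith
    refine (mul_le_mul_of_nonneg_left h4 (by positivity)).trans (le_of_eq ?_)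
    ring

section
variable {p q : ℕ} [Fact p.Prime] [Fact q.Prime]

lemma root_T (α : (ZMod p)ˣ) (β : (ZMod q)ˣ) (T : ℕ) (hT : T = Nat.lcm (orderOf α) (orderOf β))
    (ψ : DirichletCharacter ℂ p) (φ : DirichletCharacter ℂ q) :
    (ψ (α : ZMod p) * φ (β : ZMod q)) ^ T = 1 := by
  have e1 : α ^ T = 1 := orderOf_dvd_iff_pow_eq_one.1 (by rw [hT]; exact Nat.dvd_lcm_left _ _)
  have e2 : β ^ T = 1 := orderOf_dvd_iff_pow_eq_one.1 (by rw [hT]; exact Nat.dvd_lcm_right _ _)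
  rw [mul_pow, ← map_pow, ← map_pow, ← Units.val_pow_eq_pow_val, ← Units.val_pow_eq_pow_val, e1, e2]
  simp

/-- every root of unity is attained equally often -/
lemma fiber (α : (ZMod p)ˣ) (β : (ZMod q)ˣ) (T : ℕ) (hT : T = Nat.lcm (orderOf α) (orderOf β))
    (z : ℂ) (hz : z ^ T = 1) :
    ∑ ψ : DirichletCharacter ℂ p, ∑ φ : DirichletCharacter ℂ q,
      (if ψ (α : ZMod p) * φ (β : ZMod q) = z then (T : ℝ) else 0) =
        ((p - 1 : ℕ) : ℝ) * ((q - 1 : ℕ) : ℝ) := by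
  classical
  have ho1 : 0 < orderOf α := orderOf_pos α
  have ho2 : 0 < orderOf β := orderOf_pos β
  have hT0 : 0 < T := by rw [hT]; exact Nat.lcm_pos ho1 ho2
  have hz0 : z ≠ 0 := by
    rintro rfl
    rw [zero_pow hT0.ne'] at hz
    exact zero_ne_one hz
  have h1 : ∑ k ∈ range T, (z⁻¹) ^ k * ((∑ ψ : DirichletCharacter ℂ p, ψ ((α ^ k : (ZMod p)ˣ) : ZMod p)) *
      (∑ φ : DirichletCharacter ℂ q, φ ((β ^ k : (ZMod q)ˣ) : ZMod q))) =
        ((p - 1 : ℕ) : ℂ) * ((q - 1 : ℕ) : ℂ) := by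
    rw [sum_eq_single_of_mem 0 (mem_range.2 hT0)]
    · rw [sum_char_unit, sum_char_unit]
      simp
    · intro k hk hk0
      rw [sum_char_unit, sum_char_unit]
      rw [mem_range] at hk
      by_cases e1 : α ^ k = 1
      · by_cases e2 : β ^ k = 1
        · exfalso
          have d1 := orderOf_dvd_iff_pow_eq_one.2 e1
          have d2 := orderOf_dvd_iff_pow_eq_one.2 e2
          have d3 : T ∣ k := by rw [hT]; exact Nat.lcm_dvd d1 d2
          have := Nat.le_of_dvd (Nat.pos_of_ne_zero hk0) d3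
          omega
        · simp [e2]
      · simp [e1]
  have h2 : ∑ k ∈ range T, (z⁻¹) ^ k * ((∑ ψ : DirichletCharacter ℂ p, ψ ((α ^ k : (ZMod p)ˣ) : ZMod p)) *
      (∑ φ : DirichletCharacter ℂ q, φ ((β ^ k : (ZMod q)ˣ) : ZMod q))) =
      ∑ ψ : DirichletCharacter ℂ p, ∑ φ : DirichletCharacter ℂ q,
        ∑ k ∈ range T, (z⁻¹ * (ψ (α : ZMod p) * φ (β : ZMod q))) ^ k := by
    have e1 : ∀ k ∈ range T, (z⁻¹) ^ k * ((∑ ψ : DirichletCharacter ℂ p, ψ ((α ^ k : (ZMod p)ˣ) : ZMod p)) *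
      (∑ φ : DirichletCharacter ℂ q, φ ((β ^ k : (ZMod q)ˣ) : ZMod q))) =
        ∑ ψ : DirichletCharacter ℂ p, ∑ φ : DirichletCharacter ℂ q,
          (z⁻¹ * (ψ (α : ZMod p) * φ (β : ZMod q))) ^ k := by
      intro k _
      rw [sum_mul_sum, mul_sum]
      refine sum_congr rfl fun ψ _ => ?_
      rw [mul_sum]
      refine sum_congr rfl fun φ _ => ?_
      rw [Units.val_pow_eq_pow_val, Units.val_pow_eq_pow_val, map_pow, map_pow, mul_pow, mul_pow]
    rw [sum_congr rfl e1, sum_comm]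
    refine sum_congr rfl fun ψ _ => ?_
    rw [sum_comm]
  have h3 : ((∑ ψ : DirichletCharacter ℂ p, ∑ φ : DirichletCharacter ℂ q,
      (if ψ (α : ZMod p) * φ (β : ZMod q) = z then (T : ℝ) else 0) : ℝ) : ℂ) =
        ((p - 1 : ℕ) : ℂ) * ((q - 1 : ℕ) : ℂ) := by
    rw [← h1, h2]
    push_cast
    refine sum_congr rfl fun ψ _ => sum_congr rfl fun φ _ => ?_
    have hroot : (z⁻¹ * (ψ (α : ZMod p) * φ (β : ZMod q))) ^ T = 1 := by
      rw [mul_pow, root_T α β T hT ψ φ, inv_pow, hz]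
      simp
    have := geom_root _ T 1 hroot
    rw [one_mul] at this
    rw [this]
    have hiff : z⁻¹ * (ψ (α : ZMod p) * φ (β : ZMod q)) = 1 ↔ ψ (α : ZMod p) * φ (β : ZMod q) = z := by
      rw [inv_mul_eq_one₀ hz0]
      exact eq_comm
    by_cases h : ψ (α : ZMod p) * φ (β : ZMod q) = z
    · rw [if_pos h, if_pos (hiff.2 h)]
      simp
    · rw [if_neg h, if_neg (fun h' => h (hiff.1 h'))]
      simp
  exact_mod_cast h3

lemma l1_chars (α : (ZMod p)ˣ) (β : (ZMod q)ˣ) (T : ℕ) (hT : T = Nat.lcm (orderOf α) (orderOf β))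
    (h : ℂ → ℝ) :
    (T : ℝ) * ∑ ψ : DirichletCharacter ℂ p, ∑ φ : DirichletCharacter ℂ q,
      h (ψ (α : ZMod p) * φ (β : ZMod q)) =
        ((p - 1 : ℕ) : ℝ) * ((q - 1 : ℕ) : ℝ) * ∑ j ∈ range T, h (zt T ^ j) := by
  classical
  have ho1 : 0 < orderOf α := orderOf_pos α
  have ho2 : 0 < orderOf β := orderOf_pos β
  have hT0 : 0 < T := by rw [hT]; exact Nat.lcm_pos ho1 ho2
  have hprim := zt_prim T hT0.ne'
  have h1 : ∀ (ψ : DirichletCharacter ℂ p) (φ : DirichletCharacter ℂ q),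
      (T : ℝ) * h (ψ (α : ZMod p) * φ (β : ZMod q)) = ∑ j ∈ range T,
        (if ψ (α : ZMod p) * φ (β : ZMod q) = zt T ^ j then (T : ℝ) else 0) * h (zt T ^ j) := by
    intro ψ φ
    have : NeZero T := ⟨hT0.ne'⟩
    obtain ⟨i, hi, hiz⟩ := hprim.eq_pow_of_pow_eq_one (root_T α β T hT ψ φ)
    rw [sum_eq_single_of_mem i (mem_range.2 hi), if_pos hiz.symm, hiz]
    intro j hj hji
    rw [if_neg, zero_mul]
    intro h'
    rw [← hiz] at h'
    exact hji (hprim.pow_inj (mem_range.1 hj) hi h'.symm)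
  rw [mul_sum]
  have h2 : ∀ ψ : DirichletCharacter ℂ p, (T : ℝ) * ∑ φ : DirichletCharacter ℂ q,
      h (ψ (α : ZMod p) * φ (β : ZMod q)) = ∑ j ∈ range T, (∑ φ : DirichletCharacter ℂ q,
        (if ψ (α : ZMod p) * φ (β : ZMod q) = zt T ^ j then (T : ℝ) else 0)) * h (zt T ^ j) := by
    intro ψ
    rw [mul_sum, sum_congr rfl fun φ _ => h1 ψ φ, sum_comm]
    refine sum_congr rfl fun j _ => ?_
    rw [sum_mul]
  rw [sum_congr rfl fun ψ _ => h2 ψ, sum_comm, mul_sum]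
  refine sum_congr rfl fun j _ => ?_
  rw [← sum_mul, fiber α β T hT (zt T ^ j) (by
    rw [← pow_mul, mul_comm j T, pow_mul, hprim.pow_eq_one, one_pow])]

/-- the sum over an initial segment, of any length -/
theorem pair_sum' (α : (ZMod p)ˣ) (β : (ZMod q)ˣ) (T K : ℕ) (hT : T = Nat.lcm (orderOf α) (orderOf β))
    (c : ZMod p) (d : ZMod q) (hc : c ≠ 0) (hd : d ≠ 0)
    (χ : DirichletCharacter ℂ p) (φ : DirichletCharacter ℂ q) (hχ : χ ≠ 1) (hφ : φ ≠ 1) :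
    ‖∑ k ∈ range K, χ ((α : ZMod p) ^ k + c) * φ ((β : ZMod q) ^ k + d)‖ ≤
      (K / T + 1 + Real.log T) * (√(p : ℝ) * √(q : ℝ)) := by
  classical
  have ho1 : 0 < orderOf α := orderOf_pos α
  have ho2 : 0 < orderOf β := orderOf_pos β
  have hT0 : 0 < T := by rw [hT]; exact Nat.lcm_pos ho1 ho2
  have hTR : (0 : ℝ) < T := by exact_mod_cast hT0
  have hp := Fact.out (p := p.Prime)
  have hq := Fact.out (p := q.Prime)
  have hp1 : (0 : ℝ) < (p : ℝ) - 1 := by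
    have : (1 : ℝ) < p := by exact_mod_cast hp.one_lt
    linarith
  have hq1 : (0 : ℝ) < (q : ℝ) - 1 := by
    have : (1 : ℝ) < q := by exact_mod_cast hq.one_lt
    linarith
  have h1 : ∑ k ∈ range K, χ ((α : ZMod p) ^ k + c) * φ ((β : ZMod q) ^ k + d) =
      ∑ ψ : DirichletCharacter ℂ p, ∑ θ : DirichletCharacter ℂ q,
        fc (shf c χ) ψ * fc (shf d φ) θ *
          ∑ k ∈ range K, (ψ (α : ZMod p) * θ (β : ZMod q)) ^ k := by
    have e1 : ∀ k ∈ range K, χ ((α : ZMod p) ^ k + c) * φ ((β : ZMod q) ^ k + d) =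
        ∑ ψ : DirichletCharacter ℂ p, ∑ θ : DirichletCharacter ℂ q,
          fc (shf c χ) ψ * fc (shf d φ) θ * (ψ (α : ZMod p) * θ (β : ZMod q)) ^ k := by
      intro k _
      have f1 := fc_inv (p := p) (shf c χ) (α ^ k)
      have f2 := fc_inv (p := q) (shf d φ) (β ^ k)
      have g1 : shf c χ (α ^ k) = χ ((α : ZMod p) ^ k + c) := by simp [shf]
      have g2 : shf d φ (β ^ k) = φ ((β : ZMod q) ^ k + d) := by simp [shf]
      rw [← g1, ← g2, ← f1, ← f2, sum_mul_sum]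
      refine sum_congr rfl fun ψ _ => sum_congr rfl fun θ _ => ?_
      rw [Units.val_pow_eq_pow_val, Units.val_pow_eq_pow_val, map_pow, map_pow, mul_pow]
      ring
    rw [sum_congr rfl e1, sum_comm]
    refine sum_congr rfl fun ψ _ => ?_
    rw [sum_comm]
    refine sum_congr rfl fun θ _ => ?_
    rw [← mul_sum]
  rw [h1]
  have h2 := l1_chars α β T hT (fun z => ‖∑ k ∈ range K, z ^ k‖)
  have h3 := geom_l1 T K hT0
  calc ‖∑ ψ : DirichletCharacter ℂ p, ∑ θ : DirichletCharacter ℂ q,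
        fc (shf c χ) ψ * fc (shf d φ) θ * ∑ k ∈ range K, (ψ (α : ZMod p) * θ (β : ZMod q)) ^ k‖
      ≤ ∑ ψ : DirichletCharacter ℂ p, ∑ θ : DirichletCharacter ℂ q,
        ((√(p : ℝ) / ((p : ℝ) - 1)) * (√(q : ℝ) / ((q : ℝ) - 1))) *
          ‖∑ k ∈ range K, (ψ (α : ZMod p) * θ (β : ZMod q)) ^ k‖ := by
        refine (norm_sum_le _ _).trans (sum_le_sum fun ψ _ => ?_)
        refine (norm_sum_le _ _).trans (sum_le_sum fun θ _ => ?_)
        rw [norm_mul, norm_mul]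
        have e1 := norm_fc_shf c hc χ ψ hχ
        have e2 := norm_fc_shf d hd φ θ hφ
        gcongr
    _ = ((√(p : ℝ) / ((p : ℝ) - 1)) * (√(q : ℝ) / ((q : ℝ) - 1))) *
        ∑ ψ : DirichletCharacter ℂ p, ∑ θ : DirichletCharacter ℂ q,
          ‖∑ k ∈ range K, (ψ (α : ZMod p) * θ (β : ZMod q)) ^ k‖ := by
        rw [mul_sum]
        refine sum_congr rfl fun ψ _ => ?_
        rw [mul_sum]
    _ = ((√(p : ℝ) / ((p : ℝ) - 1)) * (√(q : ℝ) / ((q : ℝ) - 1))) *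
        ((((p - 1 : ℕ) : ℝ) * ((q - 1 : ℕ) : ℝ)) / T *
          ∑ j ∈ range T, ‖∑ k ∈ range K, (zt T ^ j) ^ k‖) := by
        congr 1
        rw [div_mul_eq_mul_div, eq_div_iff hTR.ne', mul_comm _ (T : ℝ)]
        exact h2
    _ = (√(p : ℝ) * √(q : ℝ)) * ((∑ j ∈ range T, ‖∑ k ∈ range K, (zt T ^ j) ^ k‖) / T) := by
        rw [Nat.cast_sub hp.one_le, Nat.cast_sub hq.one_le, Nat.cast_one]
        field_simp
    _ ≤ (√(p : ℝ) * √(q : ℝ)) * ((K + T * (1 + Real.log T)) / T) := by gcongr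
    _ = (K / T + 1 + Real.log T) * (√(p : ℝ) * √(q : ℝ)) := by
        field_simp
        ring

end

end Pool.Agent.U376.AK
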