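import Mathlib
import Pool.Agent.N430.PS.Dens
import Pool.Agent.U376.AK.Geo

set_option autoImplicit false

/-! The correlation of two primes. -/

namespace Pool.Agent.U376.AK

open Finset
open Pool.Agent.N430.PS (G expandR G_nonneg G_le_one)
open Pool.Agent.H730R2.AA (NT)
open Pool.Agent.H730R2.AA.Exp (N_pos)

open Classical in
/-- indicator minus mean -/
noncomputable def Rr (B : ℤ) (e a : ℕ) (b c : ℤ) (p k : ℕ) : ℝ :=
  (if orderOf ((B * (b * (a : ℤ) ^ k + c) ^ e : ℤ) : ZMod p) = p - 1 then (1 : ℝ) else 0) - G B e p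

/-- `p` divides `b a ^ k + c` -/
noncomputable def hit (a : ℕ) (b c : ℤ) (p k : ℕ) : ℝ := if (p : ℤ) ∣ b * (a : ℤ) ^ k + c then 1 else 0

lemma hit_nonneg (a : ℕ) (b c : ℤ) (p k : ℕ) : 0 ≤ hit a b c p k := by
  unfold hit; split_ifs <;> norm_num

lemma hit_le (a : ℕ) (b c : ℤ) (p k : ℕ) : hit a b c p k ≤ 1 := by
  unfold hit; split_ifs <;> norm_num

noncomputable def Vv (B : ℤ) (e a : ℕ) (b c : ℤ) (p k : ℕ) : ℝ :=
  Rr B e a b c p k + hit a b c p k * G B e p

lemma Rr_abs (B : ℤ) (e a : ℕ) (b c : ℤ) (p k : ℕ) (hp : p.Prime) : |Rr B e a b c p k| ≤ 1 := by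
  have h0 := G_nonneg B e p hp.one_le
  have h1 := G_le_one B e p hp
  unfold Rr
  split_ifs <;> rw [abs_le] <;> constructor <;> linarith

lemma Vv_abs (B : ℤ) (e a : ℕ) (he : e ≠ 0) (b c : ℤ) (p k : ℕ) (hp : p.Prime) : |Vv B e a b c p k| ≤ 1 := by
  have h0 := G_nonneg B e p hp.one_le
  have h1 := G_le_one B e p hp
  have : Fact p.Prime := ⟨hp⟩
  unfold Vv Rr hit
  by_cases h : (p : ℤ) ∣ b * (a : ℤ) ^ k + c
  · have h2 : ((B * (b * (a : ℤ) ^ k + c) ^ e : ℤ) : ZMod p) = 0 := by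
      rw [ZMod.intCast_zmod_eq_zero_iff_dvd]
      exact Dvd.dvd.mul_left (dvd_pow h he) B
    have h3 : ¬ (orderOf ((B * (b * (a : ℤ) ^ k + c) ^ e : ℤ) : ZMod p) = p - 1) := by
      rw [h2, orderOf_zero]
      have := N_pos (p := p)
      omega
    rw [if_neg h3, if_pos h]
    simp
  · rw [if_neg h, zero_mul, add_zero]
    split_ifs <;> rw [abs_le] <;> constructor <;> linarith

lemma expV (B : ℤ) (e a : ℕ) (he : e ≠ 0) (b c : ℤ) (p : ℕ) [Fact p.Prime] :
    ∃ β : DirichletCharacter ℂ p → ℂ,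
      (∀ k : ℕ, ((Vv B e a b c p k : ℝ) : ℂ) = ∑ χ ∈ NT p, β χ * χ ((b : ZMod p) * (a : ZMod p) ^ k + (c : ZMod p))) ∧
      ∑ χ, ‖β χ‖ ≤ ((p - 1).divisors.card : ℝ) := by
  classical
  obtain ⟨β, h1, h2, -⟩ := expandR p B e he
  refine ⟨β, fun k => ?_, h2⟩
  obtain ⟨m, hm⟩ : ∃ m : ℕ, m = ((b * (a : ℤ) ^ k + c : ℤ) : ZMod p).val := ⟨_, rfl⟩
  have hmz : (m : ZMod p) = ((b * (a : ℤ) ^ k + c : ℤ) : ZMod p) := by
    rw [hm]; exact ZMod.natCast_zmod_val _
  have h3 := h1 m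
  have h4 : ((B * (m : ℤ) ^ e : ℤ) : ZMod p) = ((B * (b * (a : ℤ) ^ k + c) ^ e : ℤ) : ZMod p) := by
    push_cast
    rw [hmz]
    push_cast
    rfl
  have h5 : p ∣ m ↔ (p : ℤ) ∣ b * (a : ℤ) ^ k + c := by
    rw [← ZMod.natCast_eq_zero_iff, hmz, ZMod.intCast_zmod_eq_zero_iff_dvd]
  have h6 : (m : ZMod p) = (b : ZMod p) * (a : ZMod p) ^ k + (c : ZMod p) := by
    rw [hmz]; push_cast; rfl
  rw [h4, h6] at h3
  unfold Vv Rr hit
  have h7 : ∑ χ ∈ NT p, β χ * χ ((b : ZMod p) * (a : ZMod p) ^ k + (c : ZMod p)) =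
      (if orderOf ((B * (b * (a : ℤ) ^ k + c) ^ e : ℤ) : ZMod p) = p - 1 then (1 : ℂ) else 0) -
        (if (p : ℤ) ∣ b * (a : ℤ) ^ k + c then 0 else ((G B e p : ℝ) : ℂ)) := by
    rw [eq_sub_iff_add_eq, add_comm]
    rw [h3]
    congr 1
    by_cases h : p ∣ m
    · rw [if_pos h, if_pos (h5.1 h)]
    · rw [if_neg h, if_neg (fun h' => h (h5.2 h'))]
  rw [h7]
  push_cast
  split_ifs <;> simp

/-- the number of hits -/
lemma hit_sum (a : ℕ) (b c : ℤ) (p K : ℕ) [Fact p.Prime] (ha : ¬ p ∣ a) (hb : ¬ (p : ℤ) ∣ b) :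
    ∑ k ∈ range K, hit a b c p k ≤ (K : ℝ) / orderOf (a : ZMod p) + 1 := by
  classical
  have hu : IsUnit (a : ZMod p) := by
    rw [isUnit_iff_ne_zero, Ne, ZMod.natCast_eq_zero_iff]
    exact ha
  obtain ⟨α, hα⟩ := hu
  have ho : 0 < orderOf (a : ZMod p) := by
    rw [← hα, orderOf_units]; exact orderOf_pos α
  obtain ⟨t, ht⟩ : ∃ t, t = orderOf (a : ZMod p) := ⟨_, rfl⟩
  rw [← ht] at ho ⊢
  unfold hit
  rw [← sum_filter, sum_const, nsmul_eq_mul, mul_one]
  have h1 : ((range K).filter (fun k => (p : ℤ) ∣ b * (a : ℤ) ^ k + c)).card ≤ K / t + 1 := by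
    rw [← card_range (K / t + 1)]
    apply card_le_card_of_injOn (fun k => k / t)
    · intro k hk
      rw [mem_coe, mem_filter, mem_range] at hk
      rw [mem_coe, mem_range]
      exact Nat.lt_succ_of_le (Nat.div_le_div_right hk.1.le)
    · intro k hk j hj h
      rw [mem_coe, mem_filter] at hk hj
      have e1 : (a : ZMod p) ^ k = (a : ZMod p) ^ j := by
        have f1 := (ZMod.intCast_zmod_eq_zero_iff_dvd _ p).2 hk.2
        have f2 := (ZMod.intCast_zmod_eq_zero_iff_dvd _ p).2 hj.2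
        push_cast at f1 f2
        have := f1.trans f2.symm
        have hb0 : (b : ZMod p) ≠ 0 := by rwa [Ne, ZMod.intCast_zmod_eq_zero_iff_dvd]
        exact mul_left_cancel₀ hb0 (add_right_cancel this)
      rw [← hα, ← Units.val_pow_eq_pow_val, ← Units.val_pow_eq_pow_val] at e1
      have e2 := Units.ext e1
      rw [pow_eq_pow_iff_modEq] at e2
      have e3 : orderOf α = t := by rw [ht, ← hα, orderOf_units]
      rw [e3] at e2
      have h' : k / t = j / t := h
      have e4 : k % t = j % t := e2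
      rw [← Nat.div_add_mod k t, ← Nat.div_add_mod j t, h', e4]
  calc ((((range K).filter (fun k => (p : ℤ) ∣ b * (a : ℤ) ^ k + c)).card : ℕ) : ℝ)
      ≤ ((K / t + 1 : ℕ) : ℝ) := by exact_mod_cast h1
    _ ≤ (K : ℝ) / t + 1 := by
        push_cast
        have : ((K / t : ℕ) : ℝ) ≤ (K : ℝ) / t := Nat.cast_div_le
        linarith

theorem pair (B : ℤ) (e a : ℕ) (he : e ≠ 0) (b c : ℤ) (p q K : ℕ) [Fact p.Prime] [Fact q.Prime]
    (hpa : ¬ p ∣ a) (hqa : ¬ q ∣ a) (hpb : ¬ (p : ℤ) ∣ b) (hqb : ¬ (q : ℤ) ∣ b)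
    (hpc : ¬ (p : ℤ) ∣ c) (hqc : ¬ (q : ℤ) ∣ c) :
    |∑ k ∈ range K, Rr B e a b c p k * Rr B e a b c q k| ≤
      ((p - 1).divisors.card : ℝ) * ((q - 1).divisors.card : ℝ) *
        ((K / (Nat.lcm (orderOf (a : ZMod p)) (orderOf (a : ZMod q)) : ℕ) + 1 +
          Real.log (Nat.lcm (orderOf (a : ZMod p)) (orderOf (a : ZMod q)) : ℕ)) *
            (√(p : ℝ) * √(q : ℝ))) +
      (2 * ((K : ℝ) / orderOf (a : ZMod p) + 1) + ((K : ℝ) / orderOf (a : ZMod q) + 1)) := by
  classical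
  have hp := Fact.out (p := p.Prime)
  have hq := Fact.out (p := q.Prime)
  obtain ⟨α, hα⟩ : IsUnit (a : ZMod p) := by
    rw [isUnit_iff_ne_zero, Ne, ZMod.natCast_eq_zero_iff]
    exact hpa
  obtain ⟨γ, hγ⟩ : IsUnit (a : ZMod q) := by
    rw [isUnit_iff_ne_zero, Ne, ZMod.natCast_eq_zero_iff]
    exact hqa
  obtain ⟨β₁, e1, s1⟩ := expV B e a he b c p
  obtain ⟨β₂, e2, s2⟩ := expV B e a he b c q
  obtain ⟨T, hT⟩ : ∃ T, T = Nat.lcm (orderOf (a : ZMod p)) (orderOf (a : ZMod q)) := ⟨_, rfl⟩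
  rw [← hT]
  have hT' : T = Nat.lcm (orderOf α) (orderOf γ) := by
    rw [hT, ← hα, ← hγ, orderOf_units, orderOf_units]
  have hc1 : (c : ZMod p) ≠ 0 := by
    rw [Ne, ZMod.intCast_zmod_eq_zero_iff_dvd]; exact hpc
  have hc2 : (c : ZMod q) ≠ 0 := by
    rw [Ne, ZMod.intCast_zmod_eq_zero_iff_dvd]; exact hqc
  obtain ⟨M, hM⟩ : ∃ M : ℝ, M = (K / (T : ℝ) + 1 + Real.log T) * (√(p : ℝ) * √(q : ℝ)) := ⟨_, rfl⟩
  have hM0 : 0 ≤ M := by
    have : 0 ≤ Real.log (T : ℝ) := Real.log_natCast_nonneg T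
    rw [hM]; positivity
  have hVV : |∑ k ∈ range K, Vv B e a b c p k * Vv B e a b c q k| ≤
      ((p - 1).divisors.card : ℝ) * ((q - 1).divisors.card : ℝ) * M := by
    have h1 : ((∑ k ∈ range K, Vv B e a b c p k * Vv B e a b c q k : ℝ) : ℂ) =
        ∑ χ ∈ NT p, ∑ φ ∈ NT q, β₁ χ * β₂ φ *
          ∑ k ∈ range K, χ ((b : ZMod p) * (a : ZMod p) ^ k + (c : ZMod p)) * φ ((b : ZMod q) * (a : ZMod q) ^ k + (c : ZMod q)) := by
      have g1 : ∀ k ∈ range K, ((Vv B e a b c p k * Vv B e a b c q k : ℝ) : ℂ) =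
          ∑ χ ∈ NT p, ∑ φ ∈ NT q, β₁ χ * β₂ φ *
            (χ ((b : ZMod p) * (a : ZMod p) ^ k + (c : ZMod p)) * φ ((b : ZMod q) * (a : ZMod q) ^ k + (c : ZMod q))) := by
        intro k _
        rw [Complex.ofReal_mul, e1 k, e2 k, sum_mul_sum]
        refine sum_congr rfl fun χ _ => sum_congr rfl fun φ _ => by ring
      rw [Complex.ofReal_sum, sum_congr rfl g1, sum_comm]
      refine sum_congr rfl fun χ _ => ?_
      rw [sum_comm]
      refine sum_congr rfl fun φ _ => ?_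
      rw [mul_sum]
    have h2 : |∑ k ∈ range K, Vv B e a b c p k * Vv B e a b c q k| =
        ‖((∑ k ∈ range K, Vv B e a b c p k * Vv B e a b c q k : ℝ) : ℂ)‖ := by
      rw [Complex.norm_real, Real.norm_eq_abs]
    rw [h2, h1]
    calc _ ≤ ∑ χ ∈ NT p, ∑ φ ∈ NT q, ‖β₁ χ‖ * ‖β₂ φ‖ * M := by
          refine (norm_sum_le _ _).trans (sum_le_sum fun χ hχ => (norm_sum_le _ _).trans
            (sum_le_sum fun φ hφ => ?_))
          rw [norm_mul, norm_mul]
          refine mul_le_mul_of_nonneg_left ?_ (by positivity)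
          rw [← hα, ← hγ, hM]
          have m1 : χ ≠ 1 := by
            unfold NT at hχ; simpa using hχ
          have m2 : φ ≠ 1 := by
            unfold NT at hφ; simpa using hφ
          have hb1 : (b : ZMod p) ≠ 0 := by rwa [Ne, ZMod.intCast_zmod_eq_zero_iff_dvd]
          have hb2 : (b : ZMod q) ≠ 0 := by rwa [Ne, ZMod.intCast_zmod_eq_zero_iff_dvd]
          have hh := pair_sum' α γ T K hT' ((b : ZMod p)⁻¹ * (c : ZMod p)) ((b : ZMod q)⁻¹ * (c : ZMod q))
            (mul_ne_zero (inv_ne_zero hb1) hc1) (mul_ne_zero (inv_ne_zero hb2) hc2) χ φ m1 m2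
          refine le_trans (le_of_eq_of_le ?_ (mul_le_of_le_one_left (norm_nonneg _)
            (show ‖χ (b : ZMod p) * φ (b : ZMod q)‖ ≤ 1 from ?_))) hh
          · rw [← norm_mul, mul_sum]
            congr 1
            refine sum_congr rfl fun k _ => ?_
            have r1 : (b : ZMod p) * (α : ZMod p) ^ k + (c : ZMod p) =
                (b : ZMod p) * ((α : ZMod p) ^ k + (b : ZMod p)⁻¹ * (c : ZMod p)) := by
              field_simp
            have r2 : (b : ZMod q) * (γ : ZMod q) ^ k + (c : ZMod q) =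
                (b : ZMod q) * ((γ : ZMod q) ^ k + (b : ZMod q)⁻¹ * (c : ZMod q)) := by
              field_simp
            rw [r1, r2, map_mul, map_mul]
            ring
          · rw [norm_mul]
            calc _ ≤ (1 : ℝ) * 1 := mul_le_mul (DirichletCharacter.norm_le_one χ _)
                  (DirichletCharacter.norm_le_one φ _) (norm_nonneg _) zero_le_one
              _ = 1 := one_mul 1
      _ = (∑ χ ∈ NT p, ‖β₁ χ‖) * (∑ φ ∈ NT q, ‖β₂ φ‖) * M := by
          rw [sum_mul_sum, sum_mul]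
          refine sum_congr rfl fun χ _ => ?_
          rw [sum_mul]
      _ ≤ _ := by
          have f1 : ∑ χ ∈ NT p, ‖β₁ χ‖ ≤ ((p - 1).divisors.card : ℝ) :=
            (sum_le_sum_of_subset_of_nonneg (subset_univ _) fun _ _ _ => norm_nonneg _).trans s1
          have f2 : ∑ φ ∈ NT q, ‖β₂ φ‖ ≤ ((q - 1).divisors.card : ℝ) :=
            (sum_le_sum_of_subset_of_nonneg (subset_univ _) fun _ _ _ => norm_nonneg _).trans s2
          have f3 : 0 ≤ ∑ φ ∈ NT q, ‖β₂ φ‖ := sum_nonneg fun _ _ => norm_nonneg _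
          gcongr
  have hdiff : |∑ k ∈ range K, Rr B e a b c p k * Rr B e a b c q k -
      ∑ k ∈ range K, Vv B e a b c p k * Vv B e a b c q k| ≤
      2 * ((K : ℝ) / orderOf (a : ZMod p) + 1) + ((K : ℝ) / orderOf (a : ZMod q) + 1) := by
    rw [← sum_sub_distrib]
    refine (abs_sum_le_sum_abs _ _).trans ?_
    have g1 : ∀ k ∈ range K, |Rr B e a b c p k * Rr B e a b c q k - Vv B e a b c p k * Vv B e a b c q k| ≤
        2 * hit a b c p k + hit a b c q k := by
      intro k _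
      have v1 := Vv_abs B e a he b c p k hp
      have v2 := Vv_abs B e a he b c q k hq
      have g0 := G_nonneg B e p hp.one_le
      have g1 := G_le_one B e p hp
      have g2 := G_nonneg B e q hq.one_le
      have g3 := G_le_one B e q hq
      have h0 := hit_nonneg a b c p k
      have h1 := hit_le a b c p k
      have h2 := hit_nonneg a b c q k
      have h3 := hit_le a b c q k
      have r1 : Rr B e a b c p k = Vv B e a b c p k - hit a b c p k * G B e p := by unfold Vv; ring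
      have r2 : Rr B e a b c q k = Vv B e a b c q k - hit a b c q k * G B e q := by unfold Vv; ring
      obtain ⟨x, hx⟩ : ∃ x, x = hit a b c p k * G B e p := ⟨_, rfl⟩
      obtain ⟨y, hy⟩ : ∃ y, y = hit a b c q k * G B e q := ⟨_, rfl⟩
      have x0 : 0 ≤ x := by rw [hx]; positivity
      have x1 : x ≤ hit a b c p k := by rw [hx]; exact mul_le_of_le_one_right h0 g1
      have y0 : 0 ≤ y := by rw [hy]; positivity
      have y1 : y ≤ hit a b c q k := by rw [hy]; exact mul_le_of_le_one_right h2 g3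
      rw [r1, r2, ← hx, ← hy]
      have e3 : (Vv B e a b c p k - x) * (Vv B e a b c q k - y) - Vv B e a b c p k * Vv B e a b c q k =
          -(x * Vv B e a b c q k) - y * Vv B e a b c p k + x * y := by ring
      rw [e3]
      have a1 : |x * Vv B e a b c q k| ≤ hit a b c p k := by
        rw [abs_mul, abs_of_nonneg x0]
        calc x * |Vv B e a b c q k| ≤ x * 1 := mul_le_mul_of_nonneg_left v2 x0
          _ ≤ _ := by linarith
      have a2 : |y * Vv B e a b c p k| ≤ hit a b c q k := by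
        rw [abs_mul, abs_of_nonneg y0]
        calc y * |Vv B e a b c p k| ≤ y * 1 := mul_le_mul_of_nonneg_left v1 y0
          _ ≤ _ := by linarith
      have a3 : x * y ≤ hit a b c p k := by
        calc x * y ≤ x * 1 := mul_le_mul_of_nonneg_left (y1.trans h3) x0
          _ ≤ _ := by linarith
      have a4 : 0 ≤ x * y := mul_nonneg x0 y0
      rw [abs_le] at a1 a2 ⊢
      constructor <;> linarith [a1.1, a1.2, a2.1, a2.2]
    refine (sum_le_sum g1).trans ?_
    rw [sum_add_distrib, ← mul_sum]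
    have f1 := hit_sum a b c p K hpa hpb
    have f2 := hit_sum a b c q K hqa hqb
    linarith
  have hfin : |∑ k ∈ range K, Rr B e a b c p k * Rr B e a b c q k| ≤
      |∑ k ∈ range K, Vv B e a b c p k * Vv B e a b c q k| +
      |∑ k ∈ range K, Rr B e a b c p k * Rr B e a b c q k -
      ∑ k ∈ range K, Vv B e a b c p k * Vv B e a b c q k| := by
    have := abs_add_le (∑ k ∈ range K, Vv B e a b c p k * Vv B e a b c q k)
      (∑ k ∈ range K, Rr B e a b c p k * Rr B e a b c q k -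
      ∑ k ∈ range K, Vv B e a b c p k * Vv B e a b c q k)
    rwa [add_sub_cancel] at this
  rw [← hM]
  linarith

end Pool.Agent.U376.AK
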