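import Mathlib
import Pool.Agent.U376.AK.Good
import Pool.Agent.U376.AK.Pair

set_option autoImplicit false

/-! The second moment. -/

namespace Pool.Agent.U376.AK

open Finset Filter Topology

lemma gcd_sum (y : ℕ) (hy : 1 ≤ y) :
    ∑ p ∈ PY y, ∑ q ∈ PY y, (Nat.gcd (p - 1) (q - 1) : ℝ) ≤ (y : ℝ) ^ 2 * (1 + Real.log y) := by
  classical
  have h1 : ∀ p ∈ PY y, ∀ q ∈ PY y, (Nat.gcd (p - 1) (q - 1) : ℝ) ≤
      ∑ d ∈ Icc 1 y, (d : ℝ) * ((if d ∣ p - 1 then 1 else 0) * (if d ∣ q - 1 then 1 else 0)) := by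
    intro p hp q hq
    rw [mem_PY] at hp hq
    have hp2 := hp.1.two_le
    have hd1 := Nat.gcd_dvd_left (p - 1) (q - 1)
    have hd2 := Nat.gcd_dvd_right (p - 1) (q - 1)
    have hle := Nat.le_of_dvd (by omega) hd1
    have hpos := Nat.pos_of_dvd_of_pos hd1 (by omega)
    have hmem : Nat.gcd (p - 1) (q - 1) ∈ Icc 1 y := mem_Icc.2 ⟨hpos, by omega⟩
    refine le_trans (le_of_eq ?_) (single_le_sum (f := fun d : ℕ => (d : ℝ) *
      ((if d ∣ p - 1 then 1 else 0) * (if d ∣ q - 1 then 1 else 0))) (fun d _ => ?_) hmem)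
    · rw [if_pos hd1, if_pos hd2]; ring
    · split_ifs <;> simp
  have h2 : ∀ d ∈ Icc 1 y, ∑ p ∈ PY y, (if d ∣ p - 1 then (1 : ℝ) else 0) ≤ y / d := by
    intro d hd
    rw [mem_Icc] at hd
    rw [← sum_filter, sum_const, nsmul_eq_mul, mul_one]
    have h3 : ((PY y).filter (fun p => d ∣ p - 1)).card ≤ y / d := by
      rw [← Nat.Ioc_filter_dvd_card_eq_div]
      apply card_le_card_of_injOn (fun p => p - 1)
      · intro p hp
        rw [mem_coe, mem_filter, mem_PY] at hp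
        have := hp.1.1.two_le
        rw [mem_coe, mem_filter, mem_Ioc]
        beta_reduce
        exact ⟨⟨by omega, by omega⟩, hp.2⟩
      · intro p hp q hq h
        rw [mem_coe, mem_filter, mem_PY] at hp hq
        have := hp.1.1.two_le
        have := hq.1.1.two_le
        have h' : p - 1 = q - 1 := h
        omega
    calc ((((PY y).filter (fun p => d ∣ p - 1)).card : ℕ) : ℝ) ≤ ((y / d : ℕ) : ℝ) := by
          exact_mod_cast h3
      _ ≤ _ := Nat.cast_div_le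
  calc ∑ p ∈ PY y, ∑ q ∈ PY y, (Nat.gcd (p - 1) (q - 1) : ℝ)
      ≤ ∑ p ∈ PY y, ∑ q ∈ PY y, ∑ d ∈ Icc 1 y, (d : ℝ) *
        ((if d ∣ p - 1 then 1 else 0) * (if d ∣ q - 1 then 1 else 0)) :=
        sum_le_sum fun p hp => sum_le_sum fun q hq => h1 p hp q hq
    _ = ∑ d ∈ Icc 1 y, (d : ℝ) * ((∑ p ∈ PY y, (if d ∣ p - 1 then (1 : ℝ) else 0)) *
        (∑ q ∈ PY y, (if d ∣ q - 1 then (1 : ℝ) else 0))) := by
        have e1 : ∀ p ∈ PY y, ∑ q ∈ PY y, ∑ d ∈ Icc 1 y, (d : ℝ) *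
            ((if d ∣ p - 1 then 1 else 0) * (if d ∣ q - 1 then 1 else 0)) =
            ∑ d ∈ Icc 1 y, ∑ q ∈ PY y, (d : ℝ) *
            ((if d ∣ p - 1 then 1 else 0) * (if d ∣ q - 1 then 1 else 0)) := fun p _ => sum_comm
        rw [sum_congr rfl e1, sum_comm]
        refine sum_congr rfl fun d _ => ?_
        rw [sum_mul_sum, mul_sum]
        refine sum_congr rfl fun p _ => ?_
        rw [mul_sum]
    _ ≤ ∑ d ∈ Icc 1 y, (d : ℝ) * ((y / d) * (y / d)) := by
        refine sum_le_sum fun d hd => ?_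
        have h3 := h2 d hd
        have h4 : 0 ≤ ∑ p ∈ PY y, (if d ∣ p - 1 then (1 : ℝ) else 0) :=
          sum_nonneg fun _ _ => by split_ifs <;> norm_num
        have h5 : (0 : ℝ) ≤ y / d := by positivity
        gcongr
    _ = (y : ℝ) ^ 2 * ∑ d ∈ Icc 1 y, (d : ℝ)⁻¹ := by
        rw [mul_sum]
        refine sum_congr rfl fun d hd => ?_
        rw [mem_Icc] at hd
        have : (d : ℝ) ≠ 0 := by
          have : 0 < d := by omega
          positivity
        field_simp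
    _ ≤ _ := by
        have h6 := harmonic_le_one_add_log y
        rw [harmonic_eq_sum_Icc] at h6
        push_cast at h6
        gcongr

/-- the second moment over the good primes -/
lemma second (B : ℤ) (e a : ℕ) (he : e ≠ 0) (b c : ℤ) (y K : ℕ) (hy : 3 ≤ y) :
    ∑ k ∈ range K, (∑ p ∈ GoodP a (b * c) 10 y, Rr B e a b c p k) ^ 2 ≤
      y * K + K * ((y : ℝ) ^ 2 * (1 + Real.log y)) / Real.log y ^ 14 +
        (3 * Real.log y ^ 7 * (y : ℝ) ^ 3 + 3 * (y : ℝ) ^ 2 * (K / √(y : ℝ) + 1)) := by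
  classical
  obtain ⟨l, hl⟩ : ∃ l, l = Real.log (y : ℝ) := ⟨_, rfl⟩
  obtain ⟨s, hs⟩ : ∃ s, s = √(y : ℝ) := ⟨_, rfl⟩
  have hyr : (3 : ℝ) ≤ y := by exact_mod_cast hy
  have hl1 : 1 < l := by
    rw [hl, Real.lt_log_iff_exp_lt (by linarith)]
    have := Real.exp_one_lt_d9
    linarith
  have hss : s * s = y := by rw [hs]; exact Real.mul_self_sqrt (by linarith)
  have hs0 : 0 < s := by rw [hs]; exact Real.sqrt_pos.2 (by linarith)
  obtain ⟨Q, hQ⟩ : ∃ Q, Q = GoodP a (b * c) 10 y := ⟨_, rfl⟩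
  rw [← hl, ← hs, ← hQ]
  have hQmem : ∀ p ∈ Q, p.Prime ∧ p ≤ y ∧ ¬ p ∣ a ∧ ¬ (p : ℤ) ∣ b * c ∧
      ((p - 1).divisors.card : ℝ) ≤ l ^ 3 ∧ s * l ^ 10 ≤ orderOf (a : ZMod p) := by
    intro p hp
    rw [hQ, GoodP, mem_filter, mem_PY, ← hl, ← hs] at hp
    exact ⟨hp.1.1, hp.1.2, hp.2.1, hp.2.2.1, hp.2.2.2.1, hp.2.2.2.2⟩
  have hQsub : Q ⊆ PY y := by rw [hQ, GoodP]; exact filter_subset _ _
  have hPYc : (PY y).card ≤ y := by
    unfold PY
    exact (card_filter_le _ _).trans (by rw [Nat.card_Icc]; omega)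
  have hQc : (Q.card : ℝ) ≤ y := by
    have := (card_le_card hQsub).trans hPYc
    exact_mod_cast this
  have h1 : ∑ k ∈ range K, (∑ p ∈ Q, Rr B e a b c p k) ^ 2 =
      ∑ p ∈ Q, ∑ q ∈ Q, ∑ k ∈ range K, Rr B e a b c p k * Rr B e a b c q k := by
    have e1 : ∀ k ∈ range K, (∑ p ∈ Q, Rr B e a b c p k) ^ 2 =
        ∑ p ∈ Q, ∑ q ∈ Q, Rr B e a b c p k * Rr B e a b c q k := by
      intro k _
      rw [sq, sum_mul_sum]
    rw [sum_congr rfl e1, sum_comm]
    refine sum_congr rfl fun p _ => ?_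
    rw [sum_comm]
  have h2 : ∀ p ∈ Q, ∀ q ∈ Q, ∑ k ∈ range K, Rr B e a b c p k * Rr B e a b c q k ≤
      (if p = q then (K : ℝ) else 0) + (K * (Nat.gcd (p - 1) (q - 1) : ℝ) / l ^ 14 +
        (3 * l ^ 7 * (y : ℝ) + 3 * (K / s + 1))) := by
    intro p hp q hq
    obtain ⟨hp1, hp2, hp3, hp4, hp5, hp6⟩ := hQmem p hp
    obtain ⟨hq1, hq2, hq3, hq4, hq5, hq6⟩ := hQmem q hq
    have hlow : 0 ≤ K * (Nat.gcd (p - 1) (q - 1) : ℝ) / l ^ 14 +
        (3 * l ^ 7 * (y : ℝ) + 3 * (K / s + 1)) := by positivity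
    by_cases hpq : p = q
    · subst hpq
      rw [if_pos rfl]
      have e1 : ∑ k ∈ range K, Rr B e a b c p k * Rr B e a b c p k ≤ ∑ _k ∈ range K, (1 : ℝ) := by
        refine sum_le_sum fun k _ => ?_
        have := Rr_abs B e a b c p k hp1
        rw [abs_le] at this
        nlinarith [this.1, this.2]
      rw [sum_const, card_range, nsmul_eq_mul, mul_one] at e1
      linarith
    · rw [if_neg hpq, zero_add]
      have : Fact p.Prime := ⟨hp1⟩
      have : Fact q.Prime := ⟨hq1⟩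
      have hpair := (le_abs_self _).trans (pair B e a he b c p q K hp3 hq3 (fun h => hp4 (h.mul_right c)) (fun h => hq4 (h.mul_right c))
        (fun h => hp4 (h.mul_left b)) (fun h => hq4 (h.mul_left b)))
      refine hpair.trans ?_
      obtain ⟨t, ht⟩ : ∃ t, t = orderOf (a : ZMod p) := ⟨_, rfl⟩
      obtain ⟨u, hu⟩ : ∃ u, u = orderOf (a : ZMod q) := ⟨_, rfl⟩
      rw [← ht] at hp6 ⊢
      rw [← hu] at hq6 ⊢
      have hsl : 0 < s * l ^ 10 := by positivity
      have ht0 : (0 : ℝ) < t := lt_of_lt_of_le hsl hp6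
      have hu0 : (0 : ℝ) < u := lt_of_lt_of_le hsl hq6
      have ht0' : 0 < t := by exact_mod_cast ht0
      have hu0' : 0 < u := by exact_mod_cast hu0
      have hap : (a : ZMod p) ≠ 0 := by rwa [Ne, ZMod.natCast_eq_zero_iff]
      have haq : (a : ZMod q) ≠ 0 := by rwa [Ne, ZMod.natCast_eq_zero_iff]
      have htd : t ∣ p - 1 := by rw [ht]; exact ZMod.orderOf_dvd_card_sub_one hap
      have hud : u ∣ q - 1 := by rw [hu]; exact ZMod.orderOf_dvd_card_sub_one haq
      have hp1' := hp1.two_le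
      have hq1' := hq1.two_le
      have htp : t ≤ y := (Nat.le_of_dvd (by omega) htd).trans (by omega)
      have huq : u ≤ y := (Nat.le_of_dvd (by omega) hud).trans (by omega)
      have hg : Nat.gcd t u ∣ Nat.gcd (p - 1) (q - 1) :=
        Nat.dvd_gcd ((Nat.gcd_dvd_left t u).trans htd) ((Nat.gcd_dvd_right t u).trans hud)
      have hg0 : 0 < Nat.gcd (p - 1) (q - 1) := Nat.gcd_pos_of_pos_left _ (by omega)
      have hgle := Nat.le_of_dvd hg0 hg
      obtain ⟨g, hgdef⟩ : ∃ g, g = Nat.gcd (p - 1) (q - 1) := ⟨_, rfl⟩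
      rw [← hgdef] at hg0 hgle ⊢
      obtain ⟨T, hT⟩ : ∃ T, T = Nat.lcm t u := ⟨_, rfl⟩
      rw [← hT]
      have hT0 : 0 < T := by rw [hT]; exact Nat.lcm_pos ht0' hu0'
      have hgl : t * u ≤ g * T := by
        rw [← Nat.gcd_mul_lcm t u, ← hT]
        exact Nat.mul_le_mul_right T hgle
      have hTle : T ≤ y ^ 2 := by
        have : T ≤ t * u := by
          rw [hT]; exact Nat.le_of_dvd (Nat.mul_pos ht0' hu0') (Nat.lcm_dvd (dvd_mul_right t u) (dvd_mul_left u t))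
        calc T ≤ t * u := this
          _ ≤ y * y := Nat.mul_le_mul htp huq
          _ = y ^ 2 := by ring
      have hTr : (0 : ℝ) < T := by exact_mod_cast hT0
      have hgr : (0 : ℝ) < g := by exact_mod_cast hg0
      have hglr : (t : ℝ) * u ≤ g * T := by exact_mod_cast hgl
      have hpq2 : √(p : ℝ) * √(q : ℝ) ≤ y := by
        rw [← hss, hs]
        have e1 : √(p : ℝ) ≤ √(y : ℝ) := Real.sqrt_le_sqrt (by exact_mod_cast hp2)
        have e2 : √(q : ℝ) ≤ √(y : ℝ) := Real.sqrt_le_sqrt (by exact_mod_cast hq2)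
        gcongr
      have hK0 : (0 : ℝ) ≤ K := Nat.cast_nonneg K
      have m1 : K / (T : ℝ) * (√(p : ℝ) * √(q : ℝ)) ≤ K * g / l ^ 20 := by
        have e1 : (y : ℝ) * l ^ 20 ≤ g * T := by
          calc (y : ℝ) * l ^ 20 = (s * l ^ 10) * (s * l ^ 10) := by rw [← hss]; ring
            _ ≤ (t : ℝ) * u := by gcongr
            _ ≤ _ := hglr
        calc K / (T : ℝ) * (√(p : ℝ) * √(q : ℝ)) ≤ K / (T : ℝ) * y := by gcongr
          _ = K * (y / T) := by ring
          _ ≤ K * (g / l ^ 20) := by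
              apply mul_le_mul_of_nonneg_left _ hK0
              rw [div_le_div_iff₀ hTr (by positivity)]
              exact e1
          _ = K * g / l ^ 20 := by ring
      have m2 : (K : ℝ) / t + 1 ≤ K / s + 1 := by
        have : s ≤ t := by
          refine le_trans ?_ hp6
          exact le_mul_of_one_le_right hs0.le (one_le_pow₀ hl1.le)
        gcongr
      have m3 : (K : ℝ) / u + 1 ≤ K / s + 1 := by
        have : s ≤ u := by
          refine le_trans ?_ hq6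
          exact le_mul_of_one_le_right hs0.le (one_le_pow₀ hl1.le)
        gcongr
      have m4 : (T : ℝ) ≤ (y : ℝ) ^ 2 := by exact_mod_cast hTle
      have m4' : Real.log T ≤ 2 * l := by
        have := Real.log_le_log hTr m4
        rw [Real.log_pow, ← hl] at this
        push_cast at this
        exact this
      have m4'' : 0 ≤ Real.log (T : ℝ) := Real.log_natCast_nonneg T
      have m5 : ((p - 1).divisors.card : ℝ) * ((q - 1).divisors.card : ℝ) ≤ l ^ 6 := by
        calc _ ≤ l ^ 3 * l ^ 3 := by gcongr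
          _ = l ^ 6 := by ring
      have m8 : (K / (T : ℝ) + 1 + Real.log T) * (√(p : ℝ) * √(q : ℝ)) ≤ K * g / l ^ 20 + 3 * l * y := by
        have e1 : (K / (T : ℝ) + 1 + Real.log T) * (√(p : ℝ) * √(q : ℝ)) =
            K / (T : ℝ) * (√(p : ℝ) * √(q : ℝ)) + (1 + Real.log T) * (√(p : ℝ) * √(q : ℝ)) := by ring
        have e2 : (1 + Real.log T) * (√(p : ℝ) * √(q : ℝ)) ≤ (3 * l) * y := by
          have : 1 + Real.log T ≤ 3 * l := by linarith
          gcongr
        linarith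
      have m9 : 0 ≤ (K / (T : ℝ) + 1 + Real.log T) * (√(p : ℝ) * √(q : ℝ)) := by positivity
      have m6 : ((p - 1).divisors.card : ℝ) * ((q - 1).divisors.card : ℝ) *
          ((K / (T : ℝ) + 1 + Real.log T) * (√(p : ℝ) * √(q : ℝ))) ≤ l ^ 6 * (K * g / l ^ 20 + 3 * l * y) := by
        gcongr
      have m7 : l ^ 6 * (K * g / l ^ 20 + 3 * l * y) = K * g / l ^ 14 + 3 * l ^ 7 * y := by
        have : l ≠ 0 := by linarith
        field_simp
      linarith
  rw [h1]
  calc ∑ p ∈ Q, ∑ q ∈ Q, ∑ k ∈ range K, Rr B e a b c p k * Rr B e a b c q k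
      ≤ ∑ p ∈ Q, ∑ q ∈ Q, ((if p = q then (K : ℝ) else 0) +
        (K * (Nat.gcd (p - 1) (q - 1) : ℝ) / l ^ 14 + (3 * l ^ 7 * (y : ℝ) + 3 * (K / s + 1)))) :=
        sum_le_sum fun p hp => sum_le_sum fun q hq => h2 p hp q hq
    _ = ∑ p ∈ Q, (K : ℝ) + ((K / l ^ 14) * ∑ p ∈ Q, ∑ q ∈ Q, (Nat.gcd (p - 1) (q - 1) : ℝ) +
        Q.card * (Q.card * (3 * l ^ 7 * (y : ℝ) + 3 * (K / s + 1)))) := by
        simp only [sum_add_distrib, sum_const, nsmul_eq_mul]
        congr 1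
        · rw [sum_congr rfl fun p hp => by rw [sum_ite_eq, if_pos hp]]
          rw [sum_const, nsmul_eq_mul]
        · congr 1
          · rw [mul_sum]
            refine sum_congr rfl fun p _ => ?_
            rw [mul_sum]
            refine sum_congr rfl fun q _ => by ring
          · ring
    _ ≤ y * K + ((K / l ^ 14) * ((y : ℝ) ^ 2 * (1 + l)) +
        y * (y * (3 * l ^ 7 * (y : ℝ) + 3 * (K / s + 1)))) := by
        have e1 : ∑ p ∈ Q, (K : ℝ) ≤ y * K := by
          rw [sum_const, nsmul_eq_mul]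
          gcongr
        have e2 : ∑ p ∈ Q, ∑ q ∈ Q, (Nat.gcd (p - 1) (q - 1) : ℝ) ≤ (y : ℝ) ^ 2 * (1 + l) := by
          rw [hl]
          refine le_trans ?_ (gcd_sum y (by omega))
          refine (sum_le_sum fun p _ => sum_le_sum_of_subset_of_nonneg hQsub fun _ _ _ =>
            Nat.cast_nonneg _).trans ?_
          exact sum_le_sum_of_subset_of_nonneg hQsub fun _ _ _ => sum_nonneg fun _ _ =>
            Nat.cast_nonneg _
        have e3 : (0 : ℝ) ≤ l ^ 6 * (y : ℝ) ^ 2 + 3 * (K / s + 1) := by positivity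
        gcongr
    _ = _ := by ring

end Pool.Agent.U376.AK
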