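import Mathlib
import Pool.Agent.U376.AK.Mom

set_option autoImplicit false

/-! From one value of `x` to all values of `x`. -/

namespace Pool.Agent.U376.AK

open Finset Filter Topology

lemma ev_pow (n : ℕ) (r : ℝ) (hr : 0 < r) : ∀ᶠ y : ℕ in atTop, (Real.log y) ^ n ≤ (y : ℝ) ^ r := by
  have h1 : (fun x : ℝ => Real.log x ^ n) =o[atTop] fun x : ℝ => x ^ r := by
    have := isLittleO_log_rpow_rpow_atTop (n : ℝ) hr
    refine this.congr' ?_ EventuallyEq.rfl
    filter_upwards with x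
    rw [Real.rpow_natCast]
  have h2 := h1.bound one_pos
  have h3 := tendsto_natCast_atTop_atTop.eventually h2
  filter_upwards [h3, eventually_ge_atTop 1] with y hy hy1
  have hy1' : (1 : ℝ) ≤ y := by exact_mod_cast hy1
  rw [Real.norm_of_nonneg (pow_nonneg (Real.log_nonneg hy1') n), Real.norm_of_nonneg (by positivity),
    one_mul] at hy
  exact hy

open Classical in
lemma cheb (B : ℤ) (e a : ℕ) (he : e ≠ 0) (b c : ℤ) (θ : ℝ) (hθ0 : 0 < θ) (hθ : θ < 1) :
    ∃ Y : ℕ, ∀ y : ℕ, Y ≤ y → ∀ K : ℕ, (y : ℝ) ≤ (K : ℝ) ^ θ → ∀ δ : ℝ, 0 < δ →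
      (((range K).filter (fun k => δ * (y / Real.log y) <
        |∑ p ∈ GoodP a (b * c) 10 y, Rr B e a b c p k|)).card : ℝ) ≤ 4 * K / (δ ^ 2 * Real.log y ^ 8) := by
  have hr : 0 < 1 / θ - 1 := by
    rw [sub_pos, lt_div_iff₀ hθ0]; linarith
  have hlogt : Tendsto (fun y : ℕ => Real.log (y : ℝ)) atTop atTop :=
    Real.tendsto_log_atTop.comp tendsto_natCast_atTop_atTop
  obtain ⟨Y, hY⟩ := eventually_atTop.1 ((ev_log 6 12).and ((ev_pow 20 _ hr).and
    ((hlogt.eventually_ge_atTop 2).and (eventually_ge_atTop 3))))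
  refine ⟨Y, fun y hy K hK δ hδ => ?_⟩
  obtain ⟨e1, e2, e3, e4⟩ := hY y hy
  have hsec := second B e a he b c y K e4
  obtain ⟨l, hl⟩ : ∃ l, l = Real.log (y : ℝ) := ⟨_, rfl⟩
  obtain ⟨s, hs⟩ : ∃ s, s = √(y : ℝ) := ⟨_, rfl⟩
  rw [← hl] at e1 e2 e3 hsec ⊢
  rw [← hs] at e1 hsec
  have hyr : (3 : ℝ) ≤ y := by exact_mod_cast e4
  have hss : s * s = y := by rw [hs]; exact Real.mul_self_sqrt (by linarith)
  have hs0 : 0 < s := by rw [hs]; exact Real.sqrt_pos.2 (by linarith)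
  have hl0 : 0 < l := by linarith
  have hl1 : 1 ≤ l := by linarith
  have hK0 : (0 : ℝ) ≤ K := Nat.cast_nonneg K
  -- K is large
  have hKy : (y : ℝ) * l ^ 20 ≤ K := by
    have f1 : (y : ℝ) ^ (1 / θ) ≤ ((K : ℝ) ^ θ) ^ (1 / θ) :=
      Real.rpow_le_rpow (by linarith) hK (by positivity)
    rw [← Real.rpow_mul hK0, mul_one_div_cancel hθ0.ne', Real.rpow_one] at f1
    refine le_trans ?_ f1
    have f2 : (y : ℝ) ^ (1 / θ) = (y : ℝ) * (y : ℝ) ^ (1 / θ - 1) := by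
      rw [Real.rpow_sub_one (by linarith)]
      field_simp
    rw [f2]
    gcongr
  have hl10 : 0 < l ^ 10 := by positivity
  have hls : l ^ 10 ≤ s := by
    have : l ^ 10 ≤ l ^ 12 := pow_le_pow_right₀ hl1 (by norm_num)
    have h0 : 0 < l ^ 12 := by positivity
    linarith
  have hs1 : 1 ≤ s := le_trans (one_le_pow₀ hl1) hls
  have t1 : (y : ℝ) * K ≤ K * (y : ℝ) ^ 2 / l ^ 10 := by
    rw [le_div_iff₀ hl10]
    have : l ^ 10 ≤ y := by
      rw [← hss]; nlinarith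
    calc (y : ℝ) * K * l ^ 10 ≤ y * K * y := by gcongr
      _ = K * (y : ℝ) ^ 2 := by ring
  have t2 : K * ((y : ℝ) ^ 2 * (1 + l)) / l ^ 14 ≤ K * (y : ℝ) ^ 2 / l ^ 10 := by
    rw [div_le_div_iff₀ (by positivity) hl10]
    have h1 : 1 + l ≤ l ^ 4 := by
      have h2 : 1 + l ≤ l ^ 2 := by nlinarith
      exact h2.trans (pow_le_pow_right₀ hl1 (by norm_num))
    calc K * ((y : ℝ) ^ 2 * (1 + l)) * l ^ 10 ≤ K * ((y : ℝ) ^ 2 * l ^ 4) * l ^ 10 := by gcongr
      _ = K * (y : ℝ) ^ 2 * l ^ 14 := by ring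
  have t3 : 3 * l ^ 7 * (y : ℝ) ^ 3 ≤ K * (y : ℝ) ^ 2 / l ^ 10 := by
    rw [le_div_iff₀ hl10]
    calc 3 * l ^ 7 * (y : ℝ) ^ 3 * l ^ 10 = (y : ℝ) ^ 2 * ((y : ℝ) * (3 * l ^ 17)) := by ring
      _ ≤ (y : ℝ) ^ 2 * ((y : ℝ) * l ^ 20) := by
          have : 3 * l ^ 17 ≤ l ^ 20 := by
            have h1 : 3 ≤ l ^ 3 := by nlinarith [mul_pos hl0 hl0]
            calc 3 * l ^ 17 ≤ l ^ 3 * l ^ 17 := by gcongr
              _ = l ^ 20 := by ring
          gcongr
      _ ≤ (y : ℝ) ^ 2 * K := by gcongr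
      _ = K * (y : ℝ) ^ 2 := by ring
  have t4 : 3 * (y : ℝ) ^ 2 * (K / s + 1) ≤ K * (y : ℝ) ^ 2 / l ^ 10 := by
    have h1 : s ≤ K := by
      have : s ≤ (y : ℝ) * l ^ 20 := by
        have h2 : 1 ≤ l ^ 20 := one_le_pow₀ hl1
        have h3 : s ≤ (y : ℝ) := by rw [← hss]; nlinarith
        nlinarith
      linarith
    have h2 : 1 ≤ (K : ℝ) / s := by rw [le_div_iff₀ hs0]; linarith
    have h3 : (K : ℝ) / s * (6 * l ^ 10) ≤ K := by
      rw [div_mul_eq_mul_div, div_le_iff₀ hs0]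
      have : 6 * l ^ 10 ≤ s := by
        have : l ^ 10 ≤ l ^ 12 := pow_le_pow_right₀ hl1 (by norm_num)
        linarith
      gcongr
    rw [le_div_iff₀ hl10]
    calc 3 * (y : ℝ) ^ 2 * (K / s + 1) * l ^ 10 ≤ 3 * (y : ℝ) ^ 2 * (K / s + K / s) * l ^ 10 := by gcongr
      _ = (K / s * (6 * l ^ 10)) * (y : ℝ) ^ 2 := by ring
      _ ≤ K * (y : ℝ) ^ 2 := by gcongr
  have hM : ∑ k ∈ range K, (∑ p ∈ GoodP a (b * c) 10 y, Rr B e a b c p k) ^ 2 ≤ 4 * (K * (y : ℝ) ^ 2 / l ^ 10) := by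
    linarith
  have hcheb : (((range K).filter (fun k => δ * (y / l) <
        |∑ p ∈ GoodP a (b * c) 10 y, Rr B e a b c p k|)).card : ℝ) * (δ * (y / l)) ^ 2 ≤
        4 * (K * (y : ℝ) ^ 2 / l ^ 10) := by
    refine le_trans ?_ hM
    rw [← nsmul_eq_mul, ← sum_const]
    refine le_trans (sum_le_sum fun k hk => ?_) (sum_le_sum_of_subset_of_nonneg
      (filter_subset (fun k => δ * (y / l) < |∑ p ∈ GoodP a (b * c) 10 y, Rr B e a b c p k|) (range K))
      fun k _ _ => sq_nonneg _)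
    have h1 := (mem_filter.1 hk).2
    rw [← sq_abs (∑ p ∈ GoodP a (b * c) 10 y, Rr B e a b c p k)]
    have : 0 ≤ δ * ((y : ℝ) / l) := by positivity
    exact pow_le_pow_left₀ this h1.le 2
  rw [← le_div_iff₀ (by positivity)] at hcheb
  refine hcheb.trans (le_of_eq ?_)
  field_simp

open Classical in
/-- the general theorem -/
theorem main (B : ℤ) (e a : ℕ) (he : e ≠ 0) (b c : ℤ) (ha : 2 ≤ a) (hb : b ≠ 0) (hc : c ≠ 0) (θ : ℝ) (hθ0 : 0 < θ)
    (hθ : θ < 1) (ε : ℝ) (hε : 0 < ε) (η : ℝ) (hη : 0 < η) :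
    ∃ X : ℕ, ∀ K : ℕ, (((range K).filter (fun k => ∃ x : ℕ, X ≤ x ∧ (x : ℝ) ≤ (K : ℝ) ^ θ ∧
      ε * (x / Real.log x) < |∑ p ∈ PY x, Rr B e a b c p k|)).card : ℝ) ≤ η * K := by
  obtain ⟨Y₁, h1⟩ := cheb B e a he b c θ hθ0 hθ
  obtain ⟨Y₂, h2⟩ := good_density a (b * c) 10 ha (mul_ne_zero hb hc) (by norm_num) (ε / 8) (by positivity)
  obtain ⟨δ, hδ⟩ : ∃ δ, δ = ε / 4 := ⟨_, rfl⟩
  have hδ0 : 0 < δ := by rw [hδ]; positivity
  -- choice of J
  obtain ⟨J, hJ⟩ : ∃ J : ℕ, J = max (max Y₁ Y₂) (max (⌈16 / ε⌉₊ + 4) (⌈4096 / (δ ^ 2 * η)⌉₊ + 1)) := ⟨_, rfl⟩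
  have hJY₁ : Y₁ ≤ J := by rw [hJ]; exact (le_max_left _ _).trans (le_max_left _ _)
  have hJY₂ : Y₂ ≤ J := by rw [hJ]; exact (le_max_right _ _).trans (le_max_left _ _)
  have hJ4 : ⌈16 / ε⌉₊ + 4 ≤ J := by rw [hJ]; exact (le_max_left _ _).trans (le_max_right _ _)
  have hJη : ⌈4096 / (δ ^ 2 * η)⌉₊ + 1 ≤ J := by rw [hJ]; exact (le_max_right _ _).trans (le_max_right _ _)
  have hJε : 16 / ε ≤ J := by
    have e1 := Nat.le_ceil (16 / ε)
    have e2 : ((⌈16 / ε⌉₊ : ℕ) : ℝ) ≤ J := by exact_mod_cast (by omega : ⌈16 / ε⌉₊ ≤ J)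
    linarith
  have hJη' : 4096 / (δ ^ 2 * η) ≤ J := by
    have e1 := Nat.le_ceil (4096 / (δ ^ 2 * η))
    have e2 : ((⌈4096 / (δ ^ 2 * η)⌉₊ : ℕ) : ℝ) ≤ J := by
      exact_mod_cast (by omega : ⌈4096 / (δ ^ 2 * η)⌉₊ ≤ J)
    linarith
  refine ⟨2 ^ (J + 1), fun K => ?_⟩
  -- the grid
  obtain ⟨gp, hgp⟩ : ∃ gp : ℕ → ℕ → ℕ, gp = fun j i => 2 ^ j + (2 ^ j / j ^ 2) * i := ⟨_, rfl⟩
  obtain ⟨E, hE⟩ : ∃ E : ℕ → Finset ℕ, E = fun y : ℕ => if (y : ℝ) ≤ (K : ℝ) ^ θ then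
      (range K).filter (fun k => δ * (y / Real.log y) < |∑ p ∈ GoodP a (b * c) 10 y, Rr B e a b c p k|) else ∅ :=
    ⟨_, rfl⟩
  have hl2a := Real.log_two_gt_d9
  have hl2b := Real.log_two_lt_d9
  have hEc : ∀ y, Y₁ ≤ y → 2 ≤ y → ((E y).card : ℝ) ≤ 4 * K / (δ ^ 2 * Real.log y ^ 8) := by
    intro y hy hy2
    rw [hE]
    beta_reduce
    split_ifs with h
    · exact h1 y hy K h δ hδ0
    · have hly : 0 < Real.log y := Real.log_pos (by exact_mod_cast (by omega : 1 < y))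
      simp only [card_empty, Nat.cast_zero]
      positivity
  have hsub : (range K).filter (fun k => ∃ x : ℕ, 2 ^ (J + 1) ≤ x ∧ (x : ℝ) ≤ (K : ℝ) ^ θ ∧
      ε * (x / Real.log x) < |∑ p ∈ PY x, Rr B e a b c p k|) ⊆
      (Ioc J K).biUnion (fun j => (range (2 * j ^ 2 + 1)).biUnion (fun i => E (gp j i))) := by
    intro k hk
    rw [mem_filter] at hk
    obtain ⟨hkK, x, hx1, hx2, hx3⟩ := hk
    obtain ⟨j, hj⟩ : ∃ j, j = Nat.log 2 x := ⟨_, rfl⟩
    have hx0 : x ≠ 0 := by have := Nat.one_le_two_pow (n := J + 1); omega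
    have hj1 : 2 ^ j ≤ x := by rw [hj]; exact Nat.pow_log_le_self 2 hx0
    have hj2 : x < 2 ^ (j + 1) := by rw [hj]; exact Nat.lt_pow_succ_log_self (by norm_num) x
    have hJj : J + 1 ≤ j := by
      rw [hj]; exact (Nat.le_log_iff_pow_le (by norm_num) hx0).2 hx1
    have hjK : j ≤ K := by
      have f1 : j < 2 ^ j := Nat.lt_two_pow_self
      have f2 : (x : ℝ) ≤ K := by
        refine hx2.trans ?_
        have hK1 : 1 ≤ K := by have := mem_range.1 hkK; omega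
        have hK1' : (1 : ℝ) ≤ K := by exact_mod_cast hK1
        calc (K : ℝ) ^ θ ≤ (K : ℝ) ^ (1 : ℝ) := Real.rpow_le_rpow_of_exponent_le hK1' (by linarith)
          _ = K := Real.rpow_one _
      have f3 : x ≤ K := by exact_mod_cast f2
      omega
    have hj4 : 5 ≤ j := by omega
    obtain ⟨w, hw⟩ : ∃ w, w = 2 ^ j / j ^ 2 := ⟨_, rfl⟩
    have hjpow : j ^ 2 ≤ 2 ^ j := by
      have : ∀ n : ℕ, 4 ≤ n → n ^ 2 ≤ 2 ^ n := by
        intro n hn
        induction n, hn using Nat.le_induction with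
        | base => norm_num
        | succ n hn ih =>
          rw [pow_succ 2 n]
          nlinarith
      exact this j (by omega)
    have hw1 : 1 ≤ w := by
      rw [hw]
      exact Nat.div_pos hjpow (by positivity)
    have hw2 : w * j ^ 2 ≤ 2 ^ j := by rw [hw]; exact Nat.div_mul_le_self _ _
    have hw3 : 2 ^ j < (w + 1) * j ^ 2 := by
      have h3 := Nat.lt_div_mul_add (a := 2 ^ j) (b := j ^ 2) (by positivity)
      rw [← hw] at h3
      calc 2 ^ j < w * j ^ 2 + j ^ 2 := h3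
        _ = (w + 1) * j ^ 2 := by ring
    obtain ⟨i, hi⟩ : ∃ i, i = (x - 2 ^ j) / w := ⟨_, rfl⟩
    have hi1 : i * w ≤ x - 2 ^ j := by rw [hi]; exact Nat.div_mul_le_self _ _
    have hi2 : x - 2 ^ j < i * w + w := by
      rw [hi]; exact Nat.lt_div_mul_add (by omega)
    have hi3 : i < 2 * j ^ 2 + 1 := by
      by_contra hcon
      push Not at hcon
      have g1 : (2 * j ^ 2 + 1) * w ≤ i * w := Nat.mul_le_mul_right w hcon
      have g2 : x - 2 ^ j < 2 ^ j := by rw [pow_succ] at hj2; omega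
      have g3 : (w + 1) * j ^ 2 ≤ 2 * j ^ 2 * w := by
        have : w + 1 ≤ 2 * w := by omega
        calc (w + 1) * j ^ 2 ≤ (2 * w) * j ^ 2 := Nat.mul_le_mul_right _ this
          _ = 2 * j ^ 2 * w := by ring
      have g4 : (2 * j ^ 2 + 1) * w = 2 * j ^ 2 * w + w := by ring
      omega
    obtain ⟨y, hy⟩ : ∃ y, y = gp j i := ⟨_, rfl⟩
    have hy' : y = 2 ^ j + i * w := by rw [hy, hgp, hw]; ring
    have hyx : y ≤ x := by omega
    have hxy : x - y < w := by omega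
    have hy2j : 2 ^ j ≤ y := by omega
    rw [mem_biUnion]
    refine ⟨j, mem_Ioc.2 ⟨by omega, hjK⟩, ?_⟩
    rw [mem_biUnion]
    refine ⟨i, mem_range.2 hi3, ?_⟩
    rw [← hy, hE]
    beta_reduce
    have hyxr : (y : ℝ) ≤ x := by exact_mod_cast hyx
    rw [if_pos (hyxr.trans hx2), mem_filter]
    refine ⟨hkK, ?_⟩
    -- analysis
    have hx1' : 1 < x := lt_of_lt_of_le (Nat.one_lt_two_pow (by omega)) hj1
    have hxr : (1 : ℝ) < x := by exact_mod_cast hx1'
    have hjr : (5 : ℝ) ≤ j := by exact_mod_cast hj4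
    have h2jr : ((2 : ℝ) ^ j) ≤ y := by exact_mod_cast hy2j
    have hlogx : Real.log x ≤ j := by
      have f1 : (x : ℝ) ≤ 2 ^ (j + 1) := by exact_mod_cast hj2.le
      have f2 := Real.log_le_log (by linarith) f1
      rw [Real.log_pow] at f2
      push_cast at f2
      nlinarith
    have hlogy : (j : ℝ) / 2 ≤ Real.log y := by
      have f2 := Real.log_le_log (by positivity) h2jr
      rw [Real.log_pow] at f2
      nlinarith
    have hlogyx : Real.log y ≤ Real.log x := Real.log_le_log (by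
      have : (0 : ℝ) < 2 ^ j := by positivity
      linarith) hyxr
    have hlx0 : 0 < Real.log x := Real.log_pos hxr
    have hly0 : 0 < Real.log y := by linarith
    have hy0 : (0 : ℝ) < y := by
      have : (0 : ℝ) < 2 ^ j := by positivity
      linarith
    obtain ⟨u, hu⟩ : ∃ u, u = (x : ℝ) / Real.log x := ⟨_, rfl⟩
    have hu0 : 0 < u := by rw [hu]; positivity
    have hv1 : (y : ℝ) / Real.log y ≤ 2 * u := by
      rw [hu]
      rw [div_le_iff₀ hly0]
      have : 2 * ((x : ℝ) / Real.log x) * Real.log y = x * (2 * Real.log y / Real.log x) := by ring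
      rw [this]
      have h3 : 1 ≤ 2 * Real.log y / Real.log x := by
        rw [le_div_iff₀ hlx0]; linarith
      nlinarith
    have hbad := h2 y (by
      have : j < 2 ^ j := Nat.lt_two_pow_self
      omega)
    -- difference between x and y
    have hd1 : |∑ p ∈ PY x, Rr B e a b c p k - ∑ p ∈ PY y, Rr B e a b c p k| ≤ ε / 8 * u := by
      have hPsub : PY y ⊆ PY x := by
        intro p hp
        rw [mem_PY] at hp ⊢
        exact ⟨hp.1, hp.2.trans hyx⟩
      rw [← sum_sdiff hPsub, add_sub_cancel_right]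
      have g1 : |∑ p ∈ PY x \ PY y, Rr B e a b c p k| ≤ ((PY x \ PY y).card : ℝ) := by
        refine (abs_sum_le_sum_abs _ _).trans ?_
        calc _ ≤ ∑ _p ∈ PY x \ PY y, (1 : ℝ) := by
              refine sum_le_sum fun p hp => ?_
              rw [Finset.mem_sdiff, mem_PY] at hp
              exact Rr_abs B e a b c p k hp.1.1
          _ = _ := by rw [sum_const, nsmul_eq_mul, mul_one]
      have g2 : (PY x \ PY y).card ≤ x - y := by
        calc (PY x \ PY y).card ≤ (Ioc y x).card := by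
              apply card_le_card
              intro p hp
              rw [Finset.mem_sdiff, mem_PY, mem_PY] at hp
              rw [mem_Ioc]
              refine ⟨?_, hp.1.2⟩
              by_contra h
              exact hp.2 ⟨hp.1.1, by omega⟩
          _ = x - y := Nat.card_Ioc y x
      have g3 : ((x - y : ℕ) : ℝ) ≤ ε / 8 * u := by
        have k1 : ((x - y : ℕ) : ℝ) ≤ w := by exact_mod_cast hxy.le
        have k2 : (w : ℝ) * j ^ 2 ≤ 2 ^ j := by exact_mod_cast hw2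
        have k3 : (w : ℝ) ≤ x / j ^ 2 := by
          rw [le_div_iff₀ (by positivity)]
          linarith
        have k4 : (x : ℝ) / j ^ 2 ≤ (1 / j) * u := by
          rw [hu]
          have : (1 / (j : ℝ)) * (x / Real.log x) = x / (j * Real.log x) := by
            field_simp
          rw [this]
          apply div_le_div_of_nonneg_left (by linarith) (by positivity)
          rw [sq]
          gcongr
        have k5 : 1 / (j : ℝ) ≤ ε / 8 := by
          have hjJ : (J : ℝ) ≤ j := by exact_mod_cast (by omega : J ≤ j)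
          rw [div_le_div_iff₀ (by linarith) (by norm_num)]
          have := hJε.trans hjJ
          rw [div_le_iff₀ hε] at this
          linarith
        calc ((x - y : ℕ) : ℝ) ≤ (1 / j) * u := by linarith
          _ ≤ ε / 8 * u := by gcongr
      refine g1.trans (le_trans ?_ g3)
      exact_mod_cast g2
    have hd2 : |∑ p ∈ PY y, Rr B e a b c p k - ∑ p ∈ GoodP a (b * c) 10 y, Rr B e a b c p k| ≤ ε / 4 * u := by
      have hGsub : GoodP a (b * c) 10 y ⊆ PY y := by rw [GoodP]; exact filter_subset _ _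
      rw [← sum_sdiff hGsub, add_sub_cancel_right]
      have g1 : |∑ p ∈ PY y \ GoodP a (b * c) 10 y, Rr B e a b c p k| ≤ ((PY y \ GoodP a (b * c) 10 y).card : ℝ) := by
        refine (abs_sum_le_sum_abs _ _).trans ?_
        calc _ ≤ ∑ _p ∈ PY y \ GoodP a (b * c) 10 y, (1 : ℝ) := by
              refine sum_le_sum fun p hp => ?_
              rw [Finset.mem_sdiff, mem_PY] at hp
              exact Rr_abs B e a b c p k hp.1.1
          _ = _ := by rw [sum_const, nsmul_eq_mul, mul_one]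
      refine g1.trans (hbad.trans ?_)
      nlinarith
    have hfin : ε / 2 * u < |∑ p ∈ GoodP a (b * c) 10 y, Rr B e a b c p k| := by
      rw [← hu] at hx3
      have k1 := abs_sub_abs_le_abs_sub (∑ p ∈ PY x, Rr B e a b c p k) (∑ p ∈ PY y, Rr B e a b c p k)
      have k2 := abs_sub_abs_le_abs_sub (∑ p ∈ PY y, Rr B e a b c p k) (∑ p ∈ GoodP a (b * c) 10 y, Rr B e a b c p k)
      have k3 : 0 < ε * u := by positivity
      linarith
    refine lt_of_le_of_lt ?_ hfin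
    rw [hδ]
    nlinarith
  -- counting
  have hcount : (((range K).filter (fun k => ∃ x : ℕ, 2 ^ (J + 1) ≤ x ∧ (x : ℝ) ≤ (K : ℝ) ^ θ ∧
      ε * (x / Real.log x) < |∑ p ∈ PY x, Rr B e a b c p k|)).card : ℝ) ≤
      ∑ j ∈ Ioc J K, (4096 * K / δ ^ 2) * ((j : ℝ) ^ 2)⁻¹ := by
    have f1 := (card_le_card hsub).trans (card_biUnion_le.trans (sum_le_sum fun j _ => card_biUnion_le))
    have f2 : (((range K).filter (fun k => ∃ x : ℕ, 2 ^ (J + 1) ≤ x ∧ (x : ℝ) ≤ (K : ℝ) ^ θ ∧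
      ε * (x / Real.log x) < |∑ p ∈ PY x, Rr B e a b c p k|)).card : ℝ) ≤
      ∑ j ∈ Ioc J K, ∑ i ∈ range (2 * j ^ 2 + 1), ((E (gp j i)).card : ℝ) := by
      exact_mod_cast f1
    refine f2.trans (sum_le_sum fun j hj => ?_)
    rw [mem_Ioc] at hj
    have hj5 : 5 ≤ j := by omega
    have hjr : (5 : ℝ) ≤ j := by exact_mod_cast hj5
    have g1 : ∀ i ∈ range (2 * j ^ 2 + 1), ((E (gp j i)).card : ℝ) ≤ 1024 * K / (δ ^ 2 * (j : ℝ) ^ 8) := by
      intro i _
      obtain ⟨y, hy⟩ : ∃ y, y = gp j i := ⟨_, rfl⟩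
      have hy2j : 2 ^ j ≤ y := by rw [hy, hgp]; exact Nat.le_add_right _ _
      have h2j : j < 2 ^ j := Nat.lt_two_pow_self
      rw [← hy]
      refine (hEc y (by omega) (by omega)).trans ?_
      have h2jr : ((2 : ℝ) ^ j) ≤ y := by exact_mod_cast hy2j
      have hlogy : (j : ℝ) / 2 ≤ Real.log y := by
        have f2 := Real.log_le_log (by positivity) h2jr
        rw [Real.log_pow] at f2
        nlinarith
      calc 4 * (K : ℝ) / (δ ^ 2 * Real.log y ^ 8) ≤ 4 * K / (δ ^ 2 * ((j : ℝ) / 2) ^ 8) := by gcongr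
        _ = 1024 * K / (δ ^ 2 * (j : ℝ) ^ 8) := by
            field_simp
            ring
    refine (sum_le_sum g1).trans ?_
    rw [sum_const, card_range, nsmul_eq_mul]
    push_cast
    have hj0 : (0 : ℝ) < j := by linarith
    have g2 : (2 * (j : ℝ) ^ 2 + 1) ≤ 4 * (j : ℝ) ^ 2 := by nlinarith
    calc (2 * (j : ℝ) ^ 2 + 1) * (1024 * K / (δ ^ 2 * (j : ℝ) ^ 8))
        ≤ (4 * (j : ℝ) ^ 2) * (1024 * K / (δ ^ 2 * (j : ℝ) ^ 8)) := by gcongr
      _ = (4096 * K / δ ^ 2) * ((j : ℝ) ^ 6)⁻¹ := by field_simp; ring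
      _ ≤ (4096 * K / δ ^ 2) * ((j : ℝ) ^ 2)⁻¹ := by
          apply mul_le_mul_of_nonneg_left _ (by positivity)
          apply inv_anti₀ (by positivity)
          exact pow_le_pow_right₀ (by linarith) (by norm_num)
  refine hcount.trans ?_
  rw [← mul_sum]
  have hJ0 : J ≠ 0 := by omega
  have hJr : (0 : ℝ) < J := by exact_mod_cast Nat.pos_of_ne_zero hJ0
  have f3 : ∑ j ∈ Ioc J K, ((j : ℝ) ^ 2)⁻¹ ≤ (J : ℝ)⁻¹ := by
    rcases Nat.lt_or_ge K J with h | h
    · rw [Ioc_eq_empty (by omega), sum_empty]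
      positivity
    · have := sum_Ioc_inv_sq_le_sub (α := ℝ) (k := J) (n := K) hJ0 h
      have h4 : (0 : ℝ) ≤ (K : ℝ)⁻¹ := by positivity
      linarith
  calc (4096 * K / δ ^ 2) * ∑ j ∈ Ioc J K, ((j : ℝ) ^ 2)⁻¹ ≤ (4096 * K / δ ^ 2) * (J : ℝ)⁻¹ := by gcongr
    _ = (4096 / (δ ^ 2 * η)) / J * (η * K) := by field_simp
    _ ≤ 1 * (η * K) := by
        apply mul_le_mul_of_nonneg_right _ (by positivity)
        rw [div_le_one hJr]
        exact hJη'
    _ = η * K := one_mul _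

end Pool.Agent.U376.AK
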