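import Mathlib
import Pool.Agent.U376.AK.Grid
import Pool.Agent.H771R4.SE.Datum
import Pool.Agent.W171.EP.Delta

set_option autoImplicit false

/-! Artin's formula for almost all terms of exponential sequences. -/

namespace Pool.Agent.U376.AK

open Finset Filter Topology
open Pool.Agent.N430.PS (G G_eq fc_fB fB G_zero_of_dvd G_nonneg G_le_one EE PB EE_lim)
open Pool.Agent.H730R2.AA (cnt dens rho)
open Pool.Agent.H730R2.AA.Exp (fc gen fc_gen_one)
open Pool.Agent.H386R2.Artin (artinC card_PP PP)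
open Pool.Agent.H386R2.Artin.SH (pi_lower)

lemma PY_eq (x : ℕ) : PY x = (range (x + 1)).filter Nat.Prime := by
  ext p
  rw [mem_PY, mem_filter, mem_range]
  constructor
  · rintro ⟨h1, h2⟩; exact ⟨by omega, h1⟩
  · rintro ⟨h1, h2⟩; exact ⟨h2, by omega⟩

lemma EE_eq (B : ℤ) (e x : ℕ) : EE B e x = ∑ p ∈ PY x, G B e p := by
  unfold EE PB
  rw [PY_eq]

lemma sum_Rr (B : ℤ) (e a : ℕ) (b c : ℤ) (k x : ℕ) : ∑ p ∈ PY x, Rr B e a b c p k =
    (cnt (B * (b * (a : ℤ) ^ k + c) ^ e) x : ℝ) - EE B e x := by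
  classical
  rw [EE_eq]
  unfold Rr cnt
  rw [sum_sub_distrib]
  congr 1
  rw [← sum_filter, sum_const, nsmul_eq_mul, mul_one, PY_eq, filter_filter]

open Classical in
theorem lim_gen (B : ℤ) (e a : ℕ) (he : e ≠ 0) (b c : ℤ) (ha : 2 ≤ a) (hb : b ≠ 0) (hc : c ≠ 0)
    (L : ℝ) (hlim : Tendsto (fun x : ℕ => EE B e x / (Nat.primeCounting x : ℝ)) atTop (𝓝 L))
    (θ : ℝ) (hθ0 : 0 < θ) (hθ : θ < 1) (ε : ℝ) (hε : 0 < ε) (η : ℝ) (hη : 0 < η) :
    ∃ X : ℕ, ∀ K : ℕ, (((Icc 1 K).filter (fun k => ∃ x : ℕ, X ≤ x ∧ (x : ℝ) ≤ (K : ℝ) ^ θ ∧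
      ε * (Nat.primeCounting x : ℝ) < |(cnt (B * (b * (a : ℤ) ^ k + c) ^ e) x : ℝ) -
        L * (Nat.primeCounting x : ℝ)|)).card : ℝ) ≤ η * K := by
  obtain ⟨X₁, h1⟩ := main B e a he b c ha hb hc θ hθ0 hθ (ε / 4) (by positivity) (η / 2) (by positivity)
  have h2 : ∀ᶠ x : ℕ in atTop, |EE B e x / (Nat.primeCounting x : ℝ) - L| ≤ ε / 2 := by
    have := (tendsto_order.1 ((hlim.sub_const L).abs)).2 (ε / 2) (by simp; positivity)
    filter_upwards [this] with x hx
    exact hx.le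
  obtain ⟨X₂, h3⟩ := eventually_atTop.1 (h2.and (pi_lower.and (eventually_ge_atTop 2)))
  refine ⟨max X₁ X₂, fun K => ?_⟩
  rcases Nat.eq_zero_or_pos K with rfl | hK
  · simp
  have hK1 : (1 : ℝ) ≤ K := by exact_mod_cast hK
  have hsub : (Icc 1 K).filter (fun k => ∃ x : ℕ, max X₁ X₂ ≤ x ∧ (x : ℝ) ≤ (K : ℝ) ^ θ ∧
      ε * (Nat.primeCounting x : ℝ) < |(cnt (B * (b * (a : ℤ) ^ k + c) ^ e) x : ℝ) -
        L * (Nat.primeCounting x : ℝ)|) ⊆
      (range (K + 1)).filter (fun k => ∃ x : ℕ, X₁ ≤ x ∧ (x : ℝ) ≤ ((K + 1 : ℕ) : ℝ) ^ θ ∧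
      ε / 4 * (x / Real.log x) < |∑ p ∈ PY x, Rr B e a b c p k|) := by
    intro k hk
    rw [mem_filter, mem_Icc] at hk
    obtain ⟨⟨hk1, hk2⟩, x, hx1, hx2, hx3⟩ := hk
    rw [mem_filter, mem_range]
    refine ⟨by omega, x, (le_max_left _ _).trans hx1, hx2.trans ?_, ?_⟩
    · apply Real.rpow_le_rpow (by linarith) _ hθ0.le
      push_cast; linarith
    · obtain ⟨g1, g2, g3⟩ := h3 x ((le_max_right _ _).trans hx1)
      rw [sum_Rr]
      obtain ⟨π, hπ⟩ : ∃ π : ℝ, π = (Nat.primeCounting x : ℝ) := ⟨_, rfl⟩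
      rw [← hπ] at g1 g2 hx3
      have hxr : (2 : ℝ) ≤ x := by exact_mod_cast g3
      have hlx : 0 < Real.log x := Real.log_pos (by linarith)
      have hπ0 : 0 < π := lt_of_lt_of_le (by positivity) g2
      have e1 : |EE B e x - L * π| ≤ ε / 2 * π := by
        have : EE B e x - L * π = (EE B e x / π - L) * π := by field_simp
        rw [this, abs_mul, abs_of_pos hπ0]
        gcongr
      have e2 : ε / 4 * (x / Real.log x) ≤ ε / 2 * π := by
        have : (x : ℝ) / Real.log x = 2 * (x / (2 * Real.log x)) := by field_simp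
        rw [this]
        nlinarith
      have e3 := abs_add_le ((cnt (B * (b * (a : ℤ) ^ k + c) ^ e) x : ℝ) - EE B e x) (EE B e x - L * π)
      have e4 : (cnt (B * (b * (a : ℤ) ^ k + c) ^ e) x : ℝ) - EE B e x + (EE B e x - L * π) =
          (cnt (B * (b * (a : ℤ) ^ k + c) ^ e) x : ℝ) - L * π := by ring
      rw [e4] at e3
      linarith
  calc _ ≤ (((range (K + 1)).filter (fun k => ∃ x : ℕ, X₁ ≤ x ∧ (x : ℝ) ≤ ((K + 1 : ℕ) : ℝ) ^ θ ∧
      ε / 4 * (x / Real.log x) < |∑ p ∈ PY x, Rr B e a b c p k|)).card : ℝ) := by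
        exact_mod_cast card_le_card hsub
    _ ≤ η / 2 * ((K + 1 : ℕ) : ℝ) := h1 (K + 1)
    _ ≤ η * K := by
        push_cast
        nlinarith

lemma G_one (p : ℕ) [Fact p.Prime] (B : ℤ) (hB : ¬ (p : ℤ) ∣ B) : G B 1 p = rho p := by
  classical
  have hu : IsUnit (B : ZMod p) := by
    rw [isUnit_iff_ne_zero, Ne, ZMod.intCast_zmod_eq_zero_iff_dvd]
    exact hB
  obtain ⟨b, hb⟩ := hu
  have h1 := G_eq B 1 b hb
  rw [fc_fB b 1 one_ne_zero] at h1
  have h2 : univ.filter (fun χ : DirichletCharacter ℂ p => χ ^ 1 = 1) = {1} := by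
    ext χ
    simp
  rw [h2, sum_singleton, fc_gen_one, MulChar.one_apply_coe, mul_one] at h1
  exact_mod_cast h1.symm

lemma EE_one_lim (B : ℤ) (hB : B ≠ 0) :
    Tendsto (fun x : ℕ => EE B 1 x / (Nat.primeCounting x : ℝ)) atTop (𝓝 artinC) := by
  classical
  have h := Pool.Agent.H771R4.SE.rho_lim
  have hdiff : ∀ x : ℕ, |EE B 1 x - ∑ p ∈ PP x, rho p| ≤ B.natAbs := by
    intro x
    have hPP : PP x = PY x := by rw [PY_eq]; rfl
    rw [EE_eq, hPP, ← sum_sub_distrib]
    refine (abs_sum_le_sum_abs _ _).trans ?_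
    have h1 : ∀ p ∈ PY x, |G B 1 p - rho p| ≤ if p ∈ Icc 1 B.natAbs then 1 else 0 := by
      intro p hp
      rw [mem_PY] at hp
      have : Fact p.Prime := ⟨hp.1⟩
      by_cases hd : (p : ℤ) ∣ B
      · have hmem : p ∈ Icc 1 B.natAbs := mem_Icc.2 ⟨hp.1.one_le,
          Nat.le_of_dvd (Int.natAbs_pos.2 hB) (Int.natCast_dvd.1 hd)⟩
        rw [if_pos hmem, G_zero_of_dvd B 1 hd, zero_sub, abs_neg,
          abs_of_nonneg (Pool.Agent.H771R4.SE.rho_nn p)]
        exact Pool.Agent.H771R4.SE.rho_le p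
      · rw [G_one p B hd, sub_self, abs_zero]
        split_ifs <;> norm_num
    refine (sum_le_sum h1).trans ?_
    rw [← sum_filter, sum_const, nsmul_eq_mul, mul_one]
    have h2 : ((PY x).filter (fun p => p ∈ Icc 1 B.natAbs)).card ≤ B.natAbs := by
      calc _ ≤ (Icc 1 B.natAbs).card := card_le_card fun p hp => (mem_filter.1 hp).2
        _ = B.natAbs := by rw [Nat.card_Icc]; omega
    exact_mod_cast h2
  have h2 : Tendsto (fun x : ℕ => (EE B 1 x - ∑ p ∈ PP x, rho p) / (Nat.primeCounting x : ℝ)) atTop (𝓝 0) := by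
    have h3 : Tendsto (fun x : ℕ => (B.natAbs : ℝ) / (Nat.primeCounting x : ℝ)) atTop (𝓝 0) :=
      tendsto_const_nhds.div_atTop Pool.Agent.N430.AD.pc_top
    refine squeeze_zero_norm (fun x => ?_) h3
    rw [Real.norm_eq_abs, abs_div, abs_of_nonneg (show (0 : ℝ) ≤ Nat.primeCounting x from Nat.cast_nonneg _)]
    exact div_le_div_of_nonneg_right (hdiff x) (Nat.cast_nonneg _)
  have h4 := h.add h2
  rw [add_zero] at h4
  refine h4.congr fun x => ?_
  ring

/-- a perfect square is a primitive root for at most one prime -/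
lemma cnt_sq (m : ℤ) (x : ℕ) : cnt (m ^ 2) x ≤ 1 := by
  classical
  unfold cnt
  have : (range (x + 1)).filter (fun p : ℕ => p.Prime ∧ orderOf ((m ^ 2 : ℤ) : ZMod p) = p - 1) ⊆ {2} := by
    intro p hp
    rw [mem_filter] at hp
    obtain ⟨-, hpp, ho⟩ := hp
    rw [mem_singleton]
    by_contra hp2
    have hfact : Fact p.Prime := ⟨hpp⟩
    have hp3 : 3 ≤ p := by
      have := hpp.two_le
      omega
    have hodd := hpp.eq_two_or_odd.resolve_left hp2
    have hm0 : (m : ZMod p) ≠ 0 := by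
      intro h
      push_cast at ho
      rw [h, zero_pow two_ne_zero, orderOf_zero] at ho
      omega
    have h1 : (((m ^ 2 : ℤ)) : ZMod p) ^ ((p - 1) / 2) = 1 := by
      push_cast
      rw [← pow_mul]
      have : 2 * ((p - 1) / 2) = p - 1 := by omega
      rw [this]
      exact ZMod.pow_card_sub_one_eq_one hm0
    have h2 := orderOf_dvd_of_pow_eq_one h1
    rw [ho] at h2
    have h3 := Nat.le_of_dvd (by omega) h2
    omega
  exact (card_le_card this).trans (by simp)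

lemma weier (s : Finset ℕ) (f : ℕ → ℝ) (h0 : ∀ i ∈ s, 0 ≤ f i) (h1 : ∀ i ∈ s, f i ≤ 1) :
    1 - ∑ i ∈ s, f i ≤ ∏ i ∈ s, (1 - f i) ∧ ∏ i ∈ s, (1 - f i) ≤ 1 ∧ 0 ≤ ∏ i ∈ s, (1 - f i) := by
  classical
  induction s using Finset.induction_on with
  | empty => simp
  | insert a s ha ih =>
    obtain ⟨i1, i2, i3⟩ := ih (fun i hi => h0 i (mem_insert_of_mem hi))
      (fun i hi => h1 i (mem_insert_of_mem hi))
    have a0 := h0 a (mem_insert_self a s)
    have a1 := h1 a (mem_insert_self a s)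
    rw [sum_insert ha, prod_insert ha]
    refine ⟨by nlinarith, by nlinarith, mul_nonneg (by linarith) i3⟩

lemma artinC_pos : 0 < artinC := by
  classical
  have hlim := Pool.Agent.H386R2.Artin.artinLim
  have hlow : ∀ L : ℕ, 1 / 12 ≤ Pool.Agent.H386R2.Artin.artinL L := by
    intro L
    unfold Pool.Agent.H386R2.Artin.artinL
    have hf : ∀ i ∈ PP L, 0 ≤ 1 / ((i : ℝ) * ((i : ℝ) - 1)) ∧ 1 / ((i : ℝ) * ((i : ℝ) - 1)) ≤ 1 := by
      intro i hi
      have hp : i.Prime := (mem_filter.1 hi).2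
      have h2 : (2 : ℝ) ≤ i := by exact_mod_cast hp.two_le
      have h3 : (1 : ℝ) ≤ (i : ℝ) * ((i : ℝ) - 1) := by nlinarith
      refine ⟨by positivity, ?_⟩
      rw [div_le_one (by linarith)]
      exact h3
    have h1 := (weier (PP L) (fun i => 1 / ((i : ℝ) * ((i : ℝ) - 1))) (fun i hi => (hf i hi).1)
      (fun i hi => (hf i hi).2)).1
    refine le_trans ?_ h1
    have h2 : ∀ n : ℕ, ∑ q ∈ Ico 5 (n + 5), 1 / ((q : ℝ) * ((q : ℝ) - 1)) = 1 / 4 - 1 / ((n : ℝ) + 4) := by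
      intro n
      induction n with
      | zero => simp
      | succ n ih =>
        rw [show n + 1 + 5 = (n + 5) + 1 from rfl, sum_Ico_succ_top (by omega), ih]
        push_cast
        have h0 : (0 : ℝ) ≤ n := Nat.cast_nonneg n
        have : (n : ℝ) + 4 ≠ 0 := by positivity
        have : (n : ℝ) + 5 ≠ 0 := by positivity
        have : (n : ℝ) + 1 + 4 ≠ 0 := by positivity
        have : (n : ℝ) + 5 - 1 ≠ 0 := by
          have : (0 : ℝ) < (n : ℝ) + 5 - 1 := by linarith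
          exact this.ne'
        field_simp
        ring
    have h3 : PP L ⊆ ({2, 3} : Finset ℕ) ∪ Ico 5 (L + 5) := by
      intro q hq
      have hp : q.Prime := (mem_filter.1 hq).2
      have hL := mem_range.1 (mem_filter.1 hq).1
      have h2 := hp.two_le
      rw [mem_union, mem_insert, mem_singleton, mem_Ico]
      by_cases c : 5 ≤ q
      · exact Or.inr ⟨c, by omega⟩
      · left
        interval_cases q
        · exact Or.inl rfl
        · exact Or.inr rfl
        · exact absurd hp (by norm_num)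
    have h4 : ∑ i ∈ PP L, 1 / ((i : ℝ) * ((i : ℝ) - 1)) ≤ 11 / 12 := by
      calc ∑ i ∈ PP L, 1 / ((i : ℝ) * ((i : ℝ) - 1))
          ≤ ∑ i ∈ ({2, 3} : Finset ℕ) ∪ Ico 5 (L + 5), 1 / ((i : ℝ) * ((i : ℝ) - 1)) := by
            refine sum_le_sum_of_subset_of_nonneg h3 fun i hi _ => ?_
            rw [mem_union, mem_insert, mem_singleton, mem_Ico] at hi
            have h2 : (2 : ℝ) ≤ i := by
              have : 2 ≤ i := by omega
              exact_mod_cast this
            have : (0 : ℝ) ≤ (i : ℝ) * ((i : ℝ) - 1) := by nlinarith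
            positivity
        _ ≤ ∑ i ∈ ({2, 3} : Finset ℕ), 1 / ((i : ℝ) * ((i : ℝ) - 1)) +
            ∑ i ∈ Ico 5 (L + 5), 1 / ((i : ℝ) * ((i : ℝ) - 1)) := by
            rw [← sum_union]
            rw [disjoint_left]
            intro i hi
            rw [mem_insert, mem_singleton] at hi
            rw [mem_Ico]
            omega
        _ ≤ 11 / 12 := by
            rw [h2, sum_insert (by norm_num), sum_singleton]
            have : 0 ≤ ((L : ℝ) + 4)⁻¹ := by positivity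
            norm_num
            linarith
    linarith
  have := ge_of_tendsto' hlim hlow
  linarith

end Pool.Agent.U376.AK
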